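import Mathlib
import Pool.Agent.W604.Lem3

set_option autoImplicit false
set_option linter.unusedSectionVars false
set_option linter.unusedSimpArgs false
set_option linter.unusedVariables false

/-!
The complexity of the regions, and the conditions for an arc family.
-/

namespace Pool.Agent.W604.FT

open Equiv Pool.Agent.W604

variable {B P : Type} {k : ℕ}

theorem Tsm_card {Z Y : Type} [Finite Z] [Finite Y] (R : Setoid Z) (f : Y → Z) :
    Tsm R (fun z => (Nat.card {y : Y // R (f y) z} : ℤ)) = Nat.card Y := by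
  classical
  unfold Tsm
  let _ : Fintype (Quotient R) := Fintype.ofFinite _
  rw [finsum_eq_sum_of_fintype]
  have e : Y ≃ Σ c : Quotient R, {y : Y // R (f y) c.out} :=
    { toFun := fun y => ⟨Quotient.mk R (f y), y, R.symm (Quotient.mk_out (s := R) (f y))⟩
      invFun := fun p => p.2.1
      left_inv := fun y => rfl
      right_inv := by
        rintro ⟨c, y, hy⟩
        obtain rfl : Quotient.mk R (f y) = c := by
          rw [← Quotient.out_eq c]; exact Quotient.sound (s := R) hy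
        rfl }
  rw [Nat.card_congr e, Nat.card_sigma]
  push_cast
  rfl

theorem Tsm_lin {Z : Type} [Finite Z] (R : Setoid Z) (w w' w'' : Z → ℤ) (a b : ℤ) :
    Tsm R (fun z => a * w z + b * w' z + w'' z) = a * Tsm R w + b * Tsm R w' + Tsm R w'' := by
  classical
  unfold Tsm
  let _ : Fintype (Quotient R) := Fintype.ofFinite _
  simp only [finsum_eq_sum_of_fintype]
  rw [Finset.sum_add_distrib, Finset.sum_add_distrib, Finset.mul_sum, Finset.mul_sum]

/-- number of letters of the class -/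
noncomputable def nl (ψ : Cfg B P k) (z : LL B k ⊕ P) : ℤ :=
  Nat.card {l : LL B k // ψ.X.R (Sum.inl l) z}

/-- number of punctures of the class -/
noncomputable def np (ψ : Cfg B P k) (z : LL B k ⊕ P) : ℤ :=
  Nat.card {p : P // ψ.X.R (Sum.inr p) z}

/-- complexity of the class -/
noncomputable def cx (ψ : Cfg B P k) (z : LL B k ⊕ P) : ℤ :=
  (-3) * ψ.X.x z + 2 * np ψ z + nl ψ z

theorem nl_nonneg (ψ : Cfg B P k) (z : LL B k ⊕ P) : 0 ≤ nl ψ z := Int.natCast_nonneg _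
theorem np_nonneg (ψ : Cfg B P k) (z : LL B k ⊕ P) : 0 ≤ np ψ z := Int.natCast_nonneg _

theorem nl_CF (ψ : Cfg B P k) : CF ψ.X.R (nl ψ) := by
  intro a b h
  unfold nl
  congr 1
  refine Nat.card_congr (Equiv.subtypeEquivRight fun l => ?_)
  exact ⟨fun h' => ψ.X.R.trans h' h, fun h' => ψ.X.R.trans h' (ψ.X.R.symm h)⟩

theorem np_CF (ψ : Cfg B P k) : CF ψ.X.R (np ψ) := by
  intro a b h
  unfold np
  congr 1
  refine Nat.card_congr (Equiv.subtypeEquivRight fun l => ?_)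
  exact ⟨fun h' => ψ.X.R.trans h' h, fun h' => ψ.X.R.trans h' (ψ.X.R.symm h)⟩

theorem cx_CF (ψ : Cfg B P k) : CF ψ.X.R (cx ψ) := by
  intro a b h
  unfold cx
  rw [nl_CF ψ a b h, np_CF ψ a b h, ψ.X.hx a b h]

theorem np_zero_iff [Finite P] (ψ : Cfg B P k) (z : LL B k ⊕ P) : np ψ z = 0 ↔ ¬ ψ.Pu z := by
  unfold np Cfg.Pu
  rw [Nat.cast_eq_zero, Finite.card_eq_zero_iff, isEmpty_subtype, not_exists]

variable [Finite B] [Finite P]

theorem Tsm_cx (ψ : Cfg B P k) :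
    Tsm ψ.X.R (cx ψ) = (-3) * ψ.sx + 2 * Nat.card P + Nat.card (LL B k) := by
  have h1 := Tsm_lin ψ.X.R ψ.X.x (np ψ) (nl ψ) (-3) 2
  have h2 : Tsm ψ.X.R (np ψ) = Nat.card P := Tsm_card ψ.X.R Sum.inr
  have h3 : Tsm ψ.X.R (nl ψ) = Nat.card (LL B k) := Tsm_card ψ.X.R Sum.inl
  rw [h2, h3] at h1
  exact h1

theorem card_LL : (Nat.card (LL B k) : ℤ) = Nat.card B + 2 * k := by
  have : Nat.card (LL B k) = Nat.card B + 2 * k := by
    rw [Nat.card_sum, Nat.card_prod, Nat.card_fin]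
    simp [mul_comm]
  rw [this]
  push_cast
  ring

theorem f_card (ψ : Cfg B P k) (z : LL B k ⊕ P) :
    ψ.f z = Nat.card {c : Quotient (Perm.SameCycle.setoid (ψ.ps * bar)) //
      ψ.X.R (Sum.inl c.out) z} := by
  classical
  unfold Cfg.f Tsm
  let _ : Fintype (Quotient (Perm.SameCycle.setoid (ψ.ps * bar))) := Fintype.ofFinite _
  rw [finsum_eq_sum_of_fintype, Nat.card_eq_fintype_card, Fintype.card_subtype,
    Finset.card_filter]
  push_cast
  rfl

theorem f_le_nl (ψ : Cfg B P k) (z : LL B k ⊕ P) : ψ.f z ≤ nl ψ z := by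
  rw [f_card]
  unfold nl
  have : Nat.card {c : Quotient (Perm.SameCycle.setoid (ψ.ps * bar)) //
      ψ.X.R (Sum.inl c.out) z} ≤ Nat.card {l : LL B k // ψ.X.R (Sum.inl l) z} := by
    refine Nat.card_le_card_of_injective (fun c => ⟨c.1.out, c.2⟩) ?_
    intro c c' h
    apply Subtype.ext
    have := congrArg Subtype.val h
    exact Quotient.out_injective this
  exact_mod_cast this

/-- the letters of a class with one face are in this face -/
theorem SF_of_f_one {ψ : Cfg B P k} {z : LL B k ⊕ P} (h : ψ.f z = 1) {l l' : LL B k}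
    (hl : ψ.X.R (Sum.inl l) z) (hl' : ψ.X.R (Sum.inl l') z) : SF ψ.ps l l' := by
  rw [f_card] at h
  have h1 : Nat.card {c : Quotient (Perm.SameCycle.setoid (ψ.ps * bar)) //
      ψ.X.R (Sum.inl c.out) z} = 1 := by exact_mod_cast h
  rw [Nat.card_eq_one_iff_unique] at h1
  obtain ⟨h2, _⟩ := h1
  have key : ∀ l, ψ.X.R (Sum.inl l) z → ψ.X.R (Sum.inl
      (Quotient.mk (Perm.SameCycle.setoid (ψ.ps * bar)) l).out) z := by
    intro l hl
    have h3 : (ψ.ps * bar).SameCycle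
        (Quotient.mk (Perm.SameCycle.setoid (ψ.ps * bar)) l).out l :=
      Quotient.mk_out (s := Perm.SameCycle.setoid (ψ.ps * bar)) l
    exact ψ.X.R.trans (ψ.rel_SF h3) hl
  have h3 := h2.elim ⟨_, key l hl⟩ ⟨_, key l' hl'⟩
  exact Quotient.exact (Subtype.ext_iff.1 h3)

theorem f_one_of_SF {ψ : Cfg B P k} {z : LL B k ⊕ P} {l : LL B k} (hl : ψ.X.R (Sum.inl l) z)
    (h : ∀ l', ψ.X.R (Sum.inl l') z → SF ψ.ps l l') : ψ.f z = 1 := by
  rw [f_card]
  have : Nat.card {c : Quotient (Perm.SameCycle.setoid (ψ.ps * bar)) //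
      ψ.X.R (Sum.inl c.out) z} = 1 := by
    rw [Nat.card_eq_one_iff_unique]
    have h3 : (ψ.ps * bar).SameCycle
        (Quotient.mk (Perm.SameCycle.setoid (ψ.ps * bar)) l).out l :=
      Quotient.mk_out (s := Perm.SameCycle.setoid (ψ.ps * bar)) l
    refine ⟨⟨?_⟩, ⟨⟨Quotient.mk _ l, ψ.X.R.trans (ψ.rel_SF h3) hl⟩⟩⟩
    rintro ⟨c, hc⟩ ⟨c', hc'⟩
    apply Subtype.ext
    show c = c'
    rw [← Quotient.out_eq c, ← Quotient.out_eq c']
    exact Quotient.sound (s := Perm.SameCycle.setoid (ψ.ps * bar))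
      (Perm.SameCycle.trans (Perm.SameCycle.symm (h _ hc)) (h _ hc'))
  rw [this]
  rfl

/-! ### deletion -/

section sums

variable [Fintype B] [Fintype P]

open Classical in
theorem nl_sum (ψ : Cfg B P k) (z : LL B k ⊕ P) :
    nl ψ z = ∑ l : LL B k, if ψ.X.R (Sum.inl l) z then 1 else 0 := by
  unfold nl
  rw [Nat.card_eq_fintype_card, Fintype.card_subtype, Finset.card_filter]
  push_cast
  rfl

open Classical in
theorem np_sum (ψ : Cfg B P k) (z : LL B k ⊕ P) :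
    np ψ z = ∑ p : P, if ψ.X.R (Sum.inr p) z then 1 else 0 := by
  unfold np
  rw [Nat.card_eq_fintype_card, Fintype.card_subtype, Finset.card_filter]
  push_cast
  rfl

theorem sum_LL (g : LL B (k + 1) → ℤ) :
    ∑ l, g l = g z1 + g z0 + ∑ l : LL B k, g (j0 l) := by
  rw [Fintype.sum_sum_type, Fintype.sum_sum_type, Fintype.sum_prod_type, Fintype.sum_prod_type,
    Fin.sum_univ_succ, Fintype.sum_bool]
  simp only [j0]
  ring

end sums

variable [DecidableEq B]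

theorem nl_del_of_not {ψ : Cfg B P (k + 1)} {z : LL B k ⊕ P} (h : ¬ ψ.M (JJ z)) :
    nl ψ.del z = nl ψ (JJ z) := by
  classical
  let _ : Fintype B := Fintype.ofFinite _
  let _ : Fintype P := Fintype.ofFinite _
  rw [nl_sum, nl_sum, sum_LL]
  have h1 : ¬ ψ.X.R (Sum.inl z1) (JJ z) := fun h' => h (Or.inl (ψ.X.R.symm h'))
  have h0 : ¬ ψ.X.R (Sum.inl z0) (JJ z) := fun h' => h (Or.inr (ψ.X.R.symm h'))
  rw [if_neg h1, if_neg h0, zero_add, zero_add]
  refine Finset.sum_congr rfl fun l _ => ?_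
  have h2 : ψ.del.X.R (Sum.inl l) z ↔ ψ.X.R (Sum.inl (j0 l)) (JJ z) := by
    constructor
    · rintro (h' | ⟨_, h'⟩)
      · exact h'
      · exact absurd h' h
    · exact mgR_of
  simp only [h2]

theorem np_del_of_not {ψ : Cfg B P (k + 1)} {z : LL B k ⊕ P} (h : ¬ ψ.M (JJ z)) :
    np ψ.del z = np ψ (JJ z) := by
  unfold np
  congr 1
  refine Nat.card_congr (Equiv.subtypeEquivRight fun p => ?_)
  constructor
  · rintro (h' | ⟨_, h'⟩)
    · exact h'
    · exact absurd h' h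
  · exact mgR_of

theorem cx_del_of_not {ψ : Cfg B P (k + 1)} {z : LL B k ⊕ P} (h : ¬ ψ.M (JJ z)) :
    cx ψ.del z = cx ψ (JJ z) := by
  have h1 : ψ.del.X.x z = ψ.X.x (JJ z) := SX.mg_x_of_not h
  unfold cx
  rw [nl_del_of_not h, np_del_of_not h, h1]

theorem del_R_of {ψ : Cfg B P (k + 1)} {z : LL B k ⊕ P} (h : ψ.M (JJ z)) (y : LL B k ⊕ P) :
    ψ.del.X.R y z ↔ ψ.M (JJ y) := by
  constructor
  · rintro (h' | ⟨h', _⟩)
    · exact h.imp (ψ.X.R.trans h') (ψ.X.R.trans h')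
    · exact h'
  · intro h'
    exact Or.inr ⟨h', h⟩

theorem M_iff_of_in {ψ : Cfg B P (k + 1)} (hI : ψ.In) (z : LL B (k + 1) ⊕ P) :
    ψ.M z ↔ ψ.X.R z (Sum.inl z1) :=
  ⟨fun h => h.elim id (fun h' => ψ.X.R.trans h' (ψ.X.R.symm hI)), Or.inl⟩

theorem nl_del_of_in {ψ : Cfg B P (k + 1)} {z : LL B k ⊕ P} (h : ψ.M (JJ z)) (hI : ψ.In) :
    nl ψ (Sum.inl z1) = nl ψ.del z + 2 := by
  classical
  let _ : Fintype B := Fintype.ofFinite _
  let _ : Fintype P := Fintype.ofFinite _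
  rw [nl_sum, nl_sum, sum_LL, if_pos (ψ.X.R.refl _), if_pos (ψ.X.R.symm hI)]
  have : ∀ l : LL B k, ψ.del.X.R (Sum.inl l) z ↔ ψ.X.R (Sum.inl (j0 l)) (Sum.inl z1) := by
    intro l
    rw [del_R_of h, M_iff_of_in hI]
    rfl
  simp only [this]
  ring

theorem np_del_of_in {ψ : Cfg B P (k + 1)} {z : LL B k ⊕ P} (h : ψ.M (JJ z)) (hI : ψ.In) :
    np ψ (Sum.inl z1) = np ψ.del z := by
  unfold np
  congr 1
  refine Nat.card_congr (Equiv.subtypeEquivRight fun p => ?_)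
  rw [del_R_of h, M_iff_of_in hI]
  rfl

theorem cx_del_of_in {ψ : Cfg B P (k + 1)} {z : LL B k ⊕ P} (h : ψ.M (JJ z)) (hI : ψ.In) :
    cx ψ (Sum.inl z1) = cx ψ.del z - 1 := by
  have h1 : ψ.del.X.x z = ψ.X.x (Sum.inl z1) - 1 := SX.mg_x_of h hI
  unfold cx
  rw [nl_del_of_in h hI, np_del_of_in h hI, h1]
  ring

theorem nl_del_of {ψ : Cfg B P (k + 1)} {z : LL B k ⊕ P} (h : ψ.M (JJ z)) (hI : ¬ ψ.In) :
    nl ψ (Sum.inl z1) + nl ψ (Sum.inl z0) = nl ψ.del z + 2 := by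
  classical
  let _ : Fintype B := Fintype.ofFinite _
  let _ : Fintype P := Fintype.ofFinite _
  rw [nl_sum, nl_sum, nl_sum, sum_LL, sum_LL, if_pos (ψ.X.R.refl _), if_pos (ψ.X.R.refl _),
    if_neg (show ¬ ψ.X.R (Sum.inl z1) (Sum.inl z0) from hI),
    if_neg (show ¬ ψ.X.R (Sum.inl z0) (Sum.inl z1) from fun h' => hI (ψ.X.R.symm h'))]
  have h2 : ∀ l : LL B k, (if ψ.del.X.R (Sum.inl l) z then (1 : ℤ) else 0) =
      (if ψ.X.R (Sum.inl (j0 l)) (Sum.inl z1) then 1 else 0) +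
      (if ψ.X.R (Sum.inl (j0 l)) (Sum.inl z0) then 1 else 0) := by
    intro l
    have h2 : ψ.del.X.R (Sum.inl l) z ↔ (ψ.X.R (Sum.inl (j0 l)) (Sum.inl z1) ∨
        ψ.X.R (Sum.inl (j0 l)) (Sum.inl z0)) := del_R_of h _
    simp only [h2]
    by_cases a1 : ψ.X.R (Sum.inl (j0 l)) (Sum.inl z1)
    · have a0 : ¬ ψ.X.R (Sum.inl (j0 l)) (Sum.inl z0) :=
        fun h' => hI (ψ.X.R.trans (ψ.X.R.symm a1) h')
      simp [a1, a0]
    · by_cases a0 : ψ.X.R (Sum.inl (j0 l)) (Sum.inl z0) <;> simp [a1, a0]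
  simp only [h2, Finset.sum_add_distrib]
  ring

theorem np_del_of {ψ : Cfg B P (k + 1)} {z : LL B k ⊕ P} (h : ψ.M (JJ z)) (hI : ¬ ψ.In) :
    np ψ (Sum.inl z1) + np ψ (Sum.inl z0) = np ψ.del z := by
  classical
  let _ : Fintype B := Fintype.ofFinite _
  let _ : Fintype P := Fintype.ofFinite _
  rw [np_sum, np_sum, np_sum, ← Finset.sum_add_distrib]
  refine Finset.sum_congr rfl fun l _ => ?_
  have h2 : ψ.del.X.R (Sum.inr l) z ↔ (ψ.X.R (Sum.inr l) (Sum.inl z1) ∨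
      ψ.X.R (Sum.inr l) (Sum.inl z0)) := del_R_of h _
  simp only [h2]
  by_cases a1 : ψ.X.R (Sum.inr l) (Sum.inl z1)
  · have a0 : ¬ ψ.X.R (Sum.inr l) (Sum.inl z0) :=
      fun h' => hI (ψ.X.R.trans (ψ.X.R.symm a1) h')
    simp [a1, a0]
  · by_cases a0 : ψ.X.R (Sum.inr l) (Sum.inl z0) <;> simp [a1, a0]

theorem cx_del_of {ψ : Cfg B P (k + 1)} {z : LL B k ⊕ P} (h : ψ.M (JJ z)) (hI : ¬ ψ.In) :
    cx ψ (Sum.inl z1) + cx ψ (Sum.inl z0) = cx ψ.del z - 1 := by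
  have h1 : ψ.del.X.x z = ψ.X.x (Sum.inl z1) + ψ.X.x (Sum.inl z0) - 1 := SX.mg_x_of' h hI
  have h2 := nl_del_of h hI
  have h3 := np_del_of h hI
  unfold cx
  rw [h1]
  linarith

/-! ### arc families -/

/-- the conditions for an arc family -/
structure IC (β : Perm B) (X : ℤ) (ψ : Cfg B P k) : Prop where
  val : ψ.Valid
  sx : ψ.sx - k = X
  bd : ψ.Bd β
  cn : ψ.Cn
  es : ψ.Es

variable {β : Perm B} {X : ℤ}

theorem ic_act (π : Perm (Fin k)) (e : Fin k → Bool) (ψ : Cfg B P k) :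
    IC β X (ψ.act π e) ↔ IC β X ψ := by
  constructor
  · rintro ⟨h1, h2, h3, h4, h5⟩
    exact ⟨(Cfg.act_valid π e ψ).1 h1, by rwa [Cfg.act_sx] at h2, (Cfg.Bd_act β π e ψ).1 h3,
      (Cfg.Cn_act π e ψ).1 h4, (Cfg.Es_act π e ψ).1 h5⟩
  · rintro ⟨h1, h2, h3, h4, h5⟩
    exact ⟨(Cfg.act_valid π e ψ).2 h1, by rwa [Cfg.act_sx], (Cfg.Bd_act β π e ψ).2 h3,
      (Cfg.Cn_act π e ψ).2 h4, (Cfg.Es_act π e ψ).2 h5⟩

theorem valid_letter {ψ : Cfg B P k} (h : ψ.Valid) (z : LL B k ⊕ P) :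
    ∃ l, ψ.X.R (Sum.inl l) z := by
  rcases z with l | p
  · exact ⟨l, ψ.X.R.refl _⟩
  · exact h.punct p

theorem nl_pos {ψ : Cfg B P k} (h : ψ.Valid) (z : LL B k ⊕ P) : 1 ≤ nl ψ z := by
  obtain ⟨l, hl⟩ := valid_letter h z
  have := f_le_nl ψ z
  have h2 := ψ.f_pos l
  rw [ψ.f_CF _ _ hl] at h2
  linarith

theorem x_le {ψ : Cfg B P k} (h : ψ.Valid) (z : LL B k ⊕ P) : ψ.X.x z ≤ 1 := by
  obtain ⟨l, hl⟩ := valid_letter h z
  obtain ⟨g, hg⟩ := h.genus l
  have h2 := ψ.f_pos l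
  have h3 : (0 : ℤ) ≤ g := Int.natCast_nonneg g
  rw [← ψ.X.hx _ _ hl]
  linarith

theorem np_pos {ψ : Cfg B P k} {z : LL B k ⊕ P} (h : ψ.Pu z) : 1 ≤ np ψ z := by
  have h1 := np_nonneg ψ z
  have h2 : np ψ z ≠ 0 := fun h' => (np_zero_iff ψ z).1 h' h
  omega

theorem es_nl {ψ : Cfg B P k} (h : ψ.Es) {z : LL B k ⊕ P} (hx : ψ.X.x z = 1)
    (hp : ¬ ψ.Pu z) : 3 ≤ nl ψ z := by
  have := h z hx hp
  unfold nl
  exact_mod_cast this

theorem cx_nonneg {ψ : Cfg B P k} (hv : ψ.Valid) (he : ψ.Es) (z : LL B k ⊕ P) : 0 ≤ cx ψ z := by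
  have h1 := nl_pos hv z
  have h2 := x_le hv z
  have h3 := np_nonneg ψ z
  unfold cx
  rcases eq_or_lt_of_le h2 with hx | hx
  · by_cases hp : ψ.Pu z
    · have := np_pos hp
      rw [hx]; linarith
    · have := es_nl he hx hp
      rw [hx]; linarith
  · have : ψ.X.x z ≤ 0 := by omega
    linarith

theorem cx_zero {ψ : Cfg B P k} (hv : ψ.Valid) (he : ψ.Es) {z : LL B k ⊕ P} (h : cx ψ z = 0) :
    ψ.X.x z = 1 ∧ ((np ψ z = 0 ∧ nl ψ z = 3) ∨ (np ψ z = 1 ∧ nl ψ z = 1)) := by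
  have h1 := nl_pos hv z
  have h2 := x_le hv z
  have h3 := np_nonneg ψ z
  unfold cx at h
  rcases eq_or_lt_of_le h2 with hx | hx
  · refine ⟨hx, ?_⟩
    rw [hx] at h
    by_cases hp : ψ.Pu z
    · have := np_pos hp
      right; constructor <;> omega
    · have := es_nl he hx hp
      left; constructor <;> omega
  · have : ψ.X.x z ≤ 0 := by omega
    exfalso; linarith

theorem cx_one {ψ : Cfg B P k} (hv : ψ.Valid) (he : ψ.Es) {z : LL B k ⊕ P} (h : cx ψ z = 1) :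
    ψ.X.x z = 1 ∧ ((np ψ z = 0 ∧ nl ψ z = 4) ∨ (np ψ z = 1 ∧ nl ψ z = 2)) := by
  have h1 := nl_pos hv z
  have h2 := x_le hv z
  have h3 := np_nonneg ψ z
  unfold cx at h
  rcases eq_or_lt_of_le h2 with hx | hx
  · refine ⟨hx, ?_⟩
    rw [hx] at h
    by_cases hp : ψ.Pu z
    · have := np_pos hp
      right; constructor <;> omega
    · have := es_nl he hx hp
      left; constructor <;> omega
  · exfalso
    have hx0 : ψ.X.x z = 0 := by omega
    obtain ⟨l, hl⟩ := valid_letter hv z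
    obtain ⟨g, hg⟩ := hv.genus l
    have h4 := ψ.f_pos l
    rw [ψ.f_CF _ _ hl] at hg h4
    rw [ψ.X.hx _ _ hl, hx0] at hg
    have h5 := f_le_nl ψ z
    omega

theorem ic_del {ψ : Cfg B P (k + 1)} (h : IC β X ψ) : IC β X ψ.del := by
  refine ⟨h.val.del, ?_, (Cfg.Bd_del β ψ).2 h.bd, (Cfg.Cn_del h.val.good).2 h.cn, ?_⟩
  · rw [Cfg.del_sx h.val.good, ← h.sx]
    push_cast
    ring
  · intro z hx hp
    have key : 3 ≤ nl ψ.del z := by
      by_cases hM : ψ.M (JJ z)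
      · by_cases hI : ψ.In
        · exfalso
          have h1 : ψ.del.X.x z = ψ.X.x (Sum.inl z1) - 1 := SX.mg_x_of hM hI
          have h2 := x_le h.val (Sum.inl z1)
          linarith
        · have h1 : ψ.del.X.x z = ψ.X.x (Sum.inl z1) + ψ.X.x (Sum.inl z0) - 1 :=
            SX.mg_x_of' hM hI
          have h2 := x_le h.val (Sum.inl z1)
          have h3 := x_le h.val (Sum.inl z0)
          rw [Cfg.del_Pu, Cfg.Pu'_of hM] at hp
          push Not at hp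
          have h4 := es_nl h.es (z := Sum.inl z1) (by linarith) hp.1
          have h5 := es_nl h.es (z := Sum.inl z0) (by linarith) hp.2
          have h6 := nl_del_of hM hI
          linarith
      · rw [nl_del_of_not hM]
        refine es_nl h.es ?_ ?_
        · have h1 : ψ.del.X.x z = ψ.X.x (JJ z) := SX.mg_x_of_not hM
          rw [← h1]; exact hx
        · rw [Cfg.del_Pu, Cfg.Pu'_of_not hM] at hp; exact hp
    unfold nl at key
    exact_mod_cast key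

/-- total complexity -/
theorem ic_total {ψ : Cfg B P k} (h : IC β X ψ) :
    Tsm ψ.X.R (cx ψ) = (-3) * X + 2 * Nat.card P + Nat.card B - k := by
  rw [Tsm_cx, card_LL]
  have := h.sx
  linarith

theorem ic_total_nonneg {ψ : Cfg B P k} (h : IC β X ψ) :
    0 ≤ (-3) * X + 2 * (Nat.card P : ℤ) + Nat.card B - k := by
  rw [← ic_total h]
  exact Tsm_nonneg _ (fun z => cx_nonneg h.val h.es z)

end Pool.Agent.W604.FT
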