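import Mathlib
import Pool.Agent.W604.Kill
import Pool.Agent.W604.T.Cpl

set_option autoImplicit false
set_option linter.unusedSectionVars false
set_option linter.unusedSimpArgs false
set_option linter.unusedVariables false

/-!
Insertion of a chord.
-/

namespace Pool.Agent.W604.FT

open Equiv Pool.Agent.W604

variable {B P : Type} {k : ℕ} [DecidableEq B]

theorem j0_lft (v : LL B k) :
    j0 v = lft (E1 B k) (lft (E2 (Equiv.refl (Option B)) k) v) := by
  rw [j0_eq]; rfl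

theorem z0_lft : (z0 : LL B (k + 1)) = lft (E1 B k) (hole (E2 (Equiv.refl (Option B)) k)) := rfl
theorem z1_hole : (z1 : LL B (k + 1)) = hole (E1 B k) := rfl

theorem j0_ne_z (v : LL B k) (ε : Bool) : j0 v ≠ (Sum.inr (0, ε) : LL B (k + 1)) := by
  rcases v with b | ⟨i, ε'⟩
  · simp [j0]
  · simp only [j0, ne_eq, Sum.inr.injEq, Prod.mk.injEq, not_and]
    intro h
    exact absurd h (Fin.succ_ne_zero _)

theorem bar_bar (l : LL B k) : bar (bar l) = l := by
  have := congrArg (fun p : Perm (LL B k) => p l) (bar_mul_bar (B := B) (k := k))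
  simpa using this

theorem bar_j0' (l : LL B k) : bar (j0 l) = (j0 (bar l) : LL B (k + 1)) := by
  rcases l with b | ⟨i, ε⟩
  · rfl
  · show bar (Sum.inr (i.succ, ε)) = j0 (bar (Sum.inr (i, ε)))
    rw [bar_inr, bar_inr]
    rfl

/-- `z0` is inserted after `bar A`, then `z1` is inserted after `bar C` -/
def IF (ρ : Perm (LL B k)) (A C : LL B k) : Perm (LL B (k + 1)) :=
  ins (E1 B k) (ins (E2 (Equiv.refl (Option B)) k) ρ (bar A))
    (lft (E2 (Equiv.refl (Option B)) k) (bar C))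

variable (ρ : Perm (LL B k)) (A C : LL B k)

theorem d_IF : d (IF ρ A C) = ρ := by unfold d IF; rw [rm_ins, rm_ins]

theorem IF_z0 : IF ρ A C z0 = j0 (ρ (bar A)) := by
  unfold IF
  rw [z0_lft, ins_lft _ _ _ _ (hole_ne_lft _ _), ins_hole, ← j0_lft]

theorem IF_c : IF ρ A C (j0 (bar C)) = z1 := by
  unfold IF
  rw [j0_lft, ins_at]
  rfl

theorem F_z1 : (IF ρ A C * bar : Perm (LL B (k + 1))) z1 = j0 ((ρ * bar : Perm (LL B k)) A) := by
  rw [Perm.mul_apply, Perm.mul_apply, ← IF_z0 ρ A C]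
  congr 1

theorem F_C : (IF ρ A C * bar : Perm (LL B (k + 1))) (j0 C) = z1 := by
  rw [Perm.mul_apply, bar_j0', IF_c]

variable {A C}

theorem IF_z1 (h : A ≠ C) : IF ρ A C z1 = j0 (ρ (bar C)) := by
  unfold IF
  rw [z1_hole, ins_hole, ins_lft _ _ _ _ (fun h' => h (bar.injective h').symm), ← j0_lft]

theorem F_z0 (h : A ≠ C) : (IF ρ A C * bar : Perm (LL B (k + 1))) z0 =
    j0 ((ρ * bar : Perm (LL B k)) C) := by
  rw [Perm.mul_apply, Perm.mul_apply, ← IF_z1 ρ h]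
  congr 1

theorem F_A (h : A ≠ C) : (IF ρ A C * bar : Perm (LL B (k + 1))) (j0 A) = z0 := by
  rw [Perm.mul_apply, bar_j0']
  unfold IF
  rw [j0_lft, ins_lft _ _ _ _ (fun h' => h (bar.injective ((lft_inj _).1 h'))), ins_at]
  rfl

theorem F_of {l : LL B k} (h : l ≠ A) (h' : l ≠ C) :
    (IF ρ A C * bar : Perm (LL B (k + 1))) (j0 l) = j0 ((ρ * bar : Perm (LL B k)) l) := by
  rw [Perm.mul_apply, bar_j0']
  unfold IF
  rw [j0_lft, ins_lft _ _ _ _ (fun h2 => h' (bar.injective ((lft_inj _).1 h2))),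
    ins_lft _ _ _ _ (fun h2 => h (bar.injective h2)), ← j0_lft]
  rfl

theorem F_z0' : (IF ρ C C * bar : Perm (LL B (k + 1))) z0 = z0 := by
  rw [Perm.mul_apply]
  have : (bar z0 : LL B (k + 1)) = z1 := rfl
  rw [this]
  unfold IF
  rw [z1_hole, ins_hole, ins_at]
  rfl

theorem good_IF [Finite B] (h : Good ρ) (A C : LL B k) : Good (IF ρ A C) := by
  refine (good_d_iff ?_).1 (by rw [d_IF]; exact h)
  intro ε
  cases ε
  · refine ⟨ρ (bar A), ?_⟩
    rw [← IF_z0 ρ A C]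
    exact sameCycle_apply _ _
  · refine ⟨bar C, ?_⟩
    have := sameCycle_apply (IF ρ A C) (j0 (bar C))
    rw [IF_c] at this
    exact this.symm

theorem sc_fix {L : Type} {π : Perm L} {x y : L} (hx : π x = x) (h : π.SameCycle x y) :
    x = y := by
  obtain ⟨n, hn⟩ := h
  rw [Perm.zpow_apply_eq_self_of_apply_eq_self hx] at hn
  exact hn

theorem good_z {ψ : Perm (LL B (k + 1))} (h : Good ψ) (ε : Bool) :
    ψ (Sum.inr (0, ε)) ≠ Sum.inr (0, ε) := by
  intro h1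
  obtain ⟨b, hb⟩ := h (Sum.inr (0, ε))
  have := sc_fix h1 hb
  simp at this

/-- every system in which `z0` is not followed by `z1` is obtained by insertion -/
theorem exists_IF [Finite B] {ψ : Perm (LL B (k + 1))} (h : Good ψ) (h0 : ψ z0 ≠ z1) :
    ∃ A C : LL B k, ψ = IF (d ψ) A C := by
  obtain ⟨c, hc⟩ : ∃ c : LL B k, ψ (j0 c) = z1 := by
    rcases j0_cases (ψ⁻¹ z1) with ⟨ε, h1⟩ | ⟨c, h1⟩
    · rw [Perm.inv_eq_iff_eq] at h1
      cases ε
      · exact absurd h1.symm h0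
      · exact absurd h1.symm (good_z h true)
    · exact ⟨c, by rw [← h1]; simp⟩
  set ρ1 := rm (E1 B k) ψ with hρ1
  have e1 : ins (E1 B k) ρ1 (lft (E2 (Equiv.refl (Option B)) k) c) = ψ := by
    apply ins_rm
    rw [← j0_lft]
    exact hc
  obtain ⟨a, ha⟩ : ∃ a, ρ1 (lft (E2 (Equiv.refl (Option B)) k) a) =
      hole (E2 (Equiv.refl (Option B)) k) := by
    rcases eq_hole_or_lft (E2 (Equiv.refl (Option B)) k)
      (ρ1⁻¹ (hole (E2 (Equiv.refl (Option B)) k))) with h1 | ⟨a, h1⟩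
    · exfalso
      rw [Perm.inv_eq_iff_eq] at h1
      have h2 := rm_apply (E1 B k) ψ (hole (E2 (Equiv.refl (Option B)) k))
      rw [← hρ1, ← h1, ← z0_lft, ← z1_hole, if_neg h0] at h2
      exact good_z h false h2.symm
    · exact ⟨a, by rw [← h1]; simp⟩
  have e2 : ins (E2 (Equiv.refl (Option B)) k) (d ψ) a = ρ1 := by
    unfold d
    exact ins_rm _ _ _ ha
  refine ⟨bar a, bar c, ?_⟩
  unfold IF
  rw [bar_bar, bar_bar, e2, e1]

theorem IF_unique [Finite B] {ψ ψ' : Perm (LL B (k + 1))} (h : Good ψ) (h' : Good ψ') (hd : d ψ = d ψ')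
    {a c : LL B k} (h1 : ψ z0 = j0 a) (h2 : ψ' z0 = j0 a) (h3 : ψ (j0 c) = z1)
    (h4 : ψ' (j0 c) = z1) : ψ = ψ' := by
  obtain ⟨A, C, e⟩ := exists_IF h (by rw [h1]; exact j0_ne_z _ _)
  obtain ⟨A', C', e'⟩ := exists_IF h' (by rw [h2]; exact j0_ne_z _ _)
  have hC : bar C = c := by
    apply j0_inj
    apply ψ.injective
    rw [h3, e, IF_c]
  have hC' : bar C' = c := by
    apply j0_inj
    apply ψ'.injective
    rw [h4, e', IF_c]
  have hA : d ψ (bar A) = a := by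
    apply j0_inj
    rw [← h1]
    conv_rhs => rw [e]
    rw [IF_z0]
  have hA' : d ψ' (bar A') = a := by
    apply j0_inj
    rw [← h2]
    conv_rhs => rw [e']
    rw [IF_z0]
  have e1 : A = A' := by
    apply bar.injective
    apply (d ψ).injective
    rw [hA, hd, hA']
  have e2 : C = C' := by
    apply bar.injective
    rw [hC, hC']
  rw [e, e', ← hd, e1, e2]

/-! ### splitting off a class, and raising the value -/

/-- where the letters come from -/
def rhl (v : LL B k) : LL B (k + 1) ⊕ P → LL B k ⊕ P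
  | Sum.inl (Sum.inl b) => Sum.inl (Sum.inl b)
  | Sum.inl (Sum.inr (i, ε)) => Fin.cases (Sum.inl v) (fun j => Sum.inl (Sum.inr (j, ε))) i
  | Sum.inr p => Sum.inr p

theorem rhl_z (v : LL B k) (ε : Bool) :
    rhl (P := P) v (Sum.inl (Sum.inr (0, ε))) = Sum.inl v := rfl

theorem rhl_JJ (v : LL B k) (z : LL B k ⊕ P) : rhl v (JJ z) = z := by
  rcases z with (b | ⟨i, ε⟩) | p <;> rfl

theorem rhl_j0 (v : LL B k) (l : LL B k) : rhl (P := P) v (Sum.inl (j0 l)) = Sum.inl l :=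
  rhl_JJ v (Sum.inl l)

theorem JJ_inj : Function.Injective (JJ : LL B k ⊕ P → LL B (k + 1) ⊕ P) := by
  rintro (a | a) (b | b) h
  · exact congrArg Sum.inl (j0_inj (Sum.inl_injective h))
  · simp at h
  · simp at h
  · simpa using h

/-- the new class -/
def SS (T : Set (LL B k ⊕ P)) : Set (LL B (k + 1) ⊕ P) := {Sum.inl z0} ∪ JJ '' T

theorem z0_SS (T : Set (LL B k ⊕ P)) : Sum.inl z0 ∈ SS T := Or.inl rfl
theorem z1_SS (T : Set (LL B k ⊕ P)) : Sum.inl z1 ∉ SS T := by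
  rintro (h | ⟨y, _, h⟩)
  · simp at h
  · rcases y with l | p
    · exact j0_ne_z l true (Sum.inl_injective h)
    · simp at h
theorem JJ_SS {T : Set (LL B k ⊕ P)} {y : LL B k ⊕ P} : JJ y ∈ SS T ↔ y ∈ T := by
  constructor
  · rintro (h | ⟨y', h1, h⟩)
    · exfalso
      rcases y with l | p
      · exact j0_ne_z l false (Sum.inl_injective h)
      · simp at h
    · rwa [← JJ_inj h]
  · intro h
    exact Or.inr ⟨y, h, rfl⟩
theorem j0_SS {T : Set (LL B k ⊕ P)} {l : LL B k} : Sum.inl (j0 l) ∈ SS T ↔ Sum.inl l ∈ T :=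
  JJ_SS (y := Sum.inl l)

theorem spl_del (X : SX (LL B k ⊕ P)) {v : LL B k} {T : Set (LL B k ⊕ P)}
    (hT : ∀ y ∈ T, X.R y (Sum.inl v)) :
    ((X.spl (rhl v) (SS T)).mg (Sum.inl z1) (Sum.inl z0)).comap JJ = X := by
  have h1 : ∀ y : LL B k ⊕ P, (X.spl (rhl v) (SS T)).R (JJ y) (Sum.inl z1) ↔
      y ∉ T ∧ X.R y (Sum.inl v) := by
    intro y
    rw [SX.spl_R, JJ_SS, rhl_JJ, rhl_z]
    constructor
    · rintro (⟨_, h⟩ | ⟨h1, _, h2⟩)
      · exact absurd h (z1_SS T)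
      · exact ⟨h1, h2⟩
    · rintro ⟨h1, h2⟩
      exact Or.inr ⟨h1, z1_SS T, h2⟩
  have h0 : ∀ y : LL B k ⊕ P, (X.spl (rhl v) (SS T)).R (JJ y) (Sum.inl z0) ↔ y ∈ T := by
    intro y
    rw [SX.spl_R, JJ_SS]
    constructor
    · rintro (⟨h, _⟩ | ⟨_, h, _⟩)
      · exact h
      · exact absurd (z0_SS T) h
    · intro h
      exact Or.inl ⟨h, z0_SS T⟩
  have h10 : ¬ (X.spl (rhl v) (SS T)).R (Sum.inl z1) (Sum.inl z0) := by
    rw [SX.spl_R]
    rintro (⟨h, _⟩ | ⟨_, h, _⟩)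
    · exact z1_SS T h
    · exact h (z0_SS T)
  have hM : ∀ y : LL B k ⊕ P, ((X.spl (rhl v) (SS T)).R (JJ y) (Sum.inl z1) ∨
      (X.spl (rhl v) (SS T)).R (JJ y) (Sum.inl z0)) ↔ X.R y (Sum.inl v) := by
    intro y
    rw [h1, h0]
    constructor
    · rintro (h | h)
      · exact h.2
      · exact hT y h
    · intro h
      by_cases h2 : y ∈ T
      · exact Or.inr h2
      · exact Or.inl ⟨h2, h⟩
  refine SX.ext' (fun a b => ?_) (fun a => ?_)
  · rw [SX.comap_R, SX.mg_R, mgR_iff, hM, hM, SX.spl_R, JJ_SS, JJ_SS, rhl_JJ, rhl_JJ]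
    constructor
    · rintro ((⟨h2, h3⟩ | ⟨_, _, h2⟩) | ⟨h2, h3⟩)
      · exact X.R.trans (hT _ h2) (X.R.symm (hT _ h3))
      · exact h2
      · exact X.R.trans h2 (X.R.symm h3)
    · intro h
      by_cases ha : X.R a (Sum.inl v)
      · exact Or.inr ⟨ha, X.R.trans (X.R.symm h) ha⟩
      · refine Or.inl (Or.inr ⟨fun h' => ha (hT _ h'), fun h' => ha (X.R.trans h (hT _ h')), h⟩)
  · rw [SX.comap_x]
    by_cases ha : X.R a (Sum.inl v)
    · rw [SX.mg_x_of' ((hM a).2 ha) h10, SX.spl_x_of_not (z1_SS T), SX.spl_x_of (z0_SS T), rhl_z,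
        X.hx _ _ ha]
      ring
    · rw [SX.mg_x_of_not (fun h' => ha ((hM a).1 h')), SX.spl_x_of_not, rhl_JJ]
      rw [JJ_SS]
      exact fun h' => ha (hT _ h')

open Classical in
/-- raise the value of the class of `v` by one -/
noncomputable def up (X : SX (LL B k ⊕ P)) (v : LL B k) : SX (LL B (k + 1) ⊕ P) where
  R := Setoid.comap (rhl v) X.R
  x z := if X.R (rhl v z) (Sum.inl v) then X.x (rhl v z) + 1 else X.x (rhl v z)
  hx := by
    intro a b h
    have h' : X.R (rhl v a) (rhl v b) := h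
    have h1 : X.R (rhl v a) (Sum.inl v) ↔ X.R (rhl v b) (Sum.inl v) :=
      ⟨X.R.trans (X.R.symm h'), X.R.trans h'⟩
    simp only [h1, X.hx _ _ h']

theorem up_R (X : SX (LL B k ⊕ P)) (v : LL B k) (a b : LL B (k + 1) ⊕ P) :
    (up X v).R a b ↔ X.R (rhl v a) (rhl v b) := Iff.rfl

theorem up_x_z (X : SX (LL B k ⊕ P)) (v : LL B k) (ε : Bool) :
    (up X v).x (Sum.inl (Sum.inr (0, ε))) = X.x (Sum.inl v) + 1 :=
  if_pos (X.R.refl _)

theorem up_del (X : SX (LL B k ⊕ P)) (v : LL B k) :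
    ((up X v).mg (Sum.inl z1) (Sum.inl z0)).comap JJ = X := by
  have h10 : (up X v).R (Sum.inl z1) (Sum.inl z0) := X.R.refl _
  have hM : ∀ y : LL B k ⊕ P, ((up X v).R (JJ y) (Sum.inl z1) ∨
      (up X v).R (JJ y) (Sum.inl z0)) ↔ X.R y (Sum.inl v) := by
    intro y
    rw [up_R, up_R, rhl_JJ, rhl_z, rhl_z, or_self]
  refine SX.ext' (fun a b => ?_) (fun a => ?_)
  · rw [SX.comap_R, SX.mg_R, mgR_of_rel h10, up_R, rhl_JJ, rhl_JJ]
  · rw [SX.comap_x]
    by_cases ha : X.R a (Sum.inl v)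
    · rw [SX.mg_x_of ((hM a).2 ha) h10, up_x_z, X.hx _ _ ha]
      ring
    · rw [SX.mg_x_of_not (fun h' => ha ((hM a).1 h'))]
      have : (up X v).x (JJ a) = X.x (rhl v (JJ a)) := by
        refine if_neg ?_
        rw [rhl_JJ]
        exact ha
      rw [this, rhl_JJ]

variable [Finite B]

/-- insertion of a chord that cuts off the class `T` -/
noncomputable def sep (ψ : Cfg B P k) (A C v : LL B k) (T : Set (LL B k ⊕ P))
    (H : ∀ l : LL B (k + 1), (ψ.X.spl (rhl v) (SS T)).R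
      (Sum.inl ((IF ψ.ps A C * bar : Perm (LL B (k + 1))) l)) (Sum.inl l)) : Cfg B P (k + 1) where
  ps := IF ψ.ps A C
  X := ψ.X.spl (rhl v) (SS T)
  hR := H

theorem sep_del (ψ : Cfg B P k) (A C v : LL B k) (T : Set (LL B k ⊕ P))
    (H : ∀ l : LL B (k + 1), (ψ.X.spl (rhl v) (SS T)).R
      (Sum.inl ((IF ψ.ps A C * bar : Perm (LL B (k + 1))) l)) (Sum.inl l))
    (hT : ∀ y ∈ T, ψ.X.R y (Sum.inl v)) : (sep ψ A C v T H).del = ψ :=
  Cfg.ext' (d_IF ψ.ps A C) (spl_del ψ.X hT)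

/-- insertion of a chord that does not separate its region -/
noncomputable def inn (ψ : Cfg B P k) (A C : LL B k) (h : ψ.X.R (Sum.inl A) (Sum.inl C)) :
    Cfg B P (k + 1) where
  ps := IF ψ.ps A C
  X := up ψ.X C
  hR := by
    intro l
    rw [up_R]
    rcases j0_cases l with ⟨ε, rfl⟩ | ⟨l, rfl⟩
    · cases ε
      · by_cases hAC : A = C
        · subst hAC
          rw [F_z0']
        · rw [F_z0 ψ.ps hAC, rhl_j0, rhl_z]
          exact ψ.hR C
      · rw [F_z1, rhl_j0, rhl_z]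
        exact ψ.X.R.trans (ψ.hR A) h
    · by_cases hl : l = C
      · subst hl
        rw [F_C, rhl_z, rhl_j0]
      · by_cases hl' : l = A
        · subst hl'
          rw [F_A ψ.ps hl, rhl_z, rhl_j0]
          exact ψ.X.R.symm h
        · rw [F_of ψ.ps hl' hl, rhl_j0, rhl_j0]
          exact ψ.hR l

theorem inn_del (ψ : Cfg B P k) (A C : LL B k) (h : ψ.X.R (Sum.inl A) (Sum.inl C)) :
    (inn ψ A C h).del = ψ :=
  Cfg.ext' (d_IF ψ.ps A C) (up_del ψ.X C)

end Pool.Agent.W604.FT
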