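import Mathlib
import Pool.Agent.W604.T.Ins

set_option autoImplicit false
set_option linter.unusedSectionVars false
set_option linter.unusedSimpArgs false
set_option linter.unusedVariables false

/-!
Every arc family that is not maximal can be extended.
-/

namespace Pool.Agent.W604.FT

open Equiv Pool.Agent.W604

variable {B P : Type} {k : ℕ} [DecidableEq B] [Finite B] [Finite P] {β : Perm B} {X : ℤ}

/-- the conditions for an arc family, from those of the family with an arc deleted -/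
theorem ic_of_del {ψ : Cfg B P (k + 1)} (hg : Good ψ.ps) (h : IC β X ψ.del)
    (hz : ∀ ε : Bool, (∃ g : ℕ, ψ.X.x (Sum.inl (Sum.inr (0, ε))) +
      ψ.f (Sum.inl (Sum.inr (0, ε))) + 2 * g = 2) ∧
      (ψ.X.x (Sum.inl (Sum.inr (0, ε))) = 1 → ¬ ψ.Pu (Sum.inl (Sum.inr (0, ε))) →
        3 ≤ nl ψ (Sum.inl (Sum.inr (0, ε))))) : IC β X ψ := by
  have hMc : ∀ z, ψ.M z → ∃ ε : Bool, ψ.X.R z (Sum.inl (Sum.inr (0, ε))) := by
    rintro z (h | h)
    · exact ⟨true, h⟩
    · exact ⟨false, h⟩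
  refine ⟨⟨?_, ?_, hg⟩, ?_, (Cfg.Bd_del β ψ).1 h.bd, (Cfg.Cn_del hg).1 h.cn, ?_⟩
  · intro l
    by_cases hM : ψ.M (Sum.inl l)
    · obtain ⟨ε, hε⟩ := hMc _ hM
      rw [ψ.X.hx _ _ hε, ψ.f_CF _ _ hε]
      exact (hz ε).1
    · rcases j0_cases l with ⟨ε, rfl⟩ | ⟨v, rfl⟩
      · exfalso
        apply hM
        cases ε
        · exact Or.inr (ψ.X.R.refl _)
        · exact Or.inl (ψ.X.R.refl _)
      · obtain ⟨g, hg'⟩ := h.val.genus v
        have h1 : ψ.del.X.x (Sum.inl v) = ψ.X.x (JJ (Sum.inl v)) := SX.mg_x_of_not hM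
        have h2 := Cfg.del_f_of_not (z := Sum.inl v) hg hM
        rw [h1, h2] at hg'
        exact ⟨g, hg'⟩
  · intro p
    obtain ⟨l, hl⟩ := h.val.punct p
    rcases hl with hl | ⟨_, hl⟩
    · exact ⟨j0 l, hl⟩
    · obtain ⟨ε, hε⟩ := hMc _ hl
      exact ⟨_, ψ.X.R.symm hε⟩
  · have := h.sx
    rw [Cfg.del_sx hg] at this
    push_cast
    linarith
  · intro z hx hp
    have key : 3 ≤ nl ψ z := by
      by_cases hM : ψ.M z
      · obtain ⟨ε, hε⟩ := hMc _ hM
        rw [nl_CF ψ _ _ hε]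
        refine (hz ε).2 ?_ ?_
        · rw [← ψ.X.hx _ _ hε]; exact hx
        · rw [← ψ.Pu_congr hε]; exact hp
      · obtain ⟨z', rfl⟩ : ∃ z', z = JJ z' := by
          rcases z with l | p
          · rcases j0_cases l with ⟨ε, rfl⟩ | ⟨v, rfl⟩
            · exfalso
              apply hM
              cases ε
              · exact Or.inr (ψ.X.R.refl _)
              · exact Or.inl (ψ.X.R.refl _)
            · exact ⟨Sum.inl v, rfl⟩
          · exact ⟨Sum.inr p, rfl⟩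
        rw [← nl_del_of_not hM]
        refine es_nl h.es ?_ ?_
        · have : ψ.del.X.x z' = ψ.X.x (JJ z') := SX.mg_x_of_not hM
          rw [this]; exact hx
        · rw [Cfg.del_Pu, Cfg.Pu'_of_not hM]; exact hp
    unfold nl at key
    exact_mod_cast key

/-! ### a chord that does not separate -/

theorem inn_ic {ψ : Cfg B P k} (h : IC β X ψ) {A C : LL B k}
    (hAC : ψ.X.R (Sum.inl A) (Sum.inl C))
    (hg : ¬ SF ψ.ps A C ∨ (A = C ∧ ∃ g : ℕ, ψ.X.x (Sum.inl C) + ψ.f (Sum.inl C) + 2 * (g + 1) = 2)) :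
    IC β X (inn ψ A C hAC) := by
  set ψ' := inn ψ A C hAC with hψ'
  have hdel : ψ'.del = ψ := inn_del ψ A C hAC
  have hgood : Good ψ'.ps := good_IF ψ.ps h.val.good A C
  have hI : ψ'.In := by
    show ψ.X.R _ _
    exact ψ.X.R.refl _
  have hx : ∀ ε : Bool, ψ'.X.x (Sum.inl (Sum.inr (0, ε))) = ψ.X.x (Sum.inl C) + 1 :=
    fun ε => up_x_z ψ.X C ε
  have hM : ψ'.M (JJ (Sum.inl C)) := by
    left
    show ψ.X.R (rhl C (JJ (Sum.inl C))) (rhl C (Sum.inl z1))
    rw [rhl_JJ, rhl_z]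
  have hR : ∀ ε : Bool, ψ'.X.R (Sum.inl z1) (Sum.inl (Sum.inr (0, ε))) := by
    intro ε
    cases ε
    · exact hI
    · exact ψ'.X.R.refl _
  have hf := Cfg.del_f_of_in hgood hM hI
  rw [hdel] at hf
  have hnl := nl_del_of_in hM hI
  rw [hdel] at hnl
  have hnl' := nl_pos h.val (Sum.inl C)
  refine ic_of_del hgood (by rw [hdel]; exact h) (fun ε => ⟨?_, fun _ _ => ?_⟩)
  · rw [hx ε, ← ψ'.f_CF _ _ (hR ε)]
    obtain ⟨g, hg0⟩ := h.val.genus C
    rcases hf with ⟨hs, hf⟩ | ⟨hs, hf⟩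
    · exact ⟨g, by linarith⟩
    · rcases hg with hg | ⟨rfl, g', hg'⟩
      · exfalso
        apply hg
        have h1 : SF ψ'.ps (j0 C) (j0 ((ψ.ps * bar : Perm (LL B k)) A)) := by
          have e1 := sameCycle_apply (ψ'.ps * bar) (j0 C)
          have e2 := sameCycle_apply (ψ'.ps * bar) z1
          have e3 : (ψ'.ps * bar : Perm (LL B (k + 1))) (j0 C) = z1 := F_C ψ.ps A C
          have e4 : (ψ'.ps * bar : Perm (LL B (k + 1))) z1 =
            j0 ((ψ.ps * bar : Perm (LL B k)) A) := F_z1 ψ.ps A C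
          rw [e3] at e1
          rw [e4] at e2
          exact e1.trans e2
        have h2 : SF ψ.ps C ((ψ.ps * bar : Perm (LL B k)) A) := by
          have := SF_d_of hs h1
          have hps : d ψ'.ps = ψ.ps := d_IF ψ.ps A C
          rwa [hps] at this
        exact (sameCycle_apply (ψ.ps * bar) A).trans h2.symm
      · exact ⟨g', by linarith⟩
  · rw [← nl_CF ψ' _ _ (hR ε)]
    linarith

/-! ### a chord that cuts off a disc with one face -/

theorem sep_ic {ψ : Cfg B P k} (h : IC β X ψ) {A C v : LL B k} {T : Set (LL B k ⊕ P)}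
    (H : ∀ l : LL B (k + 1), (ψ.X.spl (rhl v) (SS T)).R
      (Sum.inl ((IF ψ.ps A C * bar : Perm (LL B (k + 1))) l)) (Sum.inl l))
    (hT : ∀ y ∈ T, ψ.X.R y (Sum.inl v)) (hTv : Sum.inl v ∉ T)
    (hf : (sep ψ A C v T H).f (Sum.inl z0) = 1)
    (h0 : ¬ (sep ψ A C v T H).Pu (Sum.inl z0) → 3 ≤ nl (sep ψ A C v T H) (Sum.inl z0))
    (h1 : ψ.X.x (Sum.inl v) = 1 → ¬ (sep ψ A C v T H).Pu (Sum.inl z1) →
      3 ≤ nl (sep ψ A C v T H) (Sum.inl z1)) :
    IC β X (sep ψ A C v T H) := by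
  set ψ' := sep ψ A C v T H with hψ'
  have hdel : ψ'.del = ψ := sep_del ψ A C v T H hT
  have hgood : Good ψ'.ps := good_IF ψ.ps h.val.good A C
  have hI : ¬ ψ'.In := by
    rintro (⟨h1, _⟩ | ⟨_, h1, _⟩)
    · exact z1_SS T h1
    · exact h1 (z0_SS T)
  have hM : ψ'.M (JJ (Sum.inl v)) := by
    left
    refine Or.inr ⟨fun h => hTv (JJ_SS.1 h), z1_SS T, ?_⟩
    rw [rhl_JJ, rhl_z]
  have hx0 : ψ'.X.x (Sum.inl z0) = 1 := SX.spl_x_of (z0_SS T)
  have hx1 : ψ'.X.x (Sum.inl z1) = ψ.X.x (Sum.inl v) := SX.spl_x_of_not (z1_SS T)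
  have hff := Cfg.del_f_of_join hgood hM hI
  rw [hdel, hf] at hff
  refine ic_of_del hgood (by rw [hdel]; exact h) (fun ε => ?_)
  cases ε
  · refine ⟨⟨0, ?_⟩, fun _ => h0⟩
    rw [hx0, hf]
    norm_num
  · refine ⟨?_, fun hx => h1 (hx1 ▸ hx)⟩
    obtain ⟨g, hg⟩ := h.val.genus v
    refine ⟨g, ?_⟩
    rw [hx1]
    linarith

/-- loop around a puncture -/
theorem mono_H (ψ : Cfg B P k) (C : LL B k) (p : P) (l : LL B (k + 1)) :
    (ψ.X.spl (rhl C) (SS {Sum.inr p})).R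
      (Sum.inl ((IF ψ.ps C C * bar : Perm (LL B (k + 1))) l)) (Sum.inl l) := by
  have hj : ∀ l : LL B k, (Sum.inl (j0 l) : LL B (k + 1) ⊕ P) ∉ SS {Sum.inr p} := by
    intro l h
    have h2 := j0_SS.1 h
    simp at h2
  rw [SX.spl_R]
  rcases j0_cases l with ⟨ε, rfl⟩ | ⟨l, rfl⟩
  · cases ε
    · rw [F_z0']
      exact Or.inl ⟨z0_SS _, z0_SS _⟩
    · rw [F_z1, rhl_j0, rhl_z]
      exact Or.inr ⟨hj _, z1_SS _, ψ.hR C⟩
  · by_cases hl : l = C
    · subst hl
      rw [F_C, rhl_z, rhl_j0]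
      exact Or.inr ⟨z1_SS _, hj _, ψ.X.R.refl _⟩
    · rw [F_of ψ.ps hl hl, rhl_j0, rhl_j0]
      exact Or.inr ⟨hj _, hj _, ψ.hR l⟩

/-- the loop around the puncture `p` at the corner after the letter `C` -/
noncomputable def mono (ψ : Cfg B P k) (C : LL B k) (p : P) : Cfg B P (k + 1) :=
  sep ψ C C C {Sum.inr p} (mono_H ψ C p)

section mono

variable {ψ : Cfg B P k} {C : LL B k} {p : P}

theorem mono_del (hp : ψ.X.R (Sum.inr p) (Sum.inl C)) : (mono ψ C p).del = ψ := by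
  apply sep_del
  rintro y rfl
  exact hp

theorem mono_R_z0 (y : LL B (k + 1) ⊕ P) :
    (mono ψ C p).X.R y (Sum.inl z0) ↔ y = Sum.inl z0 ∨ y = Sum.inr p := by
  constructor
  · rintro (⟨h | ⟨y', h', rfl⟩, _⟩ | ⟨_, h, _⟩)
    · exact Or.inl h
    · obtain rfl : y' = Sum.inr p := h'
      exact Or.inr rfl
    · exact absurd (z0_SS _) h
  · rintro (rfl | rfl)
    · exact Or.inl ⟨z0_SS _, z0_SS _⟩
    · exact Or.inl ⟨Or.inr ⟨Sum.inr p, rfl, rfl⟩, z0_SS _⟩

theorem mono_not_in : ¬ (mono ψ C p).In := by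
  intro h
  rcases (mono_R_z0 _).1 h with h | h
  · simp at h
  · simp at h

theorem mono_nl : nl (mono ψ C p) (Sum.inl z0) = 1 := by
  unfold nl
  have h : Nat.card {l // (mono ψ C p).X.R (Sum.inl l) (Sum.inl z0)} = 1 := by
    rw [Nat.card_eq_one_iff_unique]
    refine ⟨⟨?_⟩, ⟨⟨z0, (mono ψ C p).X.R.refl _⟩⟩⟩
    rintro ⟨a, ha⟩ ⟨b, hb⟩
    apply Subtype.ext
    rw [mono_R_z0] at ha hb
    simp only [reduceCtorEq, or_false, Sum.inl.injEq] at ha hb
    exact ha.trans hb.symm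
  rw [h]
  rfl

theorem mono_np : np (mono ψ C p) (Sum.inl z0) = 1 := by
  unfold np
  have h : Nat.card {q // (mono ψ C p).X.R (Sum.inr q) (Sum.inl z0)} = 1 := by
    rw [Nat.card_eq_one_iff_unique]
    refine ⟨⟨?_⟩, ⟨⟨p, (mono_R_z0 _).2 (Or.inr rfl)⟩⟩⟩
    rintro ⟨a, ha⟩ ⟨b, hb⟩
    apply Subtype.ext
    rw [mono_R_z0] at ha hb
    simp only [reduceCtorEq, false_or, Sum.inr.injEq] at ha hb
    exact ha.trans hb.symm
  rw [h]
  rfl

theorem mono_M (hp : ψ.X.R (Sum.inr p) (Sum.inl C)) : (mono ψ C p).M (JJ (Sum.inl C)) := by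
  left
  refine Or.inr ⟨?_, z1_SS _, ?_⟩
  · intro h
    have h2 := JJ_SS.1 h
    simp at h2
  · rw [rhl_JJ, rhl_z]

theorem mono_ic (h : IC β X ψ) (hp : ψ.X.R (Sum.inr p) (Sum.inl C))
    (hc : 1 ≤ cx ψ (Sum.inl C)) : IC β X (mono ψ C p) := by
  have hM := mono_M hp
  have h1 := nl_del_of hM (mono_not_in (ψ := ψ) (C := C) (p := p))
  have h2 := np_del_of hM (mono_not_in (ψ := ψ) (C := C) (p := p))
  rw [mono_del hp, mono_nl] at h1
  rw [mono_del hp, mono_np] at h2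
  apply sep_ic h
  · rintro y rfl
    exact hp
  · intro h
    simp at h
  · refine f_one_of_SF (l := z0) ((mono ψ C p).X.R.refl _) ?_
    intro l' hl'
    rcases (mono_R_z0 _).1 hl' with h | h
    · rw [Sum.inl_injective h]
      exact SF.refl _ _
    · simp at h
  · intro h'
    exact absurd ⟨p, (mono_R_z0 _).2 (Or.inr rfl)⟩ h'
  · intro hx h'
    have h3 := (np_zero_iff (mono ψ C p) (Sum.inl z1)).2 h'
    unfold cx at hc
    show 3 ≤ nl (mono ψ C p) (Sum.inl z1)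
    linarith

end mono

/-! ### ears -/

/-- the next letter of the face -/
abbrev nx (ψ : Cfg B P k) (l : LL B k) : LL B k := (ψ.ps * bar : Perm (LL B k)) l

theorem nx_inj (ψ : Cfg B P k) {a b : LL B k} (h : nx ψ a = nx ψ b) : a = b :=
  (ψ.ps * bar).injective h

theorem nx_R (ψ : Cfg B P k) (l : LL B k) : ψ.X.R (Sum.inl (nx ψ l)) (Sum.inl l) := ψ.hR l

theorem ear_H (ψ : Cfg B P k) {t : LL B k} (h1 : nx ψ t ≠ t) (h2 : nx ψ (nx ψ t) ≠ t)
    (l : LL B (k + 1)) :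
    (ψ.X.spl (rhl t) (SS {Sum.inl (nx ψ t), Sum.inl (nx ψ (nx ψ t))})).R
      (Sum.inl ((IF ψ.ps (nx ψ (nx ψ t)) t * bar : Perm (LL B (k + 1))) l)) (Sum.inl l) := by
  set T : Set (LL B k ⊕ P) := {Sum.inl (nx ψ t), Sum.inl (nx ψ (nx ψ t))} with hT
  have h3 : nx ψ (nx ψ t) ≠ nx ψ t := fun h => h1 (nx_inj ψ h)
  have hT1 : ∀ l : LL B k, (Sum.inl l : LL B k ⊕ P) ∈ T ↔ l = nx ψ t ∨ l = nx ψ (nx ψ t) := by
    intro l
    rw [hT, Set.mem_insert_iff, Set.mem_singleton_iff]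
    constructor
    · rintro (h | h)
      · exact Or.inl (Sum.inl_injective h)
      · exact Or.inr (Sum.inl_injective h)
    · rintro (h | h)
      · exact Or.inl (congrArg _ h)
      · exact Or.inr (congrArg _ h)
  rw [SX.spl_R]
  rcases j0_cases l with ⟨ε, rfl⟩ | ⟨l, rfl⟩
  · cases ε
    · rw [F_z0 ψ.ps h2]
      exact Or.inl ⟨j0_SS.2 ((hT1 _).2 (Or.inl rfl)), z0_SS _⟩
    · rw [F_z1, rhl_j0, rhl_z, j0_SS, hT1]
      refine Or.inr ⟨?_, z1_SS _, ?_⟩
      · rintro (h | h)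
        · exact h2 (nx_inj ψ h)
        · exact h3 (nx_inj ψ h)
      · exact ψ.X.R.trans (nx_R ψ _) (ψ.X.R.trans (nx_R ψ _) (nx_R ψ _))
  · by_cases hl : l = t
    · subst hl
      rw [F_C, rhl_z, rhl_j0, j0_SS, hT1]
      refine Or.inr ⟨z1_SS _, ?_, ψ.X.R.refl _⟩
      rintro (h | h)
      · exact h1 h.symm
      · exact h2 h.symm
    · by_cases hl' : l = nx ψ (nx ψ t)
      · subst hl'
        rw [F_A ψ.ps h2, j0_SS, hT1]
        exact Or.inl ⟨z0_SS _, Or.inr rfl⟩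
      · rw [F_of ψ.ps hl' hl, rhl_j0, rhl_j0, j0_SS, j0_SS, hT1, hT1]
        by_cases hl2 : l = nx ψ t
        · subst hl2
          exact Or.inl ⟨Or.inr rfl, Or.inl rfl⟩
        · refine Or.inr ⟨?_, ?_, ψ.hR l⟩
          · rintro (h | h)
            · exact hl (nx_inj ψ h)
            · exact hl2 (nx_inj ψ h)
          · rintro (h | h)
            · exact hl2 h
            · exact hl' h

/-- the arc that cuts off the two letters after `t` -/
noncomputable def ear (ψ : Cfg B P k) (t : LL B k) (h1 : nx ψ t ≠ t) (h2 : nx ψ (nx ψ t) ≠ t) :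
    Cfg B P (k + 1) :=
  sep ψ (nx ψ (nx ψ t)) t t {Sum.inl (nx ψ t), Sum.inl (nx ψ (nx ψ t))} (ear_H ψ h1 h2)

section ear

variable {ψ : Cfg B P k} {t : LL B k} (h1 : nx ψ t ≠ t) (h2 : nx ψ (nx ψ t) ≠ t)

theorem ear_T : ∀ y ∈ ({Sum.inl (nx ψ t), Sum.inl (nx ψ (nx ψ t))} : Set (LL B k ⊕ P)),
    ψ.X.R y (Sum.inl t) := by
  rintro y (rfl | rfl)
  · exact nx_R ψ t
  · exact ψ.X.R.trans (nx_R ψ _) (nx_R ψ _)

theorem ear_del : (ear ψ t h1 h2).del = ψ := sep_del _ _ _ _ _ _ ear_T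

theorem ear_R_z0 (y : LL B (k + 1) ⊕ P) : (ear ψ t h1 h2).X.R y (Sum.inl z0) ↔
    y = Sum.inl z0 ∨ y = Sum.inl (j0 (nx ψ t)) ∨ y = Sum.inl (j0 (nx ψ (nx ψ t))) := by
  constructor
  · rintro (⟨h | ⟨y', h' | h', rfl⟩, _⟩ | ⟨_, h, _⟩)
    · exact Or.inl h
    · subst h'
      exact Or.inr (Or.inl rfl)
    · obtain rfl : y' = Sum.inl (nx ψ (nx ψ t)) := h'
      exact Or.inr (Or.inr rfl)
    · exact absurd (z0_SS _) h
  · rintro (rfl | rfl | rfl)
    · exact Or.inl ⟨z0_SS _, z0_SS _⟩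
    · exact Or.inl ⟨j0_SS.2 (Or.inl rfl), z0_SS _⟩
    · exact Or.inl ⟨j0_SS.2 (Or.inr rfl), z0_SS _⟩

theorem ear_not_in : ¬ (ear ψ t h1 h2).In := by
  intro h
  rcases (ear_R_z0 h1 h2 _).1 h with h | h | h
  · simp at h
  · exact j0_ne_z _ _ (Sum.inl_injective h).symm
  · exact j0_ne_z _ _ (Sum.inl_injective h).symm

theorem ear_nl : nl (ear ψ t h1 h2) (Sum.inl z0) = 3 := by
  classical
  have h3 : nx ψ (nx ψ t) ≠ nx ψ t := fun h => h1 (nx_inj ψ h)
  unfold nl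
  have h : Nat.card {l // (ear ψ t h1 h2).X.R (Sum.inl l) (Sum.inl z0)} = 3 := by
    rw [Nat.subtype_card ({z0, j0 (nx ψ t), j0 (nx ψ (nx ψ t))} : Finset (LL B (k + 1)))]
    · rw [Finset.card_insert_of_notMem, Finset.card_insert_of_notMem, Finset.card_singleton]
      · rw [Finset.mem_singleton]
        exact fun h => h3 (j0_inj h).symm
      · rw [Finset.mem_insert, Finset.mem_singleton]
        rintro (h | h)
        · exact j0_ne_z _ _ h.symm
        · exact j0_ne_z _ _ h.symm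
    · intro l
      rw [ear_R_z0, Finset.mem_insert, Finset.mem_insert, Finset.mem_singleton, Sum.inl.injEq,
        Sum.inl.injEq, Sum.inl.injEq]
  rw [h]
  rfl

theorem ear_np : np (ear ψ t h1 h2) (Sum.inl z0) = 0 := by
  rw [np_zero_iff]
  rintro ⟨p, hp⟩
  rcases (ear_R_z0 h1 h2 _).1 hp with h | h | h <;> simp at h

include h1 h2 in
theorem t_not_T : (Sum.inl t : LL B k ⊕ P) ∉
    ({Sum.inl (nx ψ t), Sum.inl (nx ψ (nx ψ t))} : Set (LL B k ⊕ P)) := by
  rintro (h | h)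
  · exact h1 (Sum.inl_injective h).symm
  · exact h2 (Sum.inl_injective h).symm

theorem ear_M : (ear ψ t h1 h2).M (JJ (Sum.inl t)) := by
  left
  refine Or.inr ⟨?_, z1_SS _, ?_⟩
  · intro h
    exact t_not_T h1 h2 (JJ_SS.1 h)
  · rw [rhl_JJ, rhl_z]

theorem ear_ic (h : IC β X ψ) (hn : 4 ≤ nl ψ (Sum.inl t)) : IC β X (ear ψ t h1 h2) := by
  have h3 : nx ψ (nx ψ t) ≠ nx ψ t := fun h => h1 (nx_inj ψ h)
  have hM := ear_M h1 h2
  have e1 := nl_del_of hM (ear_not_in h1 h2)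
  rw [ear_del, ear_nl] at e1
  apply sep_ic h
  · exact ear_T
  · exact t_not_T h1 h2
  · have g1 : SF (ear ψ t h1 h2).ps z0 (j0 (nx ψ t)) := by
      have := sameCycle_apply ((ear ψ t h1 h2).ps * bar) z0
      have e : ((ear ψ t h1 h2).ps * bar : Perm (LL B (k + 1))) z0 = j0 (nx ψ t) :=
        F_z0 ψ.ps h2
      rw [e] at this
      exact this
    have g2 : SF (ear ψ t h1 h2).ps (j0 (nx ψ t)) (j0 (nx ψ (nx ψ t))) := by
      have := sameCycle_apply ((ear ψ t h1 h2).ps * bar) (j0 (nx ψ t))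
      have e : ((ear ψ t h1 h2).ps * bar : Perm (LL B (k + 1))) (j0 (nx ψ t)) =
        j0 (nx ψ (nx ψ t)) := F_of ψ.ps h3.symm h1
      rw [e] at this
      exact this
    refine f_one_of_SF (l := z0) ((ear ψ t h1 h2).X.R.refl _) ?_
    intro l' hl'
    rcases (ear_R_z0 h1 h2 _).1 hl' with h | h | h
    · rw [Sum.inl_injective h]
      exact SF.refl _ _
    · rw [Sum.inl_injective h]
      exact g1
    · rw [Sum.inl_injective h]
      exact g1.trans g2
  · intro _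
    show 3 ≤ nl (ear ψ t h1 h2) (Sum.inl z0)
    rw [ear_nl]
  · intro hx h'
    show 3 ≤ nl (ear ψ t h1 h2) (Sum.inl z1)
    linarith

end ear

/-! ### existence -/

/-- the letters of a class with one face -/
theorem nl_le_of_closed {ψ : Cfg B P k} {z : LL B k ⊕ P} (hf : ψ.f z = 1) {t : LL B k}
    (ht : ψ.X.R (Sum.inl t) z) (s : Finset (LL B k)) (hts : t ∈ s)
    (hs : ∀ l ∈ s, nx ψ l ∈ s) : nl ψ z ≤ s.card ∧ ∀ l, ψ.X.R (Sum.inl l) z → l ∈ s := by
  have key : ∀ l, ψ.X.R (Sum.inl l) z → l ∈ s := by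
    intro l hl
    obtain ⟨n, hn⟩ := exists_pow_sc (SF_of_f_one hf ht hl)
    rw [← hn]
    clear hn hl
    induction n with
    | zero => exact hts
    | succ n ih => rw [pow_succ', Perm.mul_apply]; exact hs _ ih
  refine ⟨?_, key⟩
  unfold nl
  have : Nat.card {l : LL B k // ψ.X.R (Sum.inl l) z} ≤ Nat.card s :=
    Nat.card_le_card_of_injective (fun l => (⟨l.1, key l.1 l.2⟩ : s)) (fun a b h =>
      Subtype.ext (congrArg (fun x : s => x.1) h))
  have h5 : Nat.card s = s.card := by simp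
  rw [h5] at this
  exact_mod_cast this

theorem exists_ext {ψ : Cfg B P k} (h : IC β X ψ) {z : LL B k ⊕ P} (hz : 1 ≤ cx ψ z) :
    ∃ ψ' : Cfg B P (k + 1), IC β X ψ' ∧ ψ'.del = ψ := by
  classical
  obtain ⟨l, hl⟩ := valid_letter h.val z
  rw [← cx_CF ψ _ _ hl] at hz
  clear hl z
  obtain ⟨g, hg⟩ := h.val.genus l
  have hfp := ψ.f_pos l
  by_cases hf : ψ.f (Sum.inl l) = 1
  · by_cases hg0 : g = 0
    · subst hg0
      have hx : ψ.X.x (Sum.inl l) = 1 := by
        push_cast at hg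
        linarith
      by_cases hp : ψ.Pu (Sum.inl l)
      · obtain ⟨p, hp⟩ := hp
        exact ⟨mono ψ l p, mono_ic h hp hz, mono_del hp⟩
      · have hnp := (np_zero_iff ψ (Sum.inl l)).2 hp
        have hn : 4 ≤ nl ψ (Sum.inl l) := by
          unfold cx at hz
          linarith
        have h1 : nx ψ l ≠ l := by
          intro h1
          have := (nl_le_of_closed hf (ψ.X.R.refl _) {l} (by simp) (by
            intro a ha
            rw [Finset.mem_singleton] at ha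
            subst ha
            rw [h1]; simp)).1
          rw [Finset.card_singleton] at this
          push_cast at this
          linarith
        have h2 : nx ψ (nx ψ l) ≠ l := by
          intro h2
          have := (nl_le_of_closed hf (ψ.X.R.refl _) {l, nx ψ l} (by simp) (by
            intro a ha
            rw [Finset.mem_insert, Finset.mem_singleton] at ha
            rcases ha with rfl | rfl
            · simp
            · rw [h2]; simp)).1
          have h3 : ((({l, nx ψ l} : Finset (LL B k)).card : ℕ) : ℤ) ≤ 2 := by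
            exact_mod_cast Finset.card_le_two
          linarith
        exact ⟨ear ψ l h1 h2, ear_ic h1 h2 h hn, ear_del h1 h2⟩
    · obtain ⟨g', rfl⟩ := Nat.exists_eq_succ_of_ne_zero hg0
      exact ⟨inn ψ l l (ψ.X.R.refl _), inn_ic h _ (Or.inr ⟨rfl, g', by
        push_cast at hg; linarith⟩), inn_del _ _ _ _⟩
  · obtain ⟨l', hl', hs⟩ : ∃ l', ψ.X.R (Sum.inl l') (Sum.inl l) ∧ ¬ SF ψ.ps l l' := by
      by_contra hcon
      push Not at hcon
      exact hf (f_one_of_SF (ψ.X.R.refl _) hcon)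
    exact ⟨inn ψ l l' (ψ.X.R.symm hl'), inn_ic h _ (Or.inl hs), inn_del _ _ _ _⟩

/-- an arc family with less arcs than the maximal number can be extended -/
theorem ic_exists_ext {ψ : Cfg B P k} (h : IC β X ψ)
    (hk : (k : ℤ) < (-3) * X + 2 * Nat.card P + Nat.card B) :
    ∃ ψ' : Cfg B P (k + 1), IC β X ψ' ∧ ψ'.del = ψ := by
  have h1 := ic_total h
  by_contra hcon
  have h2 : ∀ z, cx ψ z = 0 := by
    intro z
    by_contra hz
    have h3 := cx_nonneg h.val h.es z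
    exact hcon (exists_ext h (z := z) (by omega))
  have h3 : Tsm ψ.X.R (cx ψ) = 0 := by
    unfold Tsm
    simp [h2]
  linarith

end Pool.Agent.W604.FT
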