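import Mathlib
import Pool.Agent.W604.T.Ext

set_option autoImplicit false
set_option linter.unusedSectionVars false
set_option linter.unusedSimpArgs false
set_option linter.unusedVariables false

/-!
An arc family with one arc less than the maximal number has exactly two extensions.
-/

namespace Pool.Agent.W604.FT

open Equiv Pool.Agent.W604

variable {B P : Type} {k : ℕ} [DecidableEq B] [Finite B] [Finite P] {β : Perm B} {X : ℤ}

/-! ### the letters of a face -/

theorem period {ψ : Cfg B P k} {z : LL B k ⊕ P} (hf : ψ.f z = 1) {t : LL B k}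
    (ht : ψ.X.R (Sum.inl t) z) : nl ψ z = (Function.minimalPeriod (nx ψ) t : ℕ) := by
  classical
  set p := Function.minimalPeriod (nx ψ) t with hp
  have hp0 : 0 < p := by
    obtain ⟨n, hn, h⟩ := exists_pow_of_sameCycle (Perm.SameCycle.refl (ψ.ps * bar) t)
    refine Function.IsPeriodicPt.minimalPeriod_pos hn ?_
    have h5 : (nx ψ)^[n] t = ((ψ.ps * bar : Perm (LL B k)) ^ n : Perm (LL B k)) t :=
      congrFun (Perm.iterate_eq_pow (ψ.ps * bar) n) t
    exact h5.trans h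
  have h1 := (nl_le_of_closed hf ht ((Finset.range p).image (fun i => (nx ψ)^[i] t)) (by
    rw [Finset.mem_image]
    exact ⟨0, Finset.mem_range.2 hp0, rfl⟩) (by
    intro l hl
    rw [Finset.mem_image] at hl ⊢
    obtain ⟨i, hi, rfl⟩ := hl
    rw [Finset.mem_range] at hi
    by_cases h : i + 1 < p
    · exact ⟨i + 1, Finset.mem_range.2 h, Function.iterate_succ_apply' _ _ _⟩
    · have h2 : i + 1 = p := by omega
      refine ⟨0, Finset.mem_range.2 hp0, ?_⟩
      show t = nx ψ ((nx ψ)^[i] t)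
      have h5 : (nx ψ)^[i + 1] t = nx ψ ((nx ψ)^[i] t) := Function.iterate_succ_apply' (nx ψ) i t
      rw [← h5, h2, hp, Function.iterate_minimalPeriod])).1
  have h2 : ((Finset.range p).image (fun i => (nx ψ)^[i] t)).card ≤ p := by
    refine Finset.card_image_le.trans ?_
    rw [Finset.card_range]
  have h3 : (p : ℤ) ≤ nl ψ z := by
    unfold nl
    have hR : ∀ i, ψ.X.R (Sum.inl ((nx ψ)^[i] t)) z := by
      intro i
      induction i with
      | zero => exact ht
      | succ i ih =>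
        rw [Function.iterate_succ_apply']
        exact ψ.X.R.trans (nx_R ψ _) ih
    have : Nat.card (Fin p) ≤ Nat.card {l : LL B k // ψ.X.R (Sum.inl l) z} := by
      refine Nat.card_le_card_of_injective (fun i : Fin p => (⟨(nx ψ)^[(i : ℕ)] t, hR i⟩ :
        {l : LL B k // ψ.X.R (Sum.inl l) z})) ?_
      intro i j hij
      have h4 := congrArg Subtype.val hij
      apply Fin.ext
      exact Function.iterate_injOn_Iio_minimalPeriod i.2 j.2 h4
    rw [Nat.card_fin] at this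
    exact_mod_cast this
  have h4 : ((((Finset.range p).image (fun i => (nx ψ)^[i] t)).card : ℕ) : ℤ) ≤ p := by
    exact_mod_cast h2
  exact le_antisymm (h1.trans h4) h3

theorem face_one {ψ : Cfg B P k} {z : LL B k ⊕ P} (hf : ψ.f z = 1) (hn : nl ψ z = 1) {t : LL B k}
    (ht : ψ.X.R (Sum.inl t) z) : nx ψ t = t ∧ ∀ l, ψ.X.R (Sum.inl l) z → l = t := by
  have h1 := period hf ht
  rw [hn] at h1
  have h2 : Function.minimalPeriod (nx ψ) t = 1 := by exact_mod_cast h1.symm
  have h3 : (nx ψ)^[1] t = t := by rw [← h2]; exact Function.iterate_minimalPeriod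
  have h3' : nx ψ t = t := h3
  refine ⟨h3', fun l hl => ?_⟩
  have := (nl_le_of_closed hf ht {t} (by simp) (by
    intro a ha
    rw [Finset.mem_singleton] at ha
    subst ha
    rw [h3']; simp)).2 l hl
  simpa using this

theorem face_ne {ψ : Cfg B P k} {z : LL B k ⊕ P} (hf : ψ.f z = 1) {n : ℕ} (hn : nl ψ z = n)
    {t : LL B k} (ht : ψ.X.R (Sum.inl t) z) : (nx ψ)^[n] t = t ∧
      ∀ i, 0 < i → i < n → (nx ψ)^[i] t ≠ t := by
  have h1 := period hf ht
  rw [hn] at h1
  have h2 : Function.minimalPeriod (nx ψ) t = n := by exact_mod_cast h1.symm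
  refine ⟨by rw [← h2]; exact Function.iterate_minimalPeriod, fun i hi hi' h => ?_⟩
  have := Function.IsPeriodicPt.minimalPeriod_le hi (f := nx ψ) (x := t) h
  omega

theorem face_two {ψ : Cfg B P k} {z : LL B k ⊕ P} (hf : ψ.f z = 1) (hn : nl ψ z = 2) {t : LL B k}
    (ht : ψ.X.R (Sum.inl t) z) : nx ψ (nx ψ t) = t ∧ nx ψ t ≠ t ∧
      ∀ l, ψ.X.R (Sum.inl l) z → l = t ∨ l = nx ψ t := by
  obtain ⟨h1, h2⟩ := face_ne (n := 2) hf hn ht
  have h1' : nx ψ (nx ψ t) = t := h1
  refine ⟨h1', h2 1 (by norm_num) (by norm_num), fun l hl => ?_⟩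
  have := (nl_le_of_closed hf ht {t, nx ψ t} (by simp) (by
    intro a ha
    simp only [Finset.mem_insert, Finset.mem_singleton] at ha ⊢
    rcases ha with rfl | rfl
    · simp
    · left; exact h1')).2 l hl
  simpa using this

theorem face_three {ψ : Cfg B P k} {z : LL B k ⊕ P} (hf : ψ.f z = 1) (hn : nl ψ z = 3)
    {t : LL B k} (ht : ψ.X.R (Sum.inl t) z) : nx ψ (nx ψ (nx ψ t)) = t ∧ nx ψ t ≠ t ∧
      nx ψ (nx ψ t) ≠ t ∧ ∀ l, ψ.X.R (Sum.inl l) z → l = t ∨ l = nx ψ t ∨ l = nx ψ (nx ψ t) := by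
  obtain ⟨h1, h2⟩ := face_ne (n := 3) hf hn ht
  have h1' : nx ψ (nx ψ (nx ψ t)) = t := h1
  refine ⟨h1', h2 1 (by norm_num) (by norm_num), h2 2 (by norm_num) (by norm_num),
    fun l hl => ?_⟩
  have := (nl_le_of_closed hf ht {t, nx ψ t, nx ψ (nx ψ t)} (by simp) (by
    intro a ha
    simp only [Finset.mem_insert, Finset.mem_singleton] at ha ⊢
    rcases ha with rfl | rfl | rfl
    · simp
    · simp
    · left; exact h1')).2 l hl
  simpa using this

theorem face_four {ψ : Cfg B P k} {z : LL B k ⊕ P} (hf : ψ.f z = 1) (hn : nl ψ z = 4)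
    {t : LL B k} (ht : ψ.X.R (Sum.inl t) z) : nx ψ (nx ψ (nx ψ (nx ψ t))) = t ∧ nx ψ t ≠ t ∧
      nx ψ (nx ψ t) ≠ t ∧ nx ψ (nx ψ (nx ψ t)) ≠ t ∧ ∀ l, ψ.X.R (Sum.inl l) z →
        l = t ∨ l = nx ψ t ∨ l = nx ψ (nx ψ t) ∨ l = nx ψ (nx ψ (nx ψ t)) := by
  obtain ⟨h1, h2⟩ := face_ne (n := 4) hf hn ht
  have h1' : nx ψ (nx ψ (nx ψ (nx ψ t))) = t := h1
  refine ⟨h1', h2 1 (by norm_num) (by norm_num), h2 2 (by norm_num) (by norm_num),
    h2 3 (by norm_num) (by norm_num), fun l hl => ?_⟩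
  have := (nl_le_of_closed hf ht {t, nx ψ t, nx ψ (nx ψ t), nx ψ (nx ψ (nx ψ t))} (by simp) (by
    intro a ha
    simp only [Finset.mem_insert, Finset.mem_singleton] at ha ⊢
    rcases ha with rfl | rfl | rfl | rfl
    · simp
    · simp
    · simp
    · left; exact h1')).2 l hl
  simpa using this

/-! ### a configuration is determined by the small class -/

theorem spl_unique (X' : SX (LL B (k + 1) ⊕ P)) {v : LL B k} {T : Set (LL B k ⊕ P)}
    (hT : ∀ y, y ∈ T ↔ X'.R (JJ y) (Sum.inl z0)) (h10 : ¬ X'.R (Sum.inl z1) (Sum.inl z0))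
    (hx : X'.x (Sum.inl z0) = 1) (hv : X'.R (Sum.inl (j0 v)) (Sum.inl z1)) :
    X' = ((X'.mg (Sum.inl z1) (Sum.inl z0)).comap JJ).spl (rhl v) (SS T) := by
  have hS : ∀ a : LL B (k + 1) ⊕ P, a ∈ SS T ↔ X'.R a (Sum.inl z0) := by
    intro a
    rcases a with l | p
    · rcases j0_cases l with ⟨ε, rfl⟩ | ⟨l, rfl⟩
      · cases ε
        · exact ⟨fun _ => X'.R.refl _, fun _ => z0_SS T⟩
        · exact ⟨fun h => absurd h (z1_SS T), fun h => absurd h h10⟩
      · rw [j0_SS, hT]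
        rfl
    · have : (Sum.inr p : LL B (k + 1) ⊕ P) = JJ (Sum.inr p) := rfl
      rw [this, JJ_SS, hT]
  have hr : ∀ a : LL B (k + 1) ⊕ P, a ∉ SS T → X'.R a (JJ (rhl v a)) := by
    intro a ha
    rcases a with l | p
    · rcases j0_cases l with ⟨ε, rfl⟩ | ⟨l, rfl⟩
      · cases ε
        · exact absurd (z0_SS T) ha
        · exact X'.R.symm hv
      · rw [rhl_j0]
        exact X'.R.refl _
    · exact X'.R.refl _
  have hM : ∀ a, a ∉ SS T → ((X'.R a (Sum.inl z1) ∨ X'.R a (Sum.inl z0)) ↔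
      X'.R a (Sum.inl z1)) := by
    intro a ha
    rw [hS] at ha
    exact ⟨fun h => h.resolve_right ha, Or.inl⟩
  refine SX.ext' (fun a b => ?_) (fun a => ?_)
  · rw [SX.spl_R]
    by_cases ha : a ∈ SS T
    · by_cases hb : b ∈ SS T
      · exact ⟨fun _ => Or.inl ⟨ha, hb⟩,
          fun _ => X'.R.trans ((hS a).1 ha) (X'.R.symm ((hS b).1 hb))⟩
      · constructor
        · intro h
          exact absurd ((hS b).2 (X'.R.trans (X'.R.symm h) ((hS a).1 ha))) hb
        · rintro (⟨_, h⟩ | ⟨h, _, _⟩)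
          · exact absurd h hb
          · exact absurd ha h
    · by_cases hb : b ∈ SS T
      · constructor
        · intro h
          exact absurd ((hS a).2 (X'.R.trans h ((hS b).1 hb))) ha
        · rintro (⟨h, _⟩ | ⟨_, h, _⟩)
          · exact absurd h ha
          · exact absurd hb h
      · rw [SX.comap_R, SX.mg_R]
        constructor
        · intro h
          refine Or.inr ⟨ha, hb, mgR_of ?_⟩
          exact X'.R.trans (X'.R.symm (hr a ha)) (X'.R.trans h (hr b hb))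
        · rintro (⟨h, _⟩ | ⟨_, _, h⟩)
          · exact absurd h ha
          · have h2 : mgR X'.R (Sum.inl z1) (Sum.inl z0) a b :=
              (mgR _ _ _).trans (mgR_of (hr a ha)) ((mgR _ _ _).trans h
                ((mgR _ _ _).symm (mgR_of (hr b hb))))
            rcases h2 with h2 | ⟨h2, h3⟩
            · exact h2
            · exact X'.R.trans ((hM a ha).1 h2) (X'.R.symm ((hM b hb).1 h3))
  · by_cases ha : a ∈ SS T
    · rw [SX.spl_x_of ha, X'.hx _ _ ((hS a).1 ha), hx]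
    · rw [SX.spl_x_of_not ha, SX.comap_x]
      have h2 : (X'.mg (Sum.inl z1) (Sum.inl z0)).x (JJ (rhl v a)) =
          (X'.mg (Sum.inl z1) (Sum.inl z0)).x a :=
        (X'.mg (Sum.inl z1) (Sum.inl z0)).hx _ _ (mgR_of (X'.R.symm (hr a ha)))
      rw [h2]
      by_cases h3 : X'.R a (Sum.inl z1)
      · rw [SX.mg_x_of' (Or.inl h3) h10, hx, X'.hx _ _ h3]
        ring
      · rw [SX.mg_x_of_not (fun h => h3 ((hM a ha).1 h))]

theorem eq_sep {ψ' : Cfg B P (k + 1)} {A C : LL B k} {T : Set (LL B k ⊕ P)}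
    (hps : ψ'.ps = IF ψ'.del.ps A C)
    (hT : ∀ y, y ∈ T ↔ ψ'.X.R (JJ y) (Sum.inl z0)) (h10 : ¬ ψ'.In)
    (hx : ψ'.X.x (Sum.inl z0) = 1)
    (H : ∀ l : LL B (k + 1), (ψ'.del.X.spl (rhl C) (SS T)).R
      (Sum.inl ((IF ψ'.del.ps A C * bar : Perm (LL B (k + 1))) l)) (Sum.inl l)) :
    ψ' = sep ψ'.del A C C T H := by
  refine Cfg.ext' hps ?_
  apply spl_unique ψ'.X hT h10 hx
  have h1 := ψ'.hR (j0 C)
  have h2 : (ψ'.ps * bar : Perm (LL B (k + 1))) (j0 C) = z1 := by
    rw [hps]; exact F_C _ _ _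
  rw [h2] at h1
  exact ψ'.X.R.symm h1

end Pool.Agent.W604.FT
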