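import Mathlib
import Pool.Agent.W604.T.Two

set_option autoImplicit false
set_option linter.unusedSectionVars false
set_option linter.unusedSimpArgs false
set_option linter.unusedVariables false

/-!
An arc family with one arc less than the maximal number has exactly two extensions.
-/

namespace Pool.Agent.W604.FT

open Equiv Pool.Agent.W604

variable {B P : Type} {k : ℕ} [DecidableEq B] [Finite B] [Finite P] {β : Perm B} {X : ℤ}

/-! ### the orientation of the first chord -/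

/-- exchange of the ends of the first chord only -/
def e0 : Fin (k + 1) → Bool := fun i => decide (i = 0)

/-- the other orientation of the first chord -/
def fl (ψ : Cfg B P (k + 1)) : Cfg B P (k + 1) := ψ.act 1 e0

theorem W0_j0 (l : LL B k) : W 1 e0 (j0 l) = (j0 l : LL B (k + 1)) := by
  rcases l with b | ⟨i, ε⟩
  · rfl
  · simp only [j0, W_inr, Perm.one_apply]
    have : (e0 (i.succ) : Bool) = false := by
      unfold e0
      rw [decide_eq_false_iff_not]
      exact Fin.succ_ne_zero _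
    rw [this]
    simp

theorem W0_z (ε : Bool) : W 1 e0 (Sum.inr (0, ε)) = (Sum.inr (0, !ε) : LL B (k + 1)) := by
  rw [W_inr]
  have : (e0 (0 : Fin (k + 1)) : Bool) = true := by
    unfold e0
    simp
  rw [this]
  simp

theorem fl_fl (ψ : Cfg B P (k + 1)) : fl (fl ψ) = ψ := by
  unfold fl
  have h := (CS B P).act_act 1 1 e0 e0 ψ
  refine h.trans ?_
  have h2 := (CS B P).act_one ψ
  refine Eq.trans ?_ h2
  rw [one_mul]
  congr 1
  funext i
  simp

theorem fl_del (ψ : Cfg B P (k + 1)) : (fl ψ).del = ψ.del := by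
  have h := (CS B P).d_act 1 e0 ψ
  have h2 : lp (1 : Perm (Fin k)) = 1 := by
    apply Equiv.ext
    intro i
    refine Fin.cases ?_ (fun i => ?_) i
    · simp
    · simp
  rw [h2] at h
  refine h.trans ?_
  have h3 : (fun i : Fin k => (e0 i.succ : Bool)) = fun _ => false := by
    funext i
    unfold e0
    rw [decide_eq_false_iff_not]
    exact Fin.succ_ne_zero _
  rw [h3]
  exact (CS B P).act_one _

theorem fl_ic {ψ : Cfg B P (k + 1)} : IC β X (fl ψ) ↔ IC β X ψ := ic_act 1 e0 ψ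

theorem fl_nx (ψ : Cfg B P (k + 1)) (l : LL B (k + 1)) :
    nx (fl ψ) (W 1 e0 l) = W 1 e0 (nx ψ l) := by
  show (Pool.Agent.W604.act 1 e0 ψ.ps * bar : Perm _) (W 1 e0 l) = _
  rw [act_mul_bar]
  unfold Pool.Agent.W604.act
  simp
  rfl

theorem fl_R (ψ : Cfg B P (k + 1)) (a b : LL B (k + 1) ⊕ P) :
    (fl ψ).X.R (WZ P 1 e0 a) (WZ P 1 e0 b) ↔ ψ.X.R a b := ψ.act_R 1 e0 a b

theorem fl_np (ψ : Cfg B P (k + 1)) (ε : Bool) :
    np (fl ψ) (Sum.inl (Sum.inr (0, ε))) = np ψ (Sum.inl (Sum.inr (0, !ε))) := by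
  unfold np
  congr 1
  refine Nat.card_congr (Equiv.subtypeEquivRight fun p => ?_)
  have h := fl_R ψ (Sum.inr p) (Sum.inl (Sum.inr (0, !ε)))
  rw [WZ_inr, WZ_inl, W0_z, Bool.not_not] at h
  exact h

/-! ### extensions to a maximal family -/

/-- all regions are triangles or once punctured monogons -/
def Fl (β : Perm B) (X : ℤ) (ψ : Cfg B P (k + 1)) : Prop := IC β X ψ ∧ ∀ z, cx ψ z = 0

theorem full_of_total {ψ : Cfg B P k} (h : IC β X ψ)
    (hk : (k : ℤ) = (-3) * X + 2 * Nat.card P + Nat.card B) (z : LL B k ⊕ P) : cx ψ z = 0 := by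
  have h1 := ic_total h
  have h2 := Tsm_ge ψ.X.R (cx_CF ψ) (fun z => cx_nonneg h.val h.es z) z
  have h3 := cx_nonneg h.val h.es z
  linarith

theorem Fl.f_one {ψ : Cfg B P (k + 1)} (h : Fl β X ψ) (l : LL B (k + 1)) :
    ψ.f (Sum.inl l) = 1 := by
  obtain ⟨g, hg⟩ := h.1.val.genus l
  have h1 := (cx_zero h.1.val h.1.es (h.2 (Sum.inl l))).1
  have h2 := ψ.f_pos l
  have h3 : (0 : ℤ) ≤ g := Int.natCast_nonneg g
  omega

theorem nx_z {ψ : Cfg B P (k + 1)} (ε : Bool) :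
    nx ψ (Sum.inr (0, ε)) = ψ.ps (Sum.inr (0, !ε)) := by
  show (ψ.ps * bar : Perm _) _ = _
  rw [Perm.mul_apply, bar_inr]

theorem nx_ne {ψ : Cfg B P (k + 1)} (h : Good ψ.ps) (ε : Bool) :
    nx ψ (Sum.inr (0, ε)) ≠ Sum.inr (0, !ε) := by
  rw [nx_z]
  exact good_z h _

theorem Fl.not_in {ψ : Cfg B P (k + 1)} (h : Fl β X ψ) : ¬ ψ.In := by
  intro hI
  have hg := h.1.val.good
  obtain ⟨hx, h1⟩ := cx_zero h.1.val h.1.es (h.2 (Sum.inl z1))
  have hf := h.f_one z1
  rcases h1 with ⟨_, h1⟩ | ⟨_, h1⟩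
  · obtain ⟨a1, a2, a3, a4⟩ := face_three hf h1 (ψ.X.R.refl _)
    rcases a4 z0 (ψ.X.R.symm hI) with h2 | h2 | h2
    · simp at h2
    · exact nx_ne hg true h2.symm
    · rw [← h2] at a1
      exact nx_ne hg false a1
  · have := (face_one hf h1 (ψ.X.R.refl _)).2 z0 (ψ.X.R.symm hI)
    simp at this

theorem Fl.fl {ψ : Cfg B P (k + 1)} (h : Fl β X ψ) : Fl β X (fl ψ) := by
  refine ⟨fl_ic.2 h.1, full_of_total (fl_ic.2 h.1) ?_⟩
  have h1 := ic_total h.1
  have h2 : Tsm ψ.X.R (cx ψ) = 0 := by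
    unfold Tsm
    simp [h.2]
  linarith

/-- the letters of the first chord are followed by other letters -/
theorem Fl.cases {ψ : Cfg B P (k + 1)} (h : Fl β X ψ) (ε : Bool) :
    (nx ψ (Sum.inr (0, ε)) = Sum.inr (0, ε) ∧ np ψ (Sum.inl (Sum.inr (0, ε))) = 1 ∧
      ∀ l, ψ.X.R (Sum.inl l) (Sum.inl (Sum.inr (0, ε))) → l = Sum.inr (0, ε)) ∨
    (np ψ (Sum.inl (Sum.inr (0, ε))) = 0 ∧ ∃ u v : LL B k, nx ψ (Sum.inr (0, ε)) = j0 u ∧
      nx ψ (j0 u) = j0 v ∧ nx ψ (j0 v) = Sum.inr (0, ε) ∧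
      ∀ l, ψ.X.R (Sum.inl l) (Sum.inl (Sum.inr (0, ε))) →
        l = Sum.inr (0, ε) ∨ l = j0 u ∨ l = j0 v) := by
  have hn := h.not_in
  have hne : ¬ ψ.X.R (Sum.inl (Sum.inr (0, !ε))) (Sum.inl (Sum.inr (0, ε))) := by
    intro h'
    cases ε
    · exact hn h'
    · exact hn (ψ.X.R.symm h')
  have hj : ∀ l : LL B (k + 1), ψ.X.R (Sum.inl l) (Sum.inl (Sum.inr (0, ε))) →
      l ≠ Sum.inr (0, ε) → ∃ u, l = j0 u := by
    intro l hl hl'
    rcases j0_cases l with ⟨ε', rfl⟩ | h'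
    · exfalso
      by_cases he : ε' = ε
      · exact hl' (by rw [he])
      · have : ε' = !ε := by cases ε <;> cases ε' <;> simp_all
        rw [this] at hl
        exact hne hl
    · exact h'
  have hf := h.f_one (Sum.inr (0, ε))
  obtain ⟨hx, h1⟩ := cx_zero h.1.val h.1.es (h.2 (Sum.inl (Sum.inr (0, ε))))
  rcases h1 with ⟨h1, h2⟩ | ⟨h1, h2⟩
  · right
    obtain ⟨a1, a2, a3, a4⟩ := face_three hf h2 (ψ.X.R.refl _)
    have r1 := nx_R ψ (Sum.inr (0, ε))
    have r2 := ψ.X.R.trans (nx_R ψ (nx ψ (Sum.inr (0, ε)))) r1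
    obtain ⟨u, hu⟩ := hj _ r1 a2
    obtain ⟨v, hv⟩ := hj _ r2 a3
    refine ⟨h1, u, v, hu, ?_, ?_, ?_⟩
    · rw [← hu, hv]
    · rw [← hv, a1]
    · intro l hl
      rw [← hv, ← hu]
      exact a4 l hl
  · left
    obtain ⟨a1, a2⟩ := face_one hf h2 (ψ.X.R.refl _)
    exact ⟨a1, h1, a2⟩

/-- the case of a once punctured monogon -/
theorem Fl.eq_mono {ψ : Cfg B P (k + 1)} (h : Fl β X ψ)
    (h0 : np ψ (Sum.inl z0) = 1) : ∃ C p, ψ = mono ψ.del C p ∧
      ψ.del.X.R (Sum.inr p) (Sum.inl C) ∧ nx ψ (j0 C) = z1 := by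
  have hg := h.1.val.good
  rcases h.cases false with ⟨h1, _, h2⟩ | ⟨h1, _⟩
  · have h1' : ψ.ps z1 = z0 := by rw [nx_z] at h1; exact h1
    have h01 : ψ.ps z0 ≠ z1 := by
      intro h'
      obtain ⟨n, hn⟩ := hg.ni false
      -- the cycle of `z0` consists of `z0` and `z1`
      have hS : ∀ m : ℕ, (ψ.ps ^ m) z0 = z0 ∨ (ψ.ps ^ m) z0 = z1 := by
        intro m
        induction m with
        | zero => left; rfl
        | succ m ih =>
          rw [pow_succ', Perm.mul_apply]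
          rcases ih with ih | ih
          · rw [ih]; right; exact h'
          · rw [ih]; left; exact h1'
      obtain ⟨m, hm⟩ := exists_pow_sc hn
      rcases hS m with h3 | h3
      · rw [hm] at h3
        exact j0_ne_z _ _ h3
      · rw [hm] at h3
        exact j0_ne_z _ _ h3
    obtain ⟨A, C, hps⟩ := exists_IF hg h01
    have hAC : A = C := by
      by_contra hAC
      have h3 : nx ψ z0 = j0 ((d ψ.ps * bar : Perm (LL B k)) C) := by
        show (ψ.ps * bar : Perm _) z0 = _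
        conv_lhs => rw [hps]
        exact F_z0 _ hAC
      rw [h1] at h3
      exact j0_ne_z _ _ h3.symm
    subst hAC
    obtain ⟨p, hp⟩ : ∃ p, ψ.X.R (Sum.inr p) (Sum.inl z0) := by
      by_contra hcon
      have := (np_zero_iff ψ (Sum.inl z0)).2 hcon
      rw [h0] at this
      norm_num at this
    have huniq : ∀ q, ψ.X.R (Sum.inr q) (Sum.inl z0) → q = p := by
      intro q hq
      have h3 : Nat.card {q // ψ.X.R (Sum.inr q) (Sum.inl z0)} = 1 := by
        unfold np at h0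
        exact_mod_cast h0
      rw [Nat.card_eq_one_iff_unique] at h3
      have := h3.1.elim ⟨q, hq⟩ ⟨p, hp⟩
      exact congrArg Subtype.val this
    have hC : nx ψ (j0 A) = z1 := by
      show (ψ.ps * bar : Perm _) (j0 A) = _
      rw [hps]
      exact F_C _ _ _
    refine ⟨A, p, ?_, ?_, hC⟩
    · refine eq_sep hps ?_ h.not_in (cx_zero h.1.val h.1.es (h.2 (Sum.inl z0))).1
        (mono_H ψ.del A p)
      intro y
      rw [Set.mem_singleton_iff]
      constructor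
      · rintro rfl; exact hp
      · intro hy
        rcases y with l | q
        · have := h2 _ hy
          exact absurd this (j0_ne_z _ _)
        · rw [huniq q hy]
    · have h3 : ψ.M (JJ (Sum.inl A)) := by
        left
        have := nx_R ψ (j0 A)
        rw [hC] at this
        exact ψ.X.R.symm this
      exact (del_R_of h3 _).2 (Or.inr hp)
  · rw [h1] at h0
    norm_num at h0

/-- the case of two triangles -/
theorem Fl.eq_ear {ψ : Cfg B P (k + 1)} (h : Fl β X ψ)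
    (h0 : np ψ (Sum.inl z0) = 0) (h1 : np ψ (Sum.inl z1) = 0) :
    ∃ (t : LL B k) (g1 : nx ψ.del t ≠ t) (g2 : nx ψ.del (nx ψ.del t) ≠ t),
      ψ = ear ψ.del t g1 g2 ∧ nx ψ (j0 t) = z1 ∧ ψ.M (JJ (Sum.inl t)) := by
  have hg := h.1.val.good
  rcases h.cases false with ⟨_, h2, _⟩ | ⟨_, u, w, a1, a2, a3, a4⟩
  · rw [h0] at h2; norm_num at h2
  rcases h.cases true with ⟨_, h2, _⟩ | ⟨_, u', w', b1, b2, b3, b4⟩
  · rw [h1] at h2; norm_num at h2
  have h01 : ψ.ps z0 ≠ z1 := by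
    have := nx_z (ψ := ψ) true
    rw [b1] at this
    have h3 : ψ.ps z0 = j0 u' := this.symm
    rw [h3]
    exact j0_ne_z _ _
  obtain ⟨A, C, hps⟩ := exists_IF hg h01
  have hnx : ∀ l, nx ψ l = (IF (d ψ.ps) A C * bar : Perm _) l := by
    intro l
    show (ψ.ps * bar : Perm _) l = _
    rw [← hps]
  have hAC : A ≠ C := by
    rintro rfl
    have h3 : nx ψ z0 = z0 := by rw [hnx]; exact F_z0' _
    rw [a1] at h3
    exact j0_ne_z _ _ h3
  have e1 : u = nx ψ.del C := by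
    have h3 : nx ψ z0 = j0 (nx ψ.del C) := by rw [hnx]; exact F_z0 _ hAC
    rw [a1] at h3
    exact j0_inj h3
  have hC : nx ψ (j0 C) = z1 := by rw [hnx]; exact F_C _ _ _
  have hA : nx ψ (j0 A) = z0 := by rw [hnx]; exact F_A _ hAC
  have huC : u ≠ C := by
    rintro rfl
    rw [a2] at hC
    exact j0_ne_z _ _ hC
  have huA : u ≠ A := by
    rintro rfl
    rw [a2] at hA
    exact j0_ne_z _ _ hA
  have e2 : w = nx ψ.del u := by
    have h3 : nx ψ (j0 u) = j0 (nx ψ.del u) := by rw [hnx]; exact F_of _ huA huC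
    rw [a2] at h3
    exact j0_inj h3
  have e3 : w = A := by
    apply j0_inj
    apply nx_inj ψ
    rw [a3, hA]
  have g1 : nx ψ.del C ≠ C := by rw [← e1]; exact huC
  have g2 : nx ψ.del (nx ψ.del C) ≠ C := by rw [← e1, ← e2, e3]; exact hAC
  refine ⟨C, g1, g2, ?_, hC, ?_⟩
  · have hA' : A = nx ψ.del (nx ψ.del C) := by rw [← e1, ← e2, e3]
    subst hA'
    refine eq_sep hps ?_ h.not_in (cx_zero h.1.val h.1.es (h.2 (Sum.inl z0))).1
      (ear_H ψ.del g1 g2)
    intro y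
    constructor
    · rintro (rfl | h3)
      · rw [← e1]
        have := nx_R ψ z0
        rw [a1] at this
        exact this
      · obtain rfl : y = Sum.inl (nx ψ.del (nx ψ.del C)) := h3
        rw [← e3]
        have := nx_R ψ (j0 w)
        rw [a3] at this
        exact ψ.X.R.symm this
    · intro hy
      rcases y with l | q
      · rcases a4 _ hy with h3 | h3 | h3
        · exact absurd h3 (j0_ne_z _ _)
        · left
          rw [j0_inj h3, e1]
        · right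
          show (Sum.inl l : LL B k ⊕ P) = _
          rw [j0_inj h3, e3]
      · exfalso
        exact (np_zero_iff ψ (Sum.inl z0)).1 h0 ⟨q, hy⟩
  · left
    have := nx_R ψ (j0 C)
    rw [hC] at this
    exact ψ.X.R.symm this

theorem fl_nx_z (ψ : Cfg B P (k + 1)) (ε : Bool) :
    nx (fl ψ) (Sum.inr (0, ε)) = W 1 e0 (nx ψ (Sum.inr (0, !ε))) := by
  have := fl_nx ψ (Sum.inr (0, !ε))
  rw [W0_z, Bool.not_not] at this
  exact this

theorem fl_nx_j (ψ : Cfg B P (k + 1)) (l : LL B k) :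
    nx (fl ψ) (j0 l) = W 1 e0 (nx ψ (j0 l)) := by
  have := fl_nx ψ (j0 l)
  rw [W0_j0] at this
  exact this

theorem mono_nx_C (ψ : Cfg B P k) (C : LL B k) (p : P) : nx (mono ψ C p) (j0 C) = z1 :=
  F_C _ _ _

theorem mono_nx_z0 (ψ : Cfg B P k) (C : LL B k) (p : P) : nx (mono ψ C p) z0 = z0 :=
  F_z0' _

theorem mono_nx_z1 (ψ : Cfg B P k) (C : LL B k) (p : P) :
    nx (mono ψ C p) z1 = j0 (nx ψ C) := F_z1 _ _ _

theorem ear_nx_t (ψ : Cfg B P k) {t : LL B k} (h1 : nx ψ t ≠ t) (h2 : nx ψ (nx ψ t) ≠ t) :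
    nx (ear ψ t h1 h2) (j0 t) = z1 := F_C _ _ _

theorem ear_nx_tt (ψ : Cfg B P k) {t : LL B k} (h1 : nx ψ t ≠ t) (h2 : nx ψ (nx ψ t) ≠ t) :
    nx (ear ψ t h1 h2) (j0 (nx ψ (nx ψ t))) = z0 := F_A _ h2

/-- There are exactly two extensions of a family with one arc less than the maximal number (up to
the orientation of the new arc). -/
theorem two_ext {ψ : Cfg B P k} (h : IC β X ψ)
    (hk : (k : ℤ) + 1 = (-3) * X + 2 * Nat.card P + Nat.card B) :
    ∃ ψ1 ψ2 : Cfg B P (k + 1), (IC β X ψ1 ∧ ψ1.del = ψ) ∧ (IC β X ψ2 ∧ ψ2.del = ψ) ∧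
      ψ1 ≠ ψ2 ∧ fl ψ1 ≠ ψ2 ∧ ∀ ψ', IC β X ψ' → ψ'.del = ψ →
        ψ' = ψ1 ∨ ψ' = fl ψ1 ∨ ψ' = ψ2 ∨ ψ' = fl ψ2 := by
  classical
  have hfull : ∀ ψ' : Cfg B P (k + 1), IC β X ψ' → Fl β X ψ' := fun ψ' h' =>
    ⟨h', full_of_total h' (by push_cast; exact hk)⟩
  have htot := ic_total h
  have hone : ∀ z, cx ψ z ≤ 1 := by
    intro z
    have h2 := Tsm_ge ψ.X.R (cx_CF ψ) (fun z => cx_nonneg h.val h.es z) z
    linarith
  -- the region with complexity one
  obtain ⟨z, hz⟩ : ∃ z, cx ψ z = 1 := by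
    by_contra hcon
    push Not at hcon
    have h2 : ∀ z, cx ψ z = 0 := by
      intro z
      have h3 := cx_nonneg h.val h.es z
      have h4 := hone z
      have h5 := hcon z
      omega
    have h3 : Tsm ψ.X.R (cx ψ) = 0 := by
      unfold Tsm
      simp [h2]
    linarith
  obtain ⟨a, ha⟩ := valid_letter h.val z
  rw [← cx_CF ψ _ _ ha] at hz
  clear ha z
  -- other regions
  have hother : ∀ y, cx ψ y = 1 → ψ.X.R y (Sum.inl a) := by
    intro y hy
    by_contra hne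
    have hw0 : CF ψ.X.R (fun x => if ψ.X.R x (Sum.inl a) then 0 else cx ψ x) := by
      intro x x' hx
      have : ψ.X.R x (Sum.inl a) ↔ ψ.X.R x' (Sum.inl a) :=
        ⟨fun h => ψ.X.R.trans (ψ.X.R.symm hx) h, fun h => ψ.X.R.trans hx h⟩
      simp only [this, cx_CF ψ x x' hx]
    have h1 := Tsm_upd ψ.X.R (Sum.inl a) hw0 (cx_CF ψ) (fun x hx => by simp [hx])
    have h2 := Tsm_ge ψ.X.R hw0 (fun x => by
      split_ifs
      · exact le_refl _
      · exact cx_nonneg h.val h.es x) y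
    rw [if_neg hne, hy] at h2
    rw [if_pos (ψ.X.R.refl _), hz] at h1
    linarith
  have hM : ∀ ψ' : Cfg B P (k + 1), Fl β X ψ' → ψ'.del = ψ → ∀ y, ψ'.M (JJ y) →
      ψ.X.R y (Sum.inl a) := by
    intro ψ' h' hd y hy
    apply hother
    have := cx_del_of hy h'.not_in
    rw [h'.2, h'.2, hd] at this
    linarith
  have hMa : ∀ ψ' : Cfg B P (k + 1), Fl β X ψ' → ψ'.del = ψ → ψ'.M (JJ (Sum.inl a)) := by
    intro ψ' h' hd
    by_contra hne
    have := cx_del_of_not hne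
    rw [h'.2, hd, hz] at this
    norm_num at this
  have hnp : ∀ ψ' : Cfg B P (k + 1), Fl β X ψ' → ψ'.del = ψ →
      np ψ' (Sum.inl z1) + np ψ' (Sum.inl z0) = np ψ (Sum.inl a) := by
    intro ψ' h' hd
    have := np_del_of (hMa ψ' h' hd) h'.not_in
    rw [hd] at this
    exact this
  obtain ⟨hx, hcase⟩ := cx_one h.val h.es hz
  have hf : ψ.f (Sum.inl a) = 1 := by
    obtain ⟨g, hg⟩ := h.val.genus a
    have h2 := ψ.f_pos a
    have h3 : (0 : ℤ) ≤ g := Int.natCast_nonneg g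
    omega
  rcases hcase with ⟨hp, hn⟩ | ⟨hp, hn⟩
  · -- quadrilateral
    have hear : ∀ ψ' : Cfg B P (k + 1), Fl β X ψ' → ψ'.del = ψ →
        ∃ (t : LL B k) (g1 : nx ψ t ≠ t) (g2 : nx ψ (nx ψ t) ≠ t),
          ψ' = ear ψ t g1 g2 ∧ nx ψ' (j0 t) = z1 ∧ ψ.X.R (Sum.inl t) (Sum.inl a) := by
      intro ψ' h' hd
      have h2 := hnp ψ' h' hd
      rw [hp] at h2
      have h3 := np_nonneg ψ' (Sum.inl z1)
      have h4 := np_nonneg ψ' (Sum.inl z0)
      obtain ⟨t, g1, g2, e1, e2, e3⟩ := h'.eq_ear (by linarith) (by linarith)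
      have e4 := hM ψ' h' hd _ e3
      subst hd
      exact ⟨t, g1, g2, e1, e2, e4⟩
    obtain ⟨f1, f2, f3, f4, f5⟩ := face_four hf hn (ψ.X.R.refl _)
    have Ra := nx_R ψ a
    have hna : nl ψ (Sum.inl (nx ψ a)) = 4 := by rw [nl_CF ψ _ _ Ra]; exact hn
    have hfa : ψ.f (Sum.inl (nx ψ a)) = 1 := by rw [ψ.f_CF _ _ Ra]; exact hf
    obtain ⟨_, f2', f3', _⟩ := face_four hfa hna (ψ.X.R.refl _)
    have h1 := ear_ic f2 f3 h hn.ge
    have h2 := ear_ic f2' f3' h hna.ge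
    have hfl : ∀ (t : LL B k) (g1 : nx ψ t ≠ t) (g2 : nx ψ (nx ψ t) ≠ t)
        (g1' : nx ψ (nx ψ (nx ψ t)) ≠ nx ψ (nx ψ t))
        (g2' : nx ψ (nx ψ (nx ψ (nx ψ t))) ≠ nx ψ (nx ψ t)), nl ψ (Sum.inl t) = 4 →
        fl (ear ψ t g1 g2) = ear ψ (nx ψ (nx ψ t)) g1' g2' := by
      intro t g1 g2 g1' g2' ht
      have h3 := ear_ic g1 g2 h ht.ge
      obtain ⟨t', k1, k2, e1, e2, _⟩ := hear _ (hfull _ h3).fl (by rw [fl_del, ear_del])
      have e3 : nx (fl (ear ψ t g1 g2)) (j0 (nx ψ (nx ψ t))) = z1 := by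
        rw [fl_nx_j, ear_nx_tt, W0_z]
        rfl
      have e4 : t' = nx ψ (nx ψ t) := j0_inj (nx_inj _ (e2.trans e3.symm))
      subst e4
      exact e1
    refine ⟨ear ψ a f2 f3, ear ψ (nx ψ a) f2' f3', ⟨h1, ear_del _ _⟩, ⟨h2, ear_del _ _⟩, ?_, ?_,
      ?_⟩
    · intro he
      have e1 := ear_nx_t ψ f2 f3
      have e2 := ear_nx_t ψ f2' f3'
      rw [he] at e1
      exact f2 (j0_inj (nx_inj _ (e2.trans e1.symm)))
    · intro he
      have e1 : nx (fl (ear ψ a f2 f3)) (j0 (nx ψ (nx ψ a))) = z1 := by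
        rw [fl_nx_j, ear_nx_tt, W0_z]
        rfl
      have e2 := ear_nx_t ψ f2' f3'
      rw [he] at e1
      have e3 : nx ψ a = nx ψ (nx ψ a) := j0_inj (nx_inj _ (e2.trans e1.symm))
      exact f2 (nx_inj ψ e3).symm
    · intro ψ' h' hd
      obtain ⟨t, g1, g2, e1, _, e2⟩ := hear ψ' (hfull _ h') hd
      rcases f5 t e2 with rfl | rfl | rfl | rfl
      · left; exact e1
      · right; right; left; exact e1
      · right; left
        rw [hfl a f2 f3 g1 g2 hn]
        exact e1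
      · right; right; right
        rw [hfl (nx ψ a) f2' f3' g1 g2 hna]
        exact e1
  · -- once punctured bigon
    obtain ⟨p, hpa⟩ : ψ.Pu (Sum.inl a) := by
      by_contra hcon
      rw [(np_zero_iff ψ _).2 hcon] at hp
      norm_num at hp
    have hpu : ∀ q, ψ.X.R (Sum.inr q) (Sum.inl a) → q = p := by
      intro q hq
      have h3 : Nat.card {q // ψ.X.R (Sum.inr q) (Sum.inl a)} = 1 := by
        unfold np at hp
        exact_mod_cast hp
      rw [Nat.card_eq_one_iff_unique] at h3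
      exact congrArg Subtype.val (h3.1.elim ⟨q, hq⟩ ⟨p, hpa⟩)
    obtain ⟨f1, f2, f3⟩ := face_two hf hn (ψ.X.R.refl _)
    have Ra := nx_R ψ a
    have hpb : ψ.X.R (Sum.inr p) (Sum.inl (nx ψ a)) := ψ.X.R.trans hpa (ψ.X.R.symm Ra)
    have hzb : cx ψ (Sum.inl (nx ψ a)) = 1 := by rw [cx_CF ψ _ _ Ra]; exact hz
    have h1 := mono_ic h hpa hz.ge
    have h2 := mono_ic h hpb hzb.ge
    have hmono : ∀ ψ' : Cfg B P (k + 1), Fl β X ψ' → ψ'.del = ψ → np ψ' (Sum.inl z0) = 1 →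
        ψ' = mono ψ a p ∨ ψ' = mono ψ (nx ψ a) p := by
      intro ψ' h' hd h0
      obtain ⟨C, q, e1, e2, e3⟩ := h'.eq_mono h0
      have e4 : ψ'.M (JJ (Sum.inl C)) := by
        left
        have := nx_R ψ' (j0 C)
        rw [e3] at this
        exact ψ'.X.R.symm this
      have e5 := hM ψ' h' hd _ e4
      rw [hd] at e1 e2
      have e6 := hpu q (ψ.X.R.trans e2 e5)
      subst e6
      rcases f3 C e5 with rfl | rfl
      · exact Or.inl e1
      · exact Or.inr e1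
    refine ⟨mono ψ a p, mono ψ (nx ψ a) p, ⟨h1, mono_del hpa⟩, ⟨h2, mono_del hpb⟩, ?_, ?_, ?_⟩
    · intro he
      have e1 := mono_nx_C ψ a p
      have e2 := mono_nx_C ψ (nx ψ a) p
      rw [he] at e1
      exact f2 (j0_inj (nx_inj _ (e2.trans e1.symm)))
    · intro he
      have e1 := mono_nx_z0 ψ (nx ψ a) p
      rw [← he, fl_nx_z] at e1
      have e2 : nx (mono ψ a p) (Sum.inr (0, !false)) = j0 (nx ψ a) := mono_nx_z1 ψ a p
      rw [e2, W0_j0] at e1
      exact j0_ne_z _ _ e1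
    · intro ψ' h' hd
      have hF := hfull _ h'
      have h3 := hnp ψ' hF hd
      rw [hp] at h3
      have h4 := np_nonneg ψ' (Sum.inl z1)
      have h5 := np_nonneg ψ' (Sum.inl z0)
      by_cases h6 : np ψ' (Sum.inl z0) = 1
      · rcases hmono ψ' hF hd h6 with e | e
        · exact Or.inl e
        · exact Or.inr (Or.inr (Or.inl e))
      · have h7 : np ψ' (Sum.inl z1) = 1 := by omega
        rcases hmono (fl ψ') hF.fl (by rw [fl_del, hd]) (by rw [fl_np]; exact h7) with e | e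
        · right; left
          rw [← e, fl_fl]
        · right; right; right
          rw [← e, fl_fl]

end Pool.Agent.W604.FT
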