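import Mathlib

set_option autoImplicit false

/-!
Simplicial complexes, piecewise linear equivalence (stellar subdivisions), links, joins,
suspensions, spheres.
-/

namespace Pool.Agent.W604.FT

/-- An abstract simplicial complex with vertices in `V` (the empty simplex is a simplex). -/
structure Cx (V : Type) where
  S : Set (Finset V)
  empty_mem : ∅ ∈ S
  down : ∀ s ∈ S, ∀ t, t ⊆ s → t ∈ S

/-- Simplicial complexes with any vertex type. -/
abbrev Poly : Type 1 := Σ V : Type, Cx V

open Classical in
/-- One step: an isomorphism (an injective renaming `f` of the vertices), or a stellar subdivision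
(starring) at the nonempty simplex `a` with the new vertex `p`. -/
inductive Step : Poly → Poly → Prop
  | iso {V W : Type} (K : Cx V) (L : Cx W) (f : V → W)
      (hf : Set.InjOn f {v | {v} ∈ K.S}) (h : L.S = (fun s => s.image f) '' K.S) :
      Step ⟨V, K⟩ ⟨W, L⟩
  | star {V : Type} (K L : Cx V) (a : Finset V) (p : V) (ha : a ∈ K.S) (h0 : a.Nonempty)
      (hp : {p} ∉ K.S)
      (h : ∀ s, s ∈ L.S ↔ (s ∈ K.S ∧ ¬ a ⊆ s) ∨
        (p ∈ s ∧ s.erase p ∪ a ∈ K.S ∧ ¬ a ⊆ s.erase p)) :
      Step ⟨V, K⟩ ⟨V, L⟩

/-- Piecewise linear equivalence: the equivalence relation generated by isomorphisms and stellar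
subdivisions. -/
def PL : Poly → Poly → Prop := Relation.EqvGen Step

open Classical in
/-- The link of the vertex `v`. -/
def Cx.link {V : Type} (K : Cx V) (v : V) : Cx V where
  S := {s | s = ∅ ∨ (v ∉ s ∧ insert v s ∈ K.S)}
  empty_mem := Or.inl rfl
  down := by
    rintro s (rfl | ⟨h1, h2⟩) t ht
    · exact Or.inl (Finset.subset_empty.1 ht)
    · exact Or.inr ⟨fun h => h1 (ht h), K.down _ h2 _ (Finset.insert_subset_insert _ ht)⟩

/-- The join. -/
def Cx.join {V W : Type} (K : Cx V) (L : Cx W) : Cx (V ⊕ W) where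
  S := {s | s.toLeft ∈ K.S ∧ s.toRight ∈ L.S}
  empty_mem := ⟨K.empty_mem, L.empty_mem⟩
  down := by
    rintro s ⟨h1, h2⟩ t ht
    exact ⟨K.down _ h1 _ (Finset.toLeft_subset_toLeft ht),
      L.down _ h2 _ (Finset.toRight_subset_toRight ht)⟩

/-- The boundary of the `m`-simplex, the sphere of dimension `m - 1`. -/
def bdry (m : ℕ) : Cx (Fin (m + 1)) where
  S := {s | s ≠ Finset.univ}
  empty_mem := (Finset.univ_nonempty (α := Fin (m + 1))).ne_empty.symm
  down := by
    intro s h t ht h'
    apply h
    rw [h'] at ht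
    exact Finset.univ_subset_iff.1 ht

/-- The suspension: the join with two points. -/
def susp (K : Poly) : Poly := ⟨K.1 ⊕ Fin 2, K.2.join (bdry 1)⟩

/-- The order complex of a partially ordered set: the simplices are the finite chains. -/
def ordCx (P : Type) [PartialOrder P] : Cx P where
  S := {s | IsChain (· ≤ ·) (s : Set P)}
  empty_mem := by simp
  down := by
    intro s h t ht
    exact IsChain.mono (Finset.coe_subset.2 ht) h

/-- The description of the spaces of type `n`, given the class `One` of the arc complexes of the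
surfaces of type 1, and the class `P` of the spaces of type less than `n`:

type 0: the spheres (of dimension at least `-1`);

type 1: the spaces piecewise linearly equivalent to one in `One`;

type `n ≥ 2`: the finite complexes such that, in every complex `L` piecewise linearly equivalent to
it, the link of every vertex is piecewise linearly equivalent to an iterated suspension of `X` or of
the join of `X` and `Y`, where `X` and `Y` (nonempty) have type less than `n`. -/
def IsTy (One P : Poly → Prop) : ℕ → Poly → Prop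
  | 0, K => ∃ m, PL K ⟨_, bdry m⟩
  | 1, K => ∃ M, One M ∧ PL K M
  | _ + 2, K => K.2.S.Finite ∧ ∀ L : Poly, PL K L → ∀ v, {v} ∈ L.2.S →
      (∃ X : Poly, P X ∧ (∃ x, {x} ∈ X.2.S) ∧ ∃ i : ℕ, PL ⟨_, L.2.link v⟩ (susp^[i] X)) ∨
      (∃ X Y : Poly, P X ∧ P Y ∧ (∃ x, {x} ∈ X.2.S) ∧ (∃ y, {y} ∈ Y.2.S) ∧
        ∃ i : ℕ, PL ⟨_, L.2.link v⟩ (susp^[i] ⟨_, X.2.join Y.2⟩))

/-- The spaces of type less than `n`. -/
def TyLt (One : Poly → Prop) : ℕ → Poly → Prop
  | 0, _ => False
  | n + 1, K => TyLt One n K ∨ IsTy One (TyLt One n) n K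

/-- The spaces of type `n`. -/
def Ty (One : Poly → Prop) (n : ℕ) (K : Poly) : Prop := IsTy One (TyLt One n) n K

end Pool.Agent.W604.FT
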