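import Mathlib
import Pool.Agent.W604.Def2
import Pool.Agent.W604.T.Def1

set_option autoImplicit false

/-!
The arc complex of a surface: flags of arc families.
-/

namespace Pool.Agent.W604.FT

open Equiv Pool.Agent.W604.ArcSS

/-- `Sub D f D'`: the family `D'` is (up to orientations) the subfamily of `D` whose arc number `j`
is the arc number `f j` of `D`. It is obtained from `D` by deleting and renumbering arcs. -/
inductive Sub {F : Surf} {n : ℕ} (D : Sys F n) : ∀ {m : ℕ}, (Fin m → Fin n) → Sys F m → Prop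
  | refl : Sub D id D
  | drop {m : ℕ} (f : Fin (m + 1) → Fin n) (D' : Sys F (m + 1)) (i : Fin (m + 1))
      (h : Sub D f D') : Sub D (f ∘ i.succAbove) (D'.drop i)
  | relabel {m : ℕ} (f : Fin m → Fin n) (D' : Sys F m) (π : Perm (Fin m))
      (τ : Fin m → Perm Bool) (h : Sub D f D') : Sub D (f ∘ π.symm) (D'.relabel π τ)

/-- A flag: an arc family `D` (with `k + 1` arcs) and a chain `c` of nonempty subfamilies, the
largest of which is the whole family. -/
structure Flag (F : Surf) where
  k : ℕ
  D : Sys F (k + 1)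
  isIn : D.In
  c : Finset (Finset (Fin (k + 1)))
  chain : IsChain (· ⊆ ·) (c : Set (Finset (Fin (k + 1))))
  ne : ∀ A ∈ c, A.Nonempty
  top : Finset.univ ∈ c

theorem Sub.trans {F : Surf} {n m l : ℕ} {D : Sys F n} {D' : Sys F m} {D'' : Sys F l}
    {f : Fin m → Fin n} {g : Fin l → Fin m} (h : Sub D f D') (h' : Sub D' g D'') :
    Sub D (f ∘ g) D'' := by
  induction h' with
  | refl => exact h
  | drop g D'' i _ ih => exact Sub.drop (f ∘ g) D'' i ih
  | relabel g D'' π τ _ ih => exact Sub.relabel (f ∘ g) D'' π τ ih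

/-- A flag is smaller than another one if it is obtained from it (up to renumbering and orientations)
by taking a subchain of the chain, and the largest family of this subchain as the family. -/
instance (F : Surf) : Preorder (Flag F) where
  le x y := ∃ f : Fin (x.k + 1) → Fin (y.k + 1), Sub y.D f x.D ∧ ∀ A ∈ x.c, A.image f ∈ y.c
  le_refl x := ⟨id, Sub.refl, fun A hA => by rw [Finset.image_id]; exact hA⟩
  le_trans x y z := by
    rintro ⟨f, hf, hf'⟩ ⟨g, hg, hg'⟩
    refine ⟨g ∘ f, hg.trans hf, fun A hA => ?_⟩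
    rw [← Finset.image_image]
    exact hg' _ (hf' _ hA)

/-- The arc complex of `F`, triangulated by its second barycentric subdivision: the vertices are
the flags of arc families up to renumbering and orientations, the simplices are the chains. -/
def Arc (F : Surf) : Cx (Antisymmetrization (Flag F) (· ≤ ·)) := ordCx _

/-- The four surfaces of type 1. -/
def Type1 (F : Surf) : Prop :=
  (∀ i, F.δ i = 1) ∧ ((F.g = 1 ∧ F.s = 0 ∧ F.r = 2) ∨ (F.g = 0 ∧ F.s = 0 ∧ F.r = 4) ∨
    (F.g = 0 ∧ F.s = 1 ∧ F.r = 3) ∨ (F.g = 0 ∧ F.s = 2 ∧ F.r = 2))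

end Pool.Agent.W604.FT
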