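import Mathlib
import Pool.Agent.W604.Lem3
import Pool.Agent.W604.T.Def2

set_option autoImplicit false
set_option linter.unusedVariables false
set_option linter.unusedSectionVars false

/-!
Subfamilies: existence, uniqueness.
-/

namespace Pool.Agent.W604.FT

open Equiv Pool.Agent.W604 Pool.Agent.W604.ArcSS

variable {F : Surf} {k n m l : ℕ}

theorem toC_inj {D D' : Sys F k} (h : toC D = toC D') : D = D' := congrArg ofC h

theorem relabel_relabel (D : Sys F k) (π π' : Perm (Fin k)) (τ τ' : Fin k → Perm Bool) :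
    ∃ τ'', (D.relabel π τ).relabel π' τ' = D.relabel (π' * π) τ'' := by
  obtain ⟨τ'', h⟩ := rel_act (fun i => xor (τ i false) (τ' (π i) false))
  refine ⟨τ'', toC_inj ?_⟩
  rw [toC_relabel, toC_relabel, toC_relabel, h]
  exact (CS F.B (Fin F.s)).act_act π' π _ _ (toC D)

theorem relabel_one (D : Sys F k) : D.relabel 1 (fun _ => 1) = D := by
  apply toC_inj
  rw [toC_relabel]
  exact (CS F.B (Fin F.s)).act_one (toC D)

theorem Sub.inj {D : Sys F n} {f : Fin m → Fin n} {D' : Sys F m} (h : Sub D f D') :
    Function.Injective f := by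
  induction h with
  | refl => exact Function.injective_id
  | drop f D' i _ ih => exact ih.comp Fin.succAbove_right_injective
  | relabel f D' π τ _ ih => exact ih.comp π.symm.injective

theorem Sub.le {D : Sys F n} {f : Fin m → Fin n} {D' : Sys F m} (h : Sub D f D') : m ≤ n := by
  simpa using Fintype.card_le_of_injective f h.inj

theorem exists_factor {i : Fin (n + 1)} {g : Fin m → Fin (n + 1)} (h : i ∉ Set.range g) :
    ∃ g' : Fin m → Fin n, i.succAbove ∘ g' = g := by
  have : ∀ j, ∃ j', i.succAbove j' = g j := fun j =>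
    Fin.exists_succAbove_eq (fun h' => h ⟨j, h'⟩)
  choose g' hg' using this
  exact ⟨g', funext hg'⟩

theorem Sub.exists_sub : ∀ (n : ℕ) (D : Sys F n) (m : ℕ) (g : Fin m → Fin n),
    Function.Injective g → ∃ D', Sub D g D' := by
  intro n
  induction n with
  | zero =>
    intro D m g hg
    have : m = 0 := by simpa using Fintype.card_le_of_injective g hg
    subst this
    have hg' : g = id := by funext x; exact x.elim0
    rw [hg']
    exact ⟨D, Sub.refl⟩
  | succ n ih =>
    intro D m g hg
    by_cases hs : Function.Surjective g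
    · have hm : m = n + 1 := by
        simpa using Fintype.card_of_bijective ⟨hg, hs⟩
      subst hm
      refine ⟨D.relabel (Equiv.ofBijective g ⟨hg, hs⟩).symm (fun _ => 1), ?_⟩
      exact Sub.relabel id D (Equiv.ofBijective g ⟨hg, hs⟩).symm (fun _ => 1) Sub.refl
    · unfold Function.Surjective at hs
      push Not at hs
      obtain ⟨i, hi⟩ := hs
      obtain ⟨g', rfl⟩ := exists_factor (i := i) (g := g) (by rintro ⟨j, hj⟩; exact hi j hj)
      obtain ⟨D', hD'⟩ := ih (D.drop i) m g' (Function.Injective.of_comp hg)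
      exact ⟨D', (Sub.drop id D i Sub.refl).trans hD'⟩

/-- deletion after a relabelling that makes the arc `i` the first one -/
theorem del_act_eq (D : Sys F (k + 1)) (i : Fin (k + 1)) (σ : Perm (Fin (k + 1)))
    (e : Fin (k + 1) → Bool) (h : σ i = 0) :
    ∃ (σ' : Perm (Fin k)) (e' : Fin k → Bool), σ = lp σ' * i.cycleRange ∧
      ((toC D).act σ e).del = (toC (D.drop i)).act σ' e' := by
  obtain ⟨σ', hσ'⟩ : ∃ σ', σ * i.cycleRange⁻¹ = lp σ' := by
    apply exists_lp
    rw [Perm.mul_apply]
    have : i.cycleRange⁻¹ 0 = i := by rw [Perm.inv_eq_iff_eq, Fin.cycleRange_self]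
    rw [this, h]
  have hσ : σ = lp σ' * i.cycleRange := by rw [← hσ']; group
  have h1 : (toC D).act σ e = ((toC D).act i.cycleRange (fun _ => false)).act (lp σ')
      (fun j => e (i.cycleRange⁻¹ j)) := by
    have := (CS F.B (Fin F.s)).act_act (lp σ') i.cycleRange (fun j => e (i.cycleRange⁻¹ j))
      (fun _ => false) (toC D)
    refine Eq.trans ?_ this.symm
    rw [← hσ]
    show (toC D).act σ e = (toC D).act σ _
    congr 1
    funext j
    simp
  refine ⟨σ', fun j => e (i.cycleRange⁻¹ j.succ), hσ, ?_⟩
  rw [h1, toC_drop]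
  exact (CS F.B (Fin F.s)).d_act σ' (fun j => e (i.cycleRange⁻¹ j))
    ((toC D).act i.cycleRange (fun _ => false))

theorem drop_relabel (D : Sys F (k + 1)) (π : Perm (Fin (k + 1))) (τ : Fin (k + 1) → Perm Bool)
    (a : Fin (k + 1)) : ∃ (π' : Perm (Fin k)) (τ' : Fin k → Perm Bool),
      (D.relabel π τ).drop (π a) = (D.drop a).relabel π' τ' ∧
      (π a).succAbove ∘ π' = π ∘ a.succAbove := by
  obtain ⟨σ', e', h1, h2⟩ := del_act_eq D a ((π a).cycleRange * π) (fun i => τ i false)
    (by rw [Perm.mul_apply, Fin.cycleRange_self])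
  obtain ⟨τ', h3⟩ := rel_act e'
  refine ⟨σ', τ', toC_inj ?_, ?_⟩
  · rw [toC_drop, toC_relabel, toC_relabel, h3, ← h2]
    congr 1
    have := (CS F.B (Fin F.s)).act_act (π a).cycleRange π (fun _ => false)
      (fun i => τ i false) (toC D)
    refine this.trans ?_
    show (toC D).act _ _ = (toC D).act _ _
    congr 1
    funext j
    simp
  · funext x
    apply (π a).cycleRange.injective
    show (π a).cycleRange ((π a).succAbove (σ' x)) = (π a).cycleRange (π (a.succAbove x))
    rw [Fin.cycleRange_succAbove, ← Perm.mul_apply, h1, Perm.mul_apply, Fin.cycleRange_succAbove,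
      lp_succ]

theorem drop_drop (D : Sys F (k + 2)) (b : Fin (k + 2)) (a : Fin (k + 1)) :
    (D.drop b).drop a = (D.drop (b.succAbove a)).drop (a.predAbove b) := by
  have key : ∀ (b : Fin (k + 2)) (a : Fin (k + 1)), toC ((D.drop b).drop a) =
      ((toC D).act (lp a.cycleRange * b.cycleRange) (fun _ => false)).del.del := by
    intro b a
    rw [toC_drop, toC_drop]
    have h1 := (CS F.B (Fin F.s)).d_act a.cycleRange (fun _ => false)
      ((toC D).act b.cycleRange (fun _ => false))
    have h2 := (CS F.B (Fin F.s)).act_act (lp a.cycleRange) b.cycleRange (fun _ => false)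
      (fun _ => false) (toC D)
    have h3 : ((toC D).act b.cycleRange (fun _ => false)).act (lp a.cycleRange) (fun _ => false) =
        (toC D).act (lp a.cycleRange * b.cycleRange) (fun _ => false) := by
      refine h2.trans ?_
      rfl
    rw [← h3]
    congr 1
    exact h1.symm
  apply toC_inj
  rw [key, key]
  have hθ : lp (a.predAbove b).cycleRange * (b.succAbove a).cycleRange =
      swap 0 1 * (lp a.cycleRange * b.cycleRange) := by
    apply Equiv.ext
    intro x
    by_cases hxb : x = b
    · subst hxb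
      rw [Perm.mul_apply, Perm.mul_apply, Perm.mul_apply, Fin.cycleRange_self, lp_zero,
        swap_apply_left]
      have h1 : x = (x.succAbove a).succAbove (a.predAbove x) :=
        (Fin.succAbove_succAbove_predAbove x a).symm
      have h2 : (x.succAbove a).cycleRange x = (a.predAbove x).succ :=
        (congrArg (x.succAbove a).cycleRange h1).trans (Fin.cycleRange_succAbove _ _)
      rw [h2, lp_succ, Fin.cycleRange_self]
      rfl
    · obtain ⟨y, rfl⟩ := Fin.exists_succAbove_eq hxb
      by_cases hya : y = a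
      · subst hya
        rw [Perm.mul_apply, Perm.mul_apply, Perm.mul_apply, Fin.cycleRange_self, lp_zero,
          Fin.cycleRange_succAbove, lp_succ, Fin.cycleRange_self]
        exact (swap_apply_right (0 : Fin (k + 2)) 1).symm
      · rcases k with _ | k
        · exact absurd (Subsingleton.elim (α := Fin 1) y a) hya
        · obtain ⟨z, rfl⟩ := Fin.exists_succAbove_eq hya
          have h1 : (b.succAbove a).succAbove ((a.predAbove b).succAbove z) =
              b.succAbove (a.succAbove z) := Fin.succAbove_succAbove_succAbove_predAbove b a z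
          rw [Perm.mul_apply, Perm.mul_apply, Perm.mul_apply, Fin.cycleRange_succAbove, lp_succ,
            Fin.cycleRange_succAbove, ← h1, Fin.cycleRange_succAbove, lp_succ,
            Fin.cycleRange_succAbove, swap01_succ_succ]
  rw [hθ]
  have h4 : (toC D).act (swap 0 1 * (lp a.cycleRange * b.cycleRange)) (fun _ => false) =
      ((toC D).act (lp a.cycleRange * b.cycleRange) (fun _ => false)).act (swap 0 1)
        (fun _ => false) := by
    have := (CS F.B (Fin F.s)).act_act (swap 0 1) (lp a.cycleRange * b.cycleRange) (fun _ => false)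
      (fun _ => false) (toC D)
    refine Eq.trans ?_ this.symm
    rfl
  rw [h4]
  exact ((CS F.B (Fin F.s)).d_d
    ((toC D).act (lp a.cycleRange * b.cycleRange) (fun _ => false))).symm

/-- deleting the same arc in a family and in a subfamily -/
theorem Sub.drop_drop' {D : Sys F (n + 1)} : ∀ {m : ℕ} {f : Fin m → Fin (n + 1)} {D' : Sys F m},
    Sub D f D' → ∀ {m' : ℕ} (e : m = m' + 1) (a : Fin (m' + 1)),
      ∃ f'' : Fin m' → Fin n, Sub (D.drop ((f ∘ Fin.cast e.symm) a)) f'' ((e ▸ D' : Sys F (m' + 1)).drop a) ∧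
        ((f ∘ Fin.cast e.symm) a).succAbove ∘ f'' = (f ∘ Fin.cast e.symm) ∘ a.succAbove := by
  intro m f D' h
  induction h with
  | refl =>
    intro m' e a
    obtain rfl : n = m' := by omega
    exact ⟨id, Sub.refl, rfl⟩
  | @drop m f D' i h ih =>
    intro m' e a
    subst e
    obtain ⟨f'', h1, h2⟩ := ih rfl (i.succAbove a)
    refine ⟨f'' ∘ (a.predAbove i).succAbove, ?_, ?_⟩
    · have h3 := h1.trans (Sub.drop id _ (a.predAbove i) Sub.refl)
      have h4 := drop_drop D' i a
      show Sub (D.drop (f (i.succAbove a))) _ ((D'.drop i).drop a)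
      rw [h4]
      exact h3
    · funext x
      have h3 := congrFun h2 ((a.predAbove i).succAbove x)
      show (f (i.succAbove a)).succAbove (f'' ((a.predAbove i).succAbove x)) =
        f (i.succAbove (a.succAbove x))
      refine Eq.trans h3 ?_
      show f ((i.succAbove a).succAbove ((a.predAbove i).succAbove x)) = _
      rcases m' with _ | m'
      · exact x.elim0
      · rw [Fin.succAbove_succAbove_succAbove_predAbove]
  | @relabel m f D' π τ h ih =>
    intro m' e a
    subst e
    obtain ⟨b, rfl⟩ := π.surjective a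
    obtain ⟨f'', h1, h2⟩ := ih rfl b
    obtain ⟨π', τ', h3, h4⟩ := drop_relabel D' π τ b
    refine ⟨f'' ∘ π'.symm, ?_, ?_⟩
    · have h5 := h1.trans (Sub.relabel id _ π' τ' Sub.refl)
      have h6 : f (π.symm (π b)) = f b := by rw [π.symm_apply_apply]
      show Sub (D.drop (f (π.symm (π b)))) _ ((D'.relabel π τ).drop (π b))
      rw [h6, h3]
      exact h5
    · funext x
      obtain ⟨y, rfl⟩ := π'.surjective x
      have h5 := congrFun h2 y
      have h6 := congrFun h4 y
      have h7 : (π b).succAbove (π' y) = π (b.succAbove y) := h6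
      show (f (π.symm (π b))).succAbove (f'' (π'.symm (π' y))) =
        f (π.symm ((π b).succAbove (π' y)))
      rw [π.symm_apply_apply, π'.symm_apply_apply, h7, π.symm_apply_apply]
      exact h5

theorem Sub.drop₂ {D : Sys F (n + 1)} {f : Fin (m + 1) → Fin (n + 1)} {D' : Sys F (m + 1)}
    (h : Sub D f D') (a : Fin (m + 1)) : ∃ f'' : Fin m → Fin n,
      Sub (D.drop (f a)) f'' (D'.drop a) ∧ (f a).succAbove ∘ f'' = f ∘ a.succAbove :=
  Sub.drop_drop' h rfl a

/-- a subfamily that does not contain an arc is a subfamily after deletion of this arc -/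
theorem Sub.of_not_mem {D : Sys F (n + 1)} : ∀ {m : ℕ} {f : Fin m → Fin (n + 1)} {D' : Sys F m},
    Sub D f D' → ∀ {i : Fin (n + 1)}, i ∉ Set.range f → ∃ f' : Fin m → Fin n,
      Sub (D.drop i) f' D' ∧ i.succAbove ∘ f' = f := by
  intro m f D' h
  induction h with
  | refl => intro i hi; exact absurd ⟨i, rfl⟩ hi
  | @drop m f D' a h ih =>
    intro i hi
    by_cases h1 : i ∈ Set.range f
    · obtain ⟨b, rfl⟩ := h1
      obtain rfl : b = a := by
        by_contra hne
        obtain ⟨c, rfl⟩ := Fin.exists_succAbove_eq hne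
        exact hi ⟨c, rfl⟩
      exact h.drop₂ b
    · obtain ⟨f', h2, h3⟩ := ih h1
      exact ⟨f' ∘ a.succAbove, Sub.drop f' D' a h2, by rw [← h3]; rfl⟩
  | @relabel m f D' π τ h ih =>
    intro i hi
    have h1 : i ∉ Set.range f := by
      rintro ⟨b, rfl⟩
      exact hi ⟨π b, by simp⟩
    obtain ⟨f', h2, h3⟩ := ih h1
    exact ⟨f' ∘ π.symm, Sub.relabel f' D' π τ h2, by rw [← h3]; rfl⟩

theorem Sub.bij' {D : Sys F n} : ∀ {m : ℕ} {f : Fin m → Fin n} {D' : Sys F m},
    Sub D f D' → ∀ (e : m = n), ∃ (π : Perm (Fin n)) (τ : Fin n → Perm Bool),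
      (e ▸ D' : Sys F n) = D.relabel π τ ∧ f ∘ Fin.cast e.symm = π.symm := by
  intro m f D' h
  induction h with
  | refl => intro e; exact ⟨1, fun _ => 1, (relabel_one D).symm, rfl⟩
  | @drop m f D' a h ih =>
    intro e
    have := h.le
    omega
  | @relabel m f D' π τ h ih =>
    intro e
    subst e
    obtain ⟨π', τ', h1, h2⟩ := ih rfl
    obtain ⟨τ'', h3⟩ := relabel_relabel D π' π τ' τ
    have h1' : D' = D.relabel π' τ' := h1
    refine ⟨π * π', τ'', ?_, ?_⟩
    · show D'.relabel π τ = _
      rw [h1', h3]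
    · funext x
      show f (π.symm x) = _
      have := congrFun h2 (π.symm x)
      exact this

theorem Sub.bij {D D' : Sys F n} {f : Fin n → Fin n} (h : Sub D f D') :
    ∃ (π : Perm (Fin n)) (τ : Fin n → Perm Bool), D' = D.relabel π τ ∧ f = π.symm :=
  h.bij' rfl

/-- subfamilies are unique up to orientations -/
theorem Sub.unique : ∀ (n : ℕ) {D : Sys F n} {m : ℕ} {f : Fin m → Fin n} {D' D'' : Sys F m},
    Sub D f D' → Sub D f D'' → ∃ τ, D'' = D'.relabel 1 τ := by
  intro n
  induction n with
  | zero =>
    intro D m f D' D'' h h'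
    obtain rfl : m = 0 := by have := h.le; omega
    obtain ⟨π, τ, h1, h2⟩ := h.bij
    obtain ⟨π', τ', h3, h4⟩ := h'.bij
    refine ⟨fun _ => 1, ?_⟩
    rw [relabel_one, h1, h3]
    obtain rfl : π = π' := Subsingleton.elim _ _
    obtain rfl : τ = τ' := by funext x; exact x.elim0
    rfl
  | succ n ih =>
    intro D m f D' D'' h h'
    by_cases hs : Function.Surjective f
    · obtain rfl : m = n + 1 := by
        simpa using Fintype.card_of_bijective ⟨h.inj, hs⟩
      obtain ⟨π, τ, h1, h2⟩ := h.bij
      obtain ⟨π', τ', h3, h4⟩ := h'.bij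
      obtain rfl : π = π' := by
        rw [h2] at h4
        have : π.symm = π'.symm := Equiv.coe_fn_injective h4
        rw [← π.symm_symm, this, π'.symm_symm]
      obtain ⟨e, he⟩ : ∃ e : Fin (n + 1) → Bool, ((toC D).act π (fun i => τ i false)).act 1 e =
          (toC D).act π (fun i => τ' i false) := by
        refine ⟨fun i => xor (τ (π⁻¹ i) false) (τ' (π⁻¹ i) false), ?_⟩
        refine ((CS F.B (Fin F.s)).act_act 1 π _ _ (toC D)).trans ?_
        show (toC D).act (1 * π) _ = (toC D).act π _
        rw [one_mul]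
        congr 1
        funext i
        show xor (τ i false) (xor (τ (π⁻¹ (π i)) false) (τ' (π⁻¹ (π i)) false)) = τ' i false
        simp
      obtain ⟨τ'', rfl⟩ := rel_act e
      refine ⟨τ'', toC_inj ?_⟩
      rw [toC_relabel, h1, h3, toC_relabel, toC_relabel]
      exact he.symm
    · unfold Function.Surjective at hs
      push Not at hs
      obtain ⟨i, hi⟩ := hs
      have hi' : i ∉ Set.range f := by rintro ⟨j, hj⟩; exact hi j hj
      obtain ⟨f', h1, h2⟩ := h.of_not_mem hi'
      obtain ⟨f'', h3, h4⟩ := h'.of_not_mem hi'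
      obtain rfl : f' = f'' := by
        funext x
        apply Fin.succAbove_right_injective (p := i)
        have e1 := congrFun h2 x
        have e2 := congrFun h4 x
        exact e1.trans e2.symm
      exact ih h1 h3

theorem Sub.factor {D : Sys F n} {f : Fin m → Fin n} {g : Fin l → Fin n} {D' : Sys F m}
    {D'' : Sys F l} (h : Sub D f D') (h' : Sub D g D'') (hr : Set.range f ⊆ Set.range g) :
    ∃ h : Fin m → Fin l, Sub D'' h D' ∧ g ∘ h = f := by
  have : ∀ j, ∃ j', g j' = f j := fun j => hr ⟨j, rfl⟩
  choose q hq using this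
  have hq' : g ∘ q = f := funext hq
  have hinj : Function.Injective q := by
    intro a b hab
    apply h.inj
    rw [← hq, ← hq, hab]
  obtain ⟨E, hE⟩ := Sub.exists_sub l D'' m q hinj
  obtain ⟨τ, rfl⟩ := Sub.unique n (hq' ▸ h'.trans hE) h
  exact ⟨q, Sub.relabel q E 1 τ hE, hq'⟩

end Pool.Agent.W604.FT
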