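import Mathlib
import Pool.Agent.W604.T.Sub
import Pool.Agent.W604.T.Cls

set_option autoImplicit false
set_option linter.unusedSectionVars false
set_option linter.unusedSimpArgs false
set_option linter.unusedVariables false

/-!
Arc families of a surface: subfamilies, extensions, the empty family.
-/

namespace Pool.Agent.W604.FT

open Equiv Pool.Agent.W604 Pool.Agent.W604.ArcSS

variable {F : Surf} {k n m l : ℕ}

/-- the Euler characteristic -/
def XF (F : Surf) : ℤ := 2 - 2 * F.g - F.r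

/-- the number of arcs of a maximal family -/
noncomputable def NF (F : Surf) : ℤ := (-3) * XF F + 2 * Nat.card (Fin F.s) + Nat.card F.B

theorem in_iff (D : Sys F k) : D.In ↔ IC F.next (XF F) (toC D) := by
  constructor
  · intro h
    have := (SR_iff D (D.rk - 1 + k)).2 ⟨h, by ring⟩
    obtain ⟨⟨h1, h4, h5⟩, h6, h7, h8⟩ := this
    exact ⟨h1, h5, h6, h7, h8⟩
  · rintro ⟨h1, h5, h6, h7, h8⟩
    refine ((SR_iff D (D.rk - 1 + k)).1 ⟨⟨h1, ?_, h5⟩, h6, h7, h8⟩).1
    have hrk := (toC D).rk_eq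
    rw [← rk_toC, Nat.card_fin] at hrk
    unfold XF at h5
    rw [hrk]
    linarith

theorem in_relabel {D : Sys F k} (h : D.In) (π : Perm (Fin k)) (τ : Fin k → Perm Bool) :
    (D.relabel π τ).In := by
  rw [in_iff, toC_relabel, ic_act]
  exact (in_iff D).1 h

theorem in_drop {D : Sys F (k + 1)} (h : D.In) (i : Fin (k + 1)) : (D.drop i).In := by
  rw [in_iff, toC_drop]
  exact ic_del ((ic_act _ _ _).2 ((in_iff D).1 h))

theorem Sub.isIn {D : Sys F n} {f : Fin m → Fin n} {D' : Sys F m} (h : Sub D f D')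
    (hD : D.In) : D'.In := by
  induction h with
  | refl => exact hD
  | drop f D' i _ ih => exact in_drop ih i
  | relabel f D' π τ _ ih => exact in_relabel ih π τ

theorem cycleRange_zero' : (0 : Fin (k + 1)).cycleRange = 1 := by
  apply Equiv.ext
  intro x
  refine Fin.cases ?_ (fun x => ?_) x
  · rw [Fin.cycleRange_self]; rfl
  · have h := Fin.cycleRange_succAbove (0 : Fin (k + 1)) x
    rw [Fin.succAbove_zero] at h
    exact h

theorem toC_drop_zero (D : Sys F (k + 1)) : toC (D.drop 0) = (toC D).del := by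
  rw [toC_drop, cycleRange_zero']
  congr 1
  exact (CS F.B (Fin F.s)).act_one (toC D)

theorem drop_zero_iff {D : Sys F (k + 1)} {D' : Sys F k} :
    D.drop 0 = D' ↔ (toC D).del = toC D' := by
  rw [← toC_drop_zero]
  exact ⟨fun h => congrArg toC h, fun h => toC_inj h⟩

theorem free' {ψ : Cfg F.B (Fin F.s) k} (hg : Good ψ.ps) {π : Perm (Fin k)} {e : Fin k → Bool}
    (h : ψ.act π e = ψ) : π = 1 ∧ ∀ i, e i = false := by
  have hπ := Cfg.free hg h
  refine ⟨hπ, ?_⟩
  subst hπ
  have h1 : Pool.Agent.W604.act 1 e ψ.ps = ψ.ps := congrArg Cfg.ps h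
  have h2 : ∀ l, W 1 e (ψ.ps l) = ψ.ps (W 1 e l) := by
    intro l
    have := congrArg (fun p : Perm (LL F.B k) => p (W 1 e l)) h1
    simpa [Pool.Agent.W604.act] using this
  have h3 : ∀ (n : ℕ) l, W 1 e ((ψ.ps ^ n) l) = (ψ.ps ^ n) (W 1 e l) := by
    intro n
    induction n with
    | zero => intro l; rfl
    | succ n ih =>
      intro l
      rw [pow_succ', Perm.mul_apply, Perm.mul_apply, h2, ih]
  intro i
  obtain ⟨b, hb⟩ := hg (Sum.inr (i, true))
  obtain ⟨n, hn⟩ := exists_pow_sc hb.symm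
  have h4 := h3 n (Sum.inl b)
  rw [hn, W_inl, hn, W_inr] at h4
  simp only [Sum.inr.injEq, Prod.mk.injEq] at h4
  have h5 := h4.2
  cases he : e i
  · rfl
  · rw [he] at h5; simp at h5

theorem in_free {D : Sys F k} (hD : D.In) {π : Perm (Fin k)} {τ : Fin k → Perm Bool}
    (h : D.relabel π τ = D) : π = 1 ∧ ∀ i, τ i false = false := by
  have h1 := ((in_iff D).1 hD).val.good
  apply free' h1
  rw [← toC_relabel, h]

theorem Sub.auto {D : Sys F k} (hD : D.In) {f : Fin k → Fin k} (h : Sub D f D) : f = id := by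
  obtain ⟨π, τ, h1, h2⟩ := h.bij
  obtain ⟨rfl, _⟩ := in_free hD h1.symm
  rw [h2]
  rfl

/-! ### bounds and extensions -/

theorem in_le {D : Sys F k} (hD : D.In) : (k : ℤ) ≤ NF F := by
  have := ic_total_nonneg ((in_iff D).1 hD)
  unfold NF
  linarith

theorem in_ext {D : Sys F k} (hD : D.In) (hk : (k : ℤ) < NF F) :
    ∃ D' : Sys F (k + 1), D'.In ∧ D'.drop 0 = D := by
  obtain ⟨ψ', h1, h2⟩ := ic_exists_ext ((in_iff D).1 hD) hk
  refine ⟨ofC ψ', (in_iff _).2 h1, drop_zero_iff.2 ?_⟩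
  exact h2

theorem relabel_drop_zero (D : Sys F (k + 1)) (τ : Fin (k + 1) → Perm Bool) :
    (D.relabel 1 τ).drop 0 = (D.drop 0).relabel 1 (fun i => τ i.succ) := by
  apply toC_inj
  rw [toC_drop_zero, toC_relabel, toC_relabel, toC_drop_zero]
  have h := (CS F.B (Fin F.s)).d_act 1 (fun i => τ i false) (toC D)
  have h2 : lp (1 : Perm (Fin k)) = 1 := by
    apply Equiv.ext
    intro i
    refine Fin.cases ?_ (fun i => ?_) i
    · simp
    · simp
  rw [h2] at h
  exact h

/-- two extensions -/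
theorem in_two {D : Sys F k} (hD : D.In) (hk : (k : ℤ) + 1 = NF F) :
    ∃ D1 D2 : Sys F (k + 1), (D1.In ∧ D1.drop 0 = D) ∧ (D2.In ∧ D2.drop 0 = D) ∧
      (¬ ∃ τ, D1 = D2.relabel 1 τ) ∧ ∀ D' : Sys F (k + 1), D'.In → D'.drop 0 = D →
        (∃ τ, D' = D1.relabel 1 τ) ∨ (∃ τ, D' = D2.relabel 1 τ) := by
  obtain ⟨ψ1, ψ2, ⟨h1, h1'⟩, ⟨h2, h2'⟩, hne, hne', hall⟩ := two_ext ((in_iff D).1 hD) hk
  obtain ⟨τ0, hτ0⟩ := rel_act (e0 : Fin (k + 1) → Bool)
  have hfl : ∀ ψ : Cfg F.B (Fin F.s) (k + 1), ofC (fl ψ) = (ofC ψ).relabel 1 τ0 := by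
    intro ψ
    apply toC_inj
    rw [toC_relabel, hτ0]
    rfl
  refine ⟨ofC ψ1, ofC ψ2, ⟨(in_iff _).2 h1, drop_zero_iff.2 h1'⟩,
    ⟨(in_iff _).2 h2, drop_zero_iff.2 h2'⟩, ?_, ?_⟩
  · rintro ⟨τ, hτ⟩
    have h3 : (ofC ψ1).drop 0 = D := drop_zero_iff.2 h1'
    have h4 : (ofC ψ2).drop 0 = D := drop_zero_iff.2 h2'
    rw [hτ, relabel_drop_zero, h4] at h3
    obtain ⟨_, h5⟩ := in_free hD h3
    have h6 : ψ1 = ψ2.act 1 (fun i => τ i false) := by
      have := congrArg toC hτ
      rw [toC_relabel] at this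
      exact this
    cases h7 : τ 0 false
    · have h8 : (fun i => τ i false) = (fun _ => false : Fin (k + 1) → Bool) := by
        funext i
        refine Fin.cases ?_ (fun i => ?_) i
        · exact h7
        · exact h5 i
      rw [h8] at h6
      exact hne (h6.trans ((CS F.B (Fin F.s)).act_one ψ2))
    · have h8 : (fun i => τ i false) = (e0 : Fin (k + 1) → Bool) := by
        funext i
        refine Fin.cases ?_ (fun i => ?_) i
        · rw [h7]; unfold e0; simp
        · rw [h5 i]; unfold e0; simp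
      rw [h8] at h6
      apply hne'
      rw [h6]
      exact fl_fl ψ2
  · intro D' h3 h4
    rcases hall (toC D') ((in_iff D').1 h3) (drop_zero_iff.1 h4) with h5 | h5 | h5 | h5
    · left
      refine ⟨fun _ => 1, ?_⟩
      rw [relabel_one, ← h5, ofC_toC]
    · left
      refine ⟨τ0, ?_⟩
      rw [← hfl, ← h5, ofC_toC]
    · right
      refine ⟨fun _ => 1, ?_⟩
      rw [relabel_one, ← h5, ofC_toC]
    · right
      refine ⟨τ0, ?_⟩
      rw [← hfl, ← h5, ofC_toC]

/-! ### a normal form -/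

theorem lift_relabel (D : Sys F (k + 1)) (i : Fin (k + 1)) (π : Perm (Fin k))
    (τ : Fin k → Perm Bool) : ∃ τ', (D.relabel (lp π * i.cycleRange) τ').drop 0 =
      (D.drop i).relabel π τ := by
  obtain ⟨τ', h'⟩ := rel_act (fun j : Fin (k + 1) =>
    (Fin.cons false (fun j => τ j false) : Fin (k + 1) → Bool) (i.cycleRange j))
  refine ⟨τ', toC_inj ?_⟩
  rw [toC_drop_zero, toC_relabel, toC_relabel, toC_drop, h']
  have h1 := (CS F.B (Fin F.s)).act_act (lp π) i.cycleRange
    (Fin.cons false (fun j => τ j false) : Fin (k + 1) → Bool) (fun _ => false) (toC D)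
  have h2 := (CS F.B (Fin F.s)).d_act π
    (Fin.cons false (fun j => τ j false) : Fin (k + 1) → Bool)
    ((toC D).act i.cycleRange (fun _ => false))
  have h3 : ((toC D).act i.cycleRange (fun _ => false)).act (lp π)
      (Fin.cons false (fun j => τ j false) : Fin (k + 1) → Bool) =
      (toC D).act (lp π * i.cycleRange) (fun j : Fin (k + 1) =>
        (Fin.cons false (fun j => τ j false) : Fin (k + 1) → Bool) (i.cycleRange j)) := by
    refine h1.trans ?_
    show (toC D).act _ _ = (toC D).act _ _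
    congr 1
    funext j
    simp
  rw [← h3]
  exact h2

theorem Sub.normal {D : Sys F (k + 1)} {f : Fin k → Fin (k + 1)} {D' : Sys F k}
    (h : Sub D f D') : ∃ (E : Sys F (k + 1)) (g : Fin (k + 1) → Fin (k + 1)), Sub D g E ∧
      E.drop 0 = D' ∧ g ∘ Fin.succ = f ∧ Function.Bijective g := by
  obtain ⟨i, hi⟩ : ∃ i, i ∉ Set.range f := by
    by_contra hcon
    push Not at hcon
    have hs : Function.Surjective f := hcon
    have := Fintype.card_le_of_surjective f hs
    simp at this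
  obtain ⟨f', h1, h2⟩ := h.of_not_mem hi
  obtain ⟨π, τ, h3, h4⟩ := h1.bij
  obtain ⟨τ', h5⟩ := lift_relabel D i π τ
  refine ⟨D.relabel (lp π * i.cycleRange) τ', (lp π * i.cycleRange).symm,
    Sub.relabel id D _ τ' Sub.refl, ?_, ?_, (lp π * i.cycleRange).symm.bijective⟩
  · rw [h5, h3]
  · funext j
    show (lp π * i.cycleRange).symm j.succ = f j
    rw [Equiv.symm_apply_eq, Perm.mul_apply, ← h2]
    show j.succ = lp π (i.cycleRange (i.succAbove (f' j)))
    rw [Fin.cycleRange_succAbove, lp_succ, h4, π.apply_symm_apply]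

theorem Sub.drop0 (D : Sys F (k + 1)) : Sub D Fin.succ (D.drop 0) := by
  have h := Sub.drop id D 0 Sub.refl
  have h2 : (id ∘ (0 : Fin (k + 1)).succAbove) = Fin.succ := by
    funext j
    simp
  rwa [h2] at h

/-! ### the family without arcs -/

theorem ic_zero_unique {B P : Type} [DecidableEq B] [Finite B] [Finite P] {β : Perm B} {X : ℤ}
    {ψ ψ' : Cfg B P 0} (h : IC β X ψ) (h' : IC β X ψ') : ψ = ψ' := by
  have key : ∀ ψ : Cfg B P 0, IC β X ψ → (∀ b, ψ.ps (Sum.inl b) = Sum.inl (β b)) ∧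
      (∀ a b, ψ.X.R a b) ∧ ∀ z, ψ.X.x z = X := by
    intro ψ h
    have hR : ∀ a b, ψ.X.R a b := h.cn ψ.X.R (fun _ _ h => h) (fun i => i.elim0)
    refine ⟨fun b => ?_, hR, fun z => ?_⟩
    · have h1 := h.bd b
      rcases h2 : ψ.ps (Sum.inl b) with b' | ⟨i, _⟩
      · rw [h2] at h1
        have h3 : b' = β b := by
          have := h1.unique Sum.inl_injective (Next.base (j := (Sum.inl : B → LL B 0))
            (ψ := ψ.ps) b')
          exact this.symm
        rw [h3]
      · exact i.elim0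
    · have h1 := h.sx
      have h2 : ψ.sx = ψ.X.x z := by
        have h3 := Tsm_upd ψ.X.R z (w := fun _ => 0) (fun _ _ _ => rfl) ψ.X.hx
          (fun y hy => absurd (hR y z) hy)
        have h4 : Tsm ψ.X.R (fun _ => 0) = 0 := by unfold Tsm; simp
        unfold Cfg.sx
        rw [h3, h4]
        ring
      rw [← h2, ← h1]
      push_cast
      ring
  obtain ⟨a1, a2, a3⟩ := key ψ h
  obtain ⟨b1, b2, b3⟩ := key ψ' h'
  refine Cfg.ext' ?_ (SX.ext' (fun a b => ⟨fun _ => b2 a b, fun _ => a2 a b⟩)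
    (fun a => by rw [a3, b3]))
  apply Equiv.ext
  rintro (b | ⟨i, _⟩)
  · rw [a1, b1]
  · exact i.elim0

theorem in_zero_unique {D D' : Sys F 0} (h : D.In) (h' : D'.In) : D = D' :=
  toC_inj (ic_zero_unique ((in_iff D).1 h) ((in_iff D').1 h'))

end Pool.Agent.W604.FT
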