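import Mathlib
import Pool.Agent.W604.T.SysF

set_option autoImplicit false
set_option linter.unusedSectionVars false
set_option linter.unusedSimpArgs false
set_option linter.unusedVariables false

/-!
The family without arcs.
-/

namespace Pool.Agent.W604.FT

open Equiv Pool.Agent.W604 Pool.Agent.W604.ArcSS

theorem finRotate_reach : ∀ (n : ℕ) (a b : Fin n), ∃ m : ℕ, (finRotate n ^ m) a = b := by
  intro n
  rcases n with _ | n
  · intro a; exact a.elim0
  · intro a b
    have key : ∀ (m : ℕ) (hm : m < n + 1), (finRotate (n + 1)).SameCycle 0 ⟨m, hm⟩ := by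
      intro m
      induction m with
      | zero => intro hm; exact Perm.SameCycle.refl _ _
      | succ m ih =>
        intro hm
        have h1 := ih (by omega)
        have h2 := sameCycle_apply (finRotate (n + 1)) ⟨m, by omega⟩
        rw [finRotate_of_lt (by omega)] at h2
        exact h1.trans h2
    have h1 := (key a.1 a.2).symm.trans (key b.1 b.2)
    obtain ⟨m, _, hm⟩ := exists_pow_of_sameCycle h1
    exact ⟨m, hm⟩

variable (F : Surf)

theorem next_pow (i : Fin F.r) (j : Fin (F.δ i)) (m : ℕ) :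
    (F.next ^ m) ⟨i, j⟩ = ⟨i, (finRotate (F.δ i) ^ m) j⟩ := by
  induction m with
  | zero => rfl
  | succ m ih =>
    rw [pow_succ', Perm.mul_apply, ih, pow_succ', Perm.mul_apply]
    rfl

/-- the configuration without chords -/
def cE : Cfg F.B (Fin F.s) 0 where
  ps := Equiv.sumCongr F.next (Equiv.refl _)
  X := ⟨⊤, fun _ => XF F, fun _ _ _ => rfl⟩
  hR := fun _ => trivial

theorem cE_pow (b : F.B) (m : ℕ) :
    (((cE F).ps * bar : Perm (LL F.B 0)) ^ m) (Sum.inl b) = Sum.inl ((F.next ^ m) b) := by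
  induction m with
  | zero => rfl
  | succ m ih =>
    rw [pow_succ', Perm.mul_apply, ih, pow_succ', Perm.mul_apply]
    rfl

/-- the boundary component of a letter -/
def cmp : LL F.B 0 → Fin F.r
  | Sum.inl b => b.1
  | Sum.inr p => p.1.elim0

theorem cE_cmp {a b : LL F.B 0} :
    ((cE F).ps * bar).SameCycle a b ↔ cmp F a = cmp F b := by
  constructor
  · intro h
    refine sameCycle_ind (r := fun a b => cmp F a = cmp F b)
      ⟨fun _ => rfl, fun h => h.symm, fun h1 h2 => h1.trans h2⟩ ?_ h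
    rintro (b | ⟨i, _⟩)
    · rfl
    · exact i.elim0
  · intro h
    rcases a with ⟨i, j⟩ | ⟨i, _⟩
    · rcases b with ⟨i', j'⟩ | ⟨i', _⟩
      · obtain rfl : i = i' := h
        obtain ⟨m, hm⟩ := finRotate_reach _ j j'
        refine ⟨m, ?_⟩
        rw [zpow_natCast, cE_pow, next_pow, hm]
      · exact i'.elim0
    · exact i.elim0

theorem cE_f (z : LL F.B 0 ⊕ Fin F.s) : (cE F).f z = F.r := by
  rw [f_card]
  have h : Nat.card {c : Quotient (Perm.SameCycle.setoid ((cE F).ps * bar)) //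
      (cE F).X.R (Sum.inl c.out) z} = F.r := by
    have e : {c : Quotient (Perm.SameCycle.setoid ((cE F).ps * bar)) //
      (cE F).X.R (Sum.inl c.out) z} ≃ Fin F.r := by
      refine Equiv.ofBijective (fun c => Quotient.lift (cmp F)
        (fun a b h => (cE_cmp F).1 h) c.1) ⟨?_, ?_⟩
      · rintro ⟨c, hc⟩ ⟨c', hc'⟩ h
        apply Subtype.ext
        induction c using Quotient.inductionOn with | h a => ?_
        induction c' using Quotient.inductionOn with | h b => ?_
        exact Quotient.sound (s := Perm.SameCycle.setoid ((cE F).ps * bar)) ((cE_cmp F).2 h)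
      · intro i
        exact ⟨⟨Quotient.mk _ (Sum.inl ⟨i, ⟨0, F.hδ i⟩⟩), trivial⟩, rfl⟩
    rw [Nat.card_congr e, Nat.card_fin]
  rw [h]

theorem exists_empty (h : 1 ≤ NF F) : ∃ D : Sys F 0, D.In := by
  have hne : ∀ z : LL F.B 0 ⊕ Fin F.s, (cE F).X.x z = XF F := fun _ => rfl
  have b0 : F.B := ⟨⟨0, F.hr⟩, ⟨0, F.hδ _⟩⟩
  refine ⟨ofC (cE F), (in_iff _).2 ⟨⟨?_, ?_, ?_⟩, ?_, ?_, ?_, ?_⟩⟩
  · intro l
    refine ⟨F.g, ?_⟩
    have h1 := cE_f F (Sum.inl l)
    change XF F + (cE F).f (Sum.inl l) + 2 * F.g = 2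
    rw [h1]
    unfold XF
    ring
  · intro p
    exact ⟨Sum.inl b0, trivial⟩
  · rintro (b | ⟨i, _⟩)
    · exact ⟨b, Perm.SameCycle.refl _ _⟩
    · exact i.elim0
  · have h3 := Tsm_upd (cE F).X.R (Sum.inl (Sum.inl b0)) (w := fun _ => 0) (fun _ _ _ => rfl)
      (cE F).X.hx (fun y hy => absurd trivial hy)
    have h4 : Tsm (cE F).X.R (fun _ => 0) = 0 := by unfold Tsm; simp
    change Tsm (cE F).X.R (cE F).X.x - ((0 : ℕ) : ℤ) = XF F
    rw [h3, h4, hne]
    push_cast
    ring
  · intro v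
    exact Next.base (j := (Sum.inl : F.B → LL F.B 0)) _
  · intro S hS _ a b
    exact hS a b trivial
  · intro z hx hp
    change XF F = 1 at hx
    have hs : F.s = 0 := by
      by_contra hs
      exact hp ⟨⟨0, Nat.pos_of_ne_zero hs⟩, trivial⟩
    have h5 : Nat.card {l : LL F.B 0 // (ofC (cE F)).R (Sum.inl l) z} = Nat.card (LL F.B 0) :=
      Nat.card_congr (Equiv.subtypeUnivEquiv (fun _ => trivial))
    have h6 := card_LL (B := F.B) (k := 0)
    unfold NF at h
    rw [hx, Nat.card_fin, hs] at h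
    have h7 : (3 : ℤ) ≤ Nat.card (LL F.B 0) := by
      rw [h6]
      push_cast at h ⊢
      linarith
    change 3 ≤ Nat.card {l : LL F.B 0 // (ofC (cE F)).R (Sum.inl l) z}
    rw [h5]
    exact_mod_cast h7

end Pool.Agent.W604.FT
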