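import Mathlib
import Pool.Agent.W604.T.Def1

set_option autoImplicit false
set_option linter.unusedVariables false
set_option linter.unusedSectionVars false

/-!
Closed pseudomanifolds: invariance under stellar subdivisions.
-/

namespace Pool.Agent.W604.FT

open Classical

variable {V W : Type}

/-- the vertices that extend the simplex `s` -/
def Cx.E (K : Cx V) (s : Finset V) : Set V := {v | v ∉ s ∧ insert v s ∈ K.S}

/-- closed pseudomanifold of dimension `n - 1` -/
structure Q (n : ℕ) (K : Cx V) : Prop where
  pure : ∀ s ∈ K.S, ∃ t ∈ K.S, s ⊆ t ∧ t.card = n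
  le : ∀ s ∈ K.S, s.card ≤ n
  ridge : ∀ s ∈ K.S, s.card + 1 = n → (K.E s).encard = 2

/-- the condition of the stellar subdivision -/
def St (K L : Cx V) (a : Finset V) (p : V) : Prop :=
  ∀ s, s ∈ L.S ↔ (s ∈ K.S ∧ ¬ a ⊆ s) ∨ (p ∈ s ∧ s.erase p ∪ a ∈ K.S ∧ ¬ a ⊆ s.erase p)

theorem notMem_of {K : Cx V} {p : V} (hp : {p} ∉ K.S) {s : Finset V} (hs : s ∈ K.S) : p ∉ s :=
  fun h => hp (K.down _ hs _ (Finset.singleton_subset_iff.2 h))

section star

variable {K L : Cx V} {a : Finset V} {p : V} (hp : {p} ∉ K.S) (ha : a ∈ K.S) (h0 : a.Nonempty)
  (h : St K L a p)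

include hp ha h

theorem St.mem_of_not {s : Finset V} (hs : p ∉ s) : s ∈ L.S ↔ (s ∈ K.S ∧ ¬ a ⊆ s) := by
  rw [h]
  constructor
  · rintro (h1 | h1)
    · exact h1
    · exact absurd h1.1 hs
  · exact Or.inl

theorem St.insert_mem {u : Finset V} (hu : p ∉ u) :
    insert p u ∈ L.S ↔ (u ∪ a ∈ K.S ∧ ¬ a ⊆ u) := by
  rw [h, Finset.erase_insert hu]
  constructor
  · rintro (h1 | h1)
    · exact absurd (Finset.mem_insert_self _ _) (notMem_of hp h1.1)
    · exact h1.2
  · intro h1
    exact Or.inr ⟨Finset.mem_insert_self _ _, h1⟩

theorem St.cases {s : Finset V} : (p ∉ s) ∨ ∃ u, p ∉ u ∧ s = insert p u := by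
  by_cases hs : p ∈ s
  · exact Or.inr ⟨s.erase p, Finset.notMem_erase _ _, (Finset.insert_erase hs).symm⟩
  · exact Or.inl hs

omit hp h in
/-- missing elements -/
theorem exists_miss {s : Finset V} (h : ¬ a ⊆ s) : ∃ x ∈ a, x ∉ s := by
  by_contra h'
  push Not at h'
  exact h h'

theorem Q.star {n : ℕ} (hK : Q n K) : Q n L := by
  have hpa : p ∉ a := notMem_of hp ha
  have swap : ∀ (t : Finset V), t ∈ K.S → a ⊆ t → ∀ x ∈ a,
      insert p (t.erase x) ∈ L.S ∧ (insert p (t.erase x)).card = t.card := by
    intro t ht hat x hx
    have hpt := notMem_of hp ht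
    have hpu : p ∉ t.erase x := fun h' => hpt (Finset.mem_of_mem_erase h')
    refine ⟨(St.insert_mem hp ha h hpu).2 ⟨?_, ?_⟩, ?_⟩
    · have : t.erase x ∪ a = t := by
        ext y
        simp only [Finset.mem_union, Finset.mem_erase]
        constructor
        · rintro (h1 | h1)
          · exact h1.2
          · exact hat h1
        · intro h1
          by_cases hy : y = x
          · right; rw [hy]; exact hx
          · exact Or.inl ⟨hy, h1⟩
      rw [this]; exact ht
    · intro h'
      exact Finset.notMem_erase x t (h' hx)
    · rw [Finset.card_insert_of_notMem hpu, Finset.card_erase_of_mem (hat hx)]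
      have : 0 < t.card := Finset.card_pos.2 ⟨x, hat hx⟩
      omega
  refine ⟨?_, ?_, ?_⟩
  · intro s hs
    rcases St.cases (s := s) hp ha h with h1 | ⟨u, h1, rfl⟩
    · have h2 := (St.mem_of_not hp ha h h1).1 hs
      obtain ⟨t, ht, hst, hc⟩ := hK.pure s h2.1
      by_cases hat : a ⊆ t
      · obtain ⟨x, hx, hxs⟩ := exists_miss ha h2.2
        obtain ⟨h3, h4⟩ := swap t ht hat x hx
        refine ⟨_, h3, ?_, by rw [h4, hc]⟩
        intro y hy
        rw [Finset.mem_insert, Finset.mem_erase]
        right
        refine ⟨?_, hst hy⟩
        rintro rfl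
        exact hxs hy
      · exact ⟨t, (St.mem_of_not hp ha h (notMem_of hp ht)).2 ⟨ht, hat⟩, hst, hc⟩
    · have h2 := (St.insert_mem hp ha h h1).1 hs
      obtain ⟨t, ht, hst, hc⟩ := hK.pure _ h2.1
      have hat : a ⊆ t := fun y hy => hst (Finset.mem_union_right _ hy)
      obtain ⟨x, hx, hxs⟩ := exists_miss ha h2.2
      obtain ⟨h3, h4⟩ := swap t ht hat x hx
      refine ⟨_, h3, ?_, by rw [h4, hc]⟩
      apply Finset.insert_subset_insert
      intro y hy
      rw [Finset.mem_erase]
      refine ⟨?_, hst (Finset.mem_union_left _ hy)⟩
      rintro rfl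
      exact hxs hy
  · intro s hs
    rcases St.cases (s := s) hp ha h with h1 | ⟨u, h1, rfl⟩
    · exact hK.le s ((St.mem_of_not hp ha h h1).1 hs).1
    · have h2 := (St.insert_mem hp ha h h1).1 hs
      obtain ⟨x, hx, hxs⟩ := exists_miss ha h2.2
      rw [Finset.card_insert_of_notMem h1, ← Finset.card_insert_of_notMem hxs]
      refine hK.le _ (K.down _ h2.1 _ ?_)
      intro y hy
      rw [Finset.mem_insert] at hy
      rcases hy with rfl | hy
      · exact Finset.mem_union_right _ hx
      · exact Finset.mem_union_left _ hy
  · intro s hs hc
    rcases St.cases (s := s) hp ha h with h1 | ⟨u, h1, rfl⟩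
    · have h2 := (St.mem_of_not hp ha h h1).1 hs
      have hE := hK.ridge s h2.1 hc
      -- membership in the new set
      have hEp : p ∈ L.E s ↔ s ∪ a ∈ K.S := by
        constructor
        · rintro ⟨_, h3⟩; exact ((St.insert_mem hp ha h h1).1 h3).1
        · intro h3; exact ⟨h1, (St.insert_mem hp ha h h1).2 ⟨h3, h2.2⟩⟩
      have hEv : ∀ v, v ≠ p → (v ∈ L.E s ↔ v ∈ K.E s ∧ ¬ a ⊆ insert v s) := by
        intro v hv
        have h3 : p ∉ insert v s := by
          rw [Finset.mem_insert]
          rintro (h4 | h4)
          · exact hv h4.symm
          · exact h1 h4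
        constructor
        · rintro ⟨h4, h5⟩
          have h6 := (St.mem_of_not hp ha h h3).1 h5
          exact ⟨⟨h4, h6.1⟩, h6.2⟩
        · rintro ⟨⟨h4, h5⟩, h6⟩
          exact ⟨h4, (St.mem_of_not hp ha h h3).2 ⟨h5, h6⟩⟩
      have hpE : p ∉ K.E s := by
        rintro ⟨_, h3⟩
        exact notMem_of hp h3 (Finset.mem_insert_self _ _)
      by_cases h3 : s ∪ a ∈ K.S
      · obtain ⟨x, hx, hxs⟩ := exists_miss ha h2.2
        have hsx : s ∪ a = insert x s := by
          symm
          apply Finset.eq_of_subset_of_card_le
          · intro y hy
            rw [Finset.mem_insert] at hy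
            rcases hy with rfl | hy
            · exact Finset.mem_union_right _ hx
            · exact Finset.mem_union_left _ hy
          · rw [Finset.card_insert_of_notMem hxs, hc]
            exact hK.le _ h3
        have hxE : x ∈ K.E s := ⟨hxs, by rw [← hsx]; exact h3⟩
        have hEE : L.E s = insert p (K.E s \ {x}) := by
          ext v
          by_cases hv : v = p
          · subst hv
            simp [hEp, h3]
          · rw [hEv v hv, Set.mem_insert_iff]
            simp only [hv, false_or, Set.mem_sdiff, Set.mem_singleton_iff]
            refine and_congr_right fun hvE => not_congr ?_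
            constructor
            · intro h4
              have := h4 hx
              rw [Finset.mem_insert] at this
              rcases this with h5 | h5
              · exact h5.symm
              · exact absurd h5 hxs
            · rintro rfl
              rw [← hsx]
              exact Finset.subset_union_right
        rw [hEE, Set.encard_insert_of_notMem (fun h' => hpE h'.1),
          Set.encard_sdiff_singleton_add_one hxE, hE]
      · have hEE : L.E s = K.E s := by
          ext v
          by_cases hv : v = p
          · subst hv
            rw [hEp]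
            exact ⟨fun h' => absurd h' h3, fun h' => absurd h' hpE⟩
          · rw [hEv v hv]
            constructor
            · exact fun h' => h'.1
            · intro h4
              refine ⟨h4, fun h5 => h3 ?_⟩
              refine K.down _ h4.2 _ ?_
              exact Finset.union_subset (Finset.subset_insert _ _) h5
        rw [hEE, hE]
    · have h2 := (St.insert_mem hp ha h h1).1 hs
      rw [Finset.card_insert_of_notMem h1] at hc
      obtain ⟨x, hx, hxu⟩ := exists_miss ha h2.2
      have hE' : ∀ v, v ∈ L.E (insert p u) ↔
          (v ≠ p ∧ v ∉ u ∧ insert v u ∪ a ∈ K.S ∧ ¬ a ⊆ insert v u) := by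
        intro v
        unfold Cx.E
        simp only [Set.mem_ofPred_eq, Finset.mem_insert, not_or]
        rw [Finset.insert_comm]
        constructor
        · rintro ⟨⟨h3, h4⟩, h5⟩
          have h6 : p ∉ insert v u := by
            rw [Finset.mem_insert]; rintro (h7 | h7)
            · exact h3 h7.symm
            · exact h1 h7
          have h7 := (St.insert_mem hp ha h h6).1 h5
          exact ⟨h3, h4, h7.1, h7.2⟩
        · rintro ⟨h3, h4, h5, h7⟩
          have h6 : p ∉ insert v u := by
            rw [Finset.mem_insert]; rintro (h7 | h7)
            · exact h3 h7.symm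
            · exact h1 h7
          exact ⟨⟨h3, h4⟩, (St.insert_mem hp ha h h6).2 ⟨h5, h7⟩⟩
      have hle := hK.le _ h2.1
      by_cases h3 : ∃ y ∈ a, y ∉ u ∧ y ≠ x
      · obtain ⟨y, hy, hyu, hyx⟩ := h3
        have hua : u ∪ a = insert x (insert y u) := by
          symm
          apply Finset.eq_of_subset_of_card_le
          · intro z hz
            simp only [Finset.mem_insert] at hz
            rcases hz with rfl | rfl | hz
            · exact Finset.mem_union_right _ hx
            · exact Finset.mem_union_right _ hy
            · exact Finset.mem_union_left _ hz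
          · rw [Finset.card_insert_of_notMem (by
              rw [Finset.mem_insert]; rintro (h4 | h4)
              · exact hyx h4.symm
              · exact hxu h4), Finset.card_insert_of_notMem hyu]
            omega
        have hcard : (u ∪ a).card = n := by
          rw [hua, Finset.card_insert_of_notMem (by
              rw [Finset.mem_insert]; rintro (h4 | h4)
              · exact hyx h4.symm
              · exact hxu h4), Finset.card_insert_of_notMem hyu]
          omega
        have hEE : L.E (insert p u) = {x, y} := by
          ext v
          rw [hE', Set.mem_insert_iff, Set.mem_singleton_iff]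
          constructor
          · rintro ⟨h4, h5, h6, h7⟩
            have h8 : insert v u ∪ a = insert v (u ∪ a) := Finset.insert_union _ _ _
            rw [h8] at h6
            have h9 : v ∈ u ∪ a := by
              by_contra h9
              have := hK.le _ h6
              rw [Finset.card_insert_of_notMem h9] at this
              omega
            rw [hua] at h9
            simp only [Finset.mem_insert] at h9
            rcases h9 with h9 | h9 | h9
            · exact Or.inl h9
            · exact Or.inr h9
            · exact absurd h9 h5
          · intro h4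
            have hva : v ∈ a := by rcases h4 with rfl | rfl <;> assumption
            have hvu : v ∉ u := by rcases h4 with rfl | rfl <;> assumption
            refine ⟨?_, hvu, ?_, ?_⟩
            · rintro rfl; exact hpa hva
            · rw [Finset.insert_union, Finset.insert_eq_of_mem (Finset.mem_union_right _ hva)]
              exact h2.1
            · intro h5
              rcases h4 with rfl | rfl
              · have := h5 hy
                rw [Finset.mem_insert] at this
                rcases this with h6 | h6
                · exact hyx h6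
                · exact hyu h6
              · have := h5 hx
                rw [Finset.mem_insert] at this
                rcases this with h6 | h6
                · exact hyx h6.symm
                · exact hxu h6
        rw [hEE, Set.encard_pair (Ne.symm hyx)]
      · push Not at h3
        have hua : u ∪ a = insert x u := by
          ext z
          rw [Finset.mem_union, Finset.mem_insert]
          constructor
          · rintro (h4 | h4)
            · exact Or.inr h4
            · by_cases hz : z ∈ u
              · exact Or.inr hz
              · exact Or.inl (h3 z h4 hz)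
          · rintro (rfl | h4)
            · exact Or.inr hx
            · exact Or.inl h4
        have hcard : (u ∪ a).card + 1 = n := by
          rw [hua, Finset.card_insert_of_notMem hxu]; exact hc
        have hEE : L.E (insert p u) = K.E (u ∪ a) := by
          ext v
          rw [hE']
          unfold Cx.E
          simp only [Set.mem_ofPred_eq]
          rw [Finset.insert_union]
          constructor
          · rintro ⟨h4, h5, h6, h7⟩
            refine ⟨?_, h6⟩
            rw [hua, Finset.mem_insert]
            rintro (rfl | h8)
            · apply h7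
              rw [← hua]
              exact Finset.subset_union_right
            · exact h5 h8
          · rintro ⟨h4, h5⟩
            have h6 : v ∉ u := fun h' => h4 (Finset.mem_union_left _ h')
            refine ⟨?_, h6, h5, ?_⟩
            · rintro rfl
              exact notMem_of hp h5 (Finset.mem_insert_self _ _)
            · intro h7
              have := h7 hx
              rw [Finset.mem_insert] at this
              rcases this with h8 | h8
              · exact h4 (by rw [← h8]; exact Finset.mem_union_right _ hx)
              · exact hxu h8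
        rw [hEE, hK.ridge _ h2.1 hcard]

include h0 in
theorem Q.unstar {n : ℕ} (hL : Q n L) : Q n K := by
  have hpa : p ∉ a := notMem_of hp ha
  have swap : ∀ (t : Finset V), t ∈ K.S → a ⊆ t → ∀ x ∈ a,
      insert p (t.erase x) ∈ L.S ∧ (insert p (t.erase x)).card = t.card ∧ p ∉ t.erase x := by
    intro t ht hat x hx
    have hpt := notMem_of hp ht
    have hpu : p ∉ t.erase x := fun h' => hpt (Finset.mem_of_mem_erase h')
    refine ⟨(St.insert_mem hp ha h hpu).2 ⟨?_, ?_⟩, ?_, hpu⟩
    · have : t.erase x ∪ a = t := by
        ext y
        simp only [Finset.mem_union, Finset.mem_erase]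
        constructor
        · rintro (h1 | h1)
          · exact h1.2
          · exact hat h1
        · intro h1
          by_cases hy : y = x
          · right; rw [hy]; exact hx
          · exact Or.inl ⟨hy, h1⟩
      rw [this]; exact ht
    · intro h'
      exact Finset.notMem_erase x t (h' hx)
    · rw [Finset.card_insert_of_notMem hpu, Finset.card_erase_of_mem (hat hx)]
      have : 0 < t.card := Finset.card_pos.2 ⟨x, hat hx⟩
      omega
  have hle : ∀ s ∈ K.S, s.card ≤ n := by
    intro s hs
    by_cases hat : a ⊆ s
    · obtain ⟨x, hx⟩ := h0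
      obtain ⟨h1, h2, _⟩ := swap s hs hat x hx
      rw [← h2]
      exact hL.le _ h1
    · exact hL.le _ ((St.mem_of_not hp ha h (notMem_of hp hs)).2 ⟨hs, hat⟩)
  refine ⟨?_, hle, ?_⟩
  · intro s hs
    by_cases hat : a ⊆ s
    · obtain ⟨x, hx⟩ := h0
      obtain ⟨h1, h2, h3⟩ := swap s hs hat x hx
      obtain ⟨t, ht, hst, hc⟩ := hL.pure _ h1
      rcases St.cases (s := t) hp ha h with h4 | ⟨u, h4, rfl⟩
      · exact absurd (hst (Finset.mem_insert_self _ _)) h4
      · have h5 := (St.insert_mem hp ha h h4).1 ht
        have h6 : s.erase x ⊆ u := by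
          intro y hy
          have := hst (Finset.mem_insert_of_mem hy)
          rw [Finset.mem_insert] at this
          rcases this with rfl | h7
          · exact absurd hy h3
          · exact h7
        have hsub : a ⊆ insert x u := by
          intro y hy
          rw [Finset.mem_insert]
          by_cases hyx : y = x
          · exact Or.inl hyx
          · exact Or.inr (h6 (Finset.mem_erase.2 ⟨hyx, hat hy⟩))
        have hxu : x ∉ u := by
          intro hxu
          apply h5.2
          rw [Finset.insert_eq_of_mem hxu] at hsub
          exact hsub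
        refine ⟨insert x u, K.down _ h5.1 _ ?_, ?_, ?_⟩
        · intro y hy
          rw [Finset.mem_insert] at hy
          rcases hy with rfl | hy
          · exact Finset.mem_union_right _ hx
          · exact Finset.mem_union_left _ hy
        · intro y hy
          rw [Finset.mem_insert]
          by_cases hyx : y = x
          · exact Or.inl hyx
          · exact Or.inr (h6 (Finset.mem_erase.2 ⟨hyx, hy⟩))
        · rw [Finset.card_insert_of_notMem hxu, ← Finset.card_insert_of_notMem h4, hc]
    · have hps := notMem_of hp hs
      obtain ⟨t, ht, hst, hc⟩ := hL.pure _ ((St.mem_of_not hp ha h hps).2 ⟨hs, hat⟩)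
      rcases St.cases (s := t) hp ha h with h4 | ⟨u, h4, rfl⟩
      · exact ⟨t, ((St.mem_of_not hp ha h h4).1 ht).1, hst, hc⟩
      · have h5 := (St.insert_mem hp ha h h4).1 ht
        obtain ⟨x, hx, hxu⟩ := exists_miss ha h5.2
        refine ⟨u ∪ a, h5.1, ?_, ?_⟩
        · intro y hy
          have := hst hy
          rw [Finset.mem_insert] at this
          rcases this with rfl | h7
          · exact absurd hy hps
          · exact Finset.mem_union_left _ h7
        · apply le_antisymm (hle _ h5.1)
          rw [Finset.card_insert_of_notMem h4] at hc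
          rw [← hc, ← Finset.card_insert_of_notMem hxu]
          apply Finset.card_le_card
          intro y hy
          rw [Finset.mem_insert] at hy
          rcases hy with rfl | hy
          · exact Finset.mem_union_right _ hx
          · exact Finset.mem_union_left _ hy
  · intro s hs hc
    have h1 := notMem_of hp hs
    have hpE : p ∉ K.E s := by
      rintro ⟨_, h3⟩
      exact notMem_of hp h3 (Finset.mem_insert_self _ _)
    by_cases hat : a ⊆ s
    · obtain ⟨x, hx⟩ := h0
      obtain ⟨h2, h3, h4⟩ := swap s hs hat x hx
      have hE := hL.ridge _ h2 (by rw [h3]; exact hc)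
      have hEE : L.E (insert p (s.erase x)) = K.E s := by
        ext v
        unfold Cx.E
        simp only [Set.mem_ofPred_eq, Finset.mem_insert, not_or]
        rw [Finset.insert_comm]
        have hua : s.erase x ∪ a = s := by
          ext y
          simp only [Finset.mem_union, Finset.mem_erase]
          constructor
          · rintro (h1 | h1)
            · exact h1.2
            · exact hat h1
          · intro h1
            by_cases hy : y = x
            · right; rw [hy]; exact hx
            · exact Or.inl ⟨hy, h1⟩
        constructor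
        · rintro ⟨⟨h5, h6⟩, h7⟩
          have h8 : p ∉ insert v (s.erase x) := by
            rw [Finset.mem_insert]; rintro (h9 | h9)
            · exact h5 h9.symm
            · exact h4 h9
          have h9 := (St.insert_mem hp ha h h8).1 h7
          rw [Finset.insert_union, hua] at h9
          refine ⟨?_, h9.1⟩
          intro hvs
          have hvx : v = x := by
            by_contra hvx
            exact h6 (Finset.mem_erase.2 ⟨hvx, hvs⟩)
          apply h9.2
          rw [hvx, Finset.insert_erase (hat hx)]
          exact hat
        · rintro ⟨h5, h6⟩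
          have hvp : v ≠ p := by
            rintro rfl
            exact notMem_of hp h6 (Finset.mem_insert_self _ _)
          have hvu : v ∉ s.erase x := fun h' => h5 (Finset.mem_of_mem_erase h')
          have h8 : p ∉ insert v (s.erase x) := by
            rw [Finset.mem_insert]; rintro (h9 | h9)
            · exact hvp h9.symm
            · exact h4 h9
          refine ⟨⟨hvp, hvu⟩, (St.insert_mem hp ha h h8).2 ⟨?_, ?_⟩⟩
          · rw [Finset.insert_union, hua]; exact h6
          · intro h9
            have := h9 hx
            rw [Finset.mem_insert] at this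
            rcases this with h10 | h10
            · rw [← h10] at h5
              exact h5 (hat hx)
            · exact Finset.notMem_erase _ _ h10
      rw [← hEE, hE]
    · have hE := hL.ridge s ((St.mem_of_not hp ha h h1).2 ⟨hs, hat⟩) hc
      have hEp : p ∈ L.E s ↔ s ∪ a ∈ K.S := by
        constructor
        · rintro ⟨_, h3⟩; exact ((St.insert_mem hp ha h h1).1 h3).1
        · intro h3; exact ⟨h1, (St.insert_mem hp ha h h1).2 ⟨h3, hat⟩⟩
      have hEv : ∀ v, v ≠ p → (v ∈ L.E s ↔ v ∈ K.E s ∧ ¬ a ⊆ insert v s) := by
        intro v hv
        have h3 : p ∉ insert v s := by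
          rw [Finset.mem_insert]
          rintro (h4 | h4)
          · exact hv h4.symm
          · exact h1 h4
        constructor
        · rintro ⟨h4, h5⟩
          have h6 := (St.mem_of_not hp ha h h3).1 h5
          exact ⟨⟨h4, h6.1⟩, h6.2⟩
        · rintro ⟨⟨h4, h5⟩, h6⟩
          exact ⟨h4, (St.mem_of_not hp ha h h3).2 ⟨h5, h6⟩⟩
      by_cases h3 : s ∪ a ∈ K.S
      · obtain ⟨x, hx, hxs⟩ := exists_miss ha hat
        have hsx : s ∪ a = insert x s := by
          symm
          apply Finset.eq_of_subset_of_card_le
          · intro y hy
            rw [Finset.mem_insert] at hy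
            rcases hy with rfl | hy
            · exact Finset.mem_union_right _ hx
            · exact Finset.mem_union_left _ hy
          · rw [Finset.card_insert_of_notMem hxs, hc]
            exact hle _ h3
        have hxE : x ∈ K.E s := ⟨hxs, by rw [← hsx]; exact h3⟩
        have hEE : L.E s = insert p (K.E s \ {x}) := by
          ext v
          by_cases hv : v = p
          · subst hv
            simp [hEp, h3]
          · rw [hEv v hv, Set.mem_insert_iff]
            simp only [hv, false_or, Set.mem_sdiff, Set.mem_singleton_iff]
            refine and_congr_right fun hvE => not_congr ?_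
            constructor
            · intro h4
              have := h4 hx
              rw [Finset.mem_insert] at this
              rcases this with h5 | h5
              · exact h5.symm
              · exact absurd h5 hxs
            · rintro rfl
              rw [← hsx]
              exact Finset.subset_union_right
        rw [hEE, Set.encard_insert_of_notMem (fun h' => hpE h'.1),
          Set.encard_sdiff_singleton_add_one hxE] at hE
        exact hE
      · have hEE : L.E s = K.E s := by
          ext v
          by_cases hv : v = p
          · subst hv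
            rw [hEp]
            exact ⟨fun h' => absurd h' h3, fun h' => absurd h' hpE⟩
          · rw [hEv v hv]
            constructor
            · exact fun h' => h'.1
            · intro h4
              refine ⟨h4, fun h5 => h3 ?_⟩
              refine K.down _ h4.2 _ ?_
              exact Finset.union_subset (Finset.subset_insert _ _) h5
        rw [← hEE, hE]

end star

/-! ### isomorphisms, links -/

theorem card_image_iso {K : Cx V} {f : V → W} (hf : Set.InjOn f {v | {v} ∈ K.S})
    {s : Finset V} (hs : s ∈ K.S) : (s.image f).card = s.card := by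
  apply Finset.card_image_of_injOn
  intro a ha b hb hab
  exact hf (K.down _ hs _ (Finset.singleton_subset_iff.2 ha))
    (K.down _ hs _ (Finset.singleton_subset_iff.2 hb)) hab

theorem mem_of_image {K : Cx V} {f : V → W} (hf : Set.InjOn f {v | {v} ∈ K.S})
    {s t : Finset V} (hs : s ∈ K.S) (ht : t ∈ K.S) (h : s.image f ⊆ t.image f) : s ⊆ t := by
  intro a ha
  have := h (Finset.mem_image_of_mem f ha)
  rw [Finset.mem_image] at this
  obtain ⟨b, hb, hab⟩ := this
  rw [← hf (K.down _ ht _ (Finset.singleton_subset_iff.2 hb))
    (K.down _ hs _ (Finset.singleton_subset_iff.2 ha)) hab]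
  exact hb

theorem iso_E {K : Cx V} {L : Cx W} {f : V → W} (hf : Set.InjOn f {v | {v} ∈ K.S})
    (h : L.S = (fun s => s.image f) '' K.S) {s : Finset V} (hs : s ∈ K.S) :
    (L.E (s.image f)).encard = (K.E s).encard := by
  have hinj : Set.InjOn f (K.E s) := by
    intro a ha b hb hab
    exact hf (K.down _ ha.2 _ (Finset.singleton_subset_iff.2 (Finset.mem_insert_self _ _)))
      (K.down _ hb.2 _ (Finset.singleton_subset_iff.2 (Finset.mem_insert_self _ _))) hab
  rw [← hinj.encard_image]
  congr 1
  ext w
  constructor
  · rintro ⟨h1, h2⟩
    rw [h] at h2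
    obtain ⟨t, ht, h3⟩ := h2
    simp only at h3
    have h4 : w ∈ t.image f := by rw [h3]; exact Finset.mem_insert_self _ _
    rw [Finset.mem_image] at h4
    obtain ⟨v, hv, rfl⟩ := h4
    have hvs : v ∉ s := fun h' => h1 (Finset.mem_image_of_mem f h')
    have hst : s ⊆ t := by
      apply mem_of_image hf hs ht
      rw [h3]
      exact Finset.subset_insert _ _
    have hins : insert v s ∈ K.S := K.down _ ht _ (Finset.insert_subset hv hst)
    exact ⟨v, ⟨hvs, hins⟩, rfl⟩
  · rintro ⟨v, ⟨h1, h2⟩, rfl⟩
    constructor
    · intro h3
      rw [Finset.mem_image] at h3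
      obtain ⟨u, hu, huv⟩ := h3
      have := hf (K.down _ hs _ (Finset.singleton_subset_iff.2 hu))
        (K.down _ h2 _ (Finset.singleton_subset_iff.2 (Finset.mem_insert_self _ _))) huv
      rw [this] at hu
      exact h1 hu
    · rw [h]
      exact ⟨insert v s, h2, Finset.image_insert _ _ _⟩

theorem Q.iso {K : Cx V} {L : Cx W} {f : V → W} (hf : Set.InjOn f {v | {v} ∈ K.S})
    (h : L.S = (fun s => s.image f) '' K.S) {n : ℕ} (hK : Q n K) : Q n L := by
  refine ⟨?_, ?_, ?_⟩
  · intro s hs
    rw [h] at hs ⊢
    obtain ⟨s, hs, rfl⟩ := hs
    obtain ⟨t, ht, hst, hc⟩ := hK.pure s hs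
    exact ⟨t.image f, ⟨t, ht, rfl⟩, Finset.image_subset_image hst, by
      rw [card_image_iso hf ht, hc]⟩
  · intro s hs
    rw [h] at hs
    obtain ⟨s, hs, rfl⟩ := hs
    simp only
    rw [card_image_iso hf hs]
    exact hK.le s hs
  · intro s hs hc
    have hs' := hs
    rw [h] at hs'
    obtain ⟨s, hs', rfl⟩ := hs'
    simp only at hc ⊢
    rw [iso_E hf h hs']
    rw [card_image_iso hf hs'] at hc
    exact hK.ridge s hs' hc

theorem Q.uniso {K : Cx V} {L : Cx W} {f : V → W} (hf : Set.InjOn f {v | {v} ∈ K.S})
    (h : L.S = (fun s => s.image f) '' K.S) {n : ℕ} (hL : Q n L) : Q n K := by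
  have hmem : ∀ {s}, s ∈ K.S → s.image f ∈ L.S := by
    intro s hs
    rw [h]; exact ⟨s, hs, rfl⟩
  refine ⟨?_, ?_, ?_⟩
  · intro s hs
    obtain ⟨t, ht, hst, hc⟩ := hL.pure _ (hmem hs)
    rw [h] at ht
    obtain ⟨t, ht, rfl⟩ := ht
    refine ⟨t, ht, mem_of_image hf hs ht hst, ?_⟩
    rw [← card_image_iso hf ht]
    exact hc
  · intro s hs
    rw [← card_image_iso hf hs]
    exact hL.le _ (hmem hs)
  · intro s hs hc
    rw [← iso_E hf h hs]
    apply hL.ridge _ (hmem hs)
    rw [card_image_iso hf hs]
    exact hc

theorem Q.step {n : ℕ} {X Y : Poly} (h : Step X Y) : Q n X.2 ↔ Q n Y.2 := by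
  cases h with
  | iso K L f hf h => exact ⟨fun h' => h'.iso hf h, fun h' => h'.uniso hf h⟩
  | star K L a p ha h0 hp h => exact ⟨fun h' => h'.star hp ha h, fun h' => h'.unstar hp ha h0 h⟩

theorem Q.pl {n : ℕ} {X Y : Poly} (h : PL X Y) : Q n X.2 ↔ Q n Y.2 := by
  induction h with
  | rel x y h => exact Q.step h
  | refl x => exact Iff.rfl
  | symm x y _ ih => exact ih.symm
  | trans x y z _ _ ih1 ih2 => exact ih1.trans ih2

theorem Q.link {n : ℕ} {K : Cx V} (hK : Q (n + 1) K) {v : V} (hv : {v} ∈ K.S) :
    Q n (K.link v) := by
  have hmem : ∀ {s}, s ∈ (K.link v).S ↔ (v ∉ s ∧ insert v s ∈ K.S) := by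
    intro s
    constructor
    · rintro (rfl | h)
      · exact ⟨by simp, by simpa using hv⟩
      · exact h
    · exact Or.inr
  refine ⟨?_, ?_, ?_⟩
  · intro s hs
    obtain ⟨h1, h2⟩ := hmem.1 hs
    obtain ⟨t, ht, hst, hc⟩ := hK.pure _ h2
    have hvt : v ∈ t := hst (Finset.mem_insert_self _ _)
    refine ⟨t.erase v, hmem.2 ⟨Finset.notMem_erase _ _, by rw [Finset.insert_erase hvt]; exact ht⟩,
      ?_, ?_⟩
    · intro x hx
      rw [Finset.mem_erase]
      refine ⟨?_, hst (Finset.mem_insert_of_mem hx)⟩
      rintro rfl
      exact h1 hx
    · rw [Finset.card_erase_of_mem hvt, hc]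
      rfl
  · intro s hs
    obtain ⟨h1, h2⟩ := hmem.1 hs
    have := hK.le _ h2
    rw [Finset.card_insert_of_notMem h1] at this
    omega
  · intro s hs hc
    obtain ⟨h1, h2⟩ := hmem.1 hs
    have h3 := hK.ridge _ h2 (by rw [Finset.card_insert_of_notMem h1]; omega)
    rw [← h3]
    congr 1
    ext w
    unfold Cx.E
    simp only [Set.mem_ofPred_eq, hmem, Finset.mem_insert, not_or]
    rw [Finset.insert_comm]
    constructor
    · rintro ⟨h4, ⟨h5, h6⟩, h7⟩
      exact ⟨⟨fun h => h5 h.symm, h4⟩, h7⟩
    · rintro ⟨⟨h4, h5⟩, h6⟩
      exact ⟨h5, ⟨fun h => h4 h.symm, h1⟩, h6⟩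

end Pool.Agent.W604.FT
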