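import Mathlib
import Pool.Agent.W604.T.Q

set_option autoImplicit false
set_option linter.unusedVariables false
set_option linter.unusedSectionVars false

/-!
Closed pseudomanifolds have finite type.
-/

namespace Pool.Agent.W604.FT

open Classical

variable {V W : Type}

theorem fin_step {X Y : Poly} (h : Step X Y) : X.2.S.Finite ↔ Y.2.S.Finite := by
  cases h with
  | iso K L f hf h =>
    simp only
    rw [h, Set.finite_image_iff]
    intro s hs t ht hst
    simp only at hst
    exact Finset.Subset.antisymm (mem_of_image hf hs ht hst.subset)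
      (mem_of_image hf ht hs hst.symm.subset)
  | star K L a p ha h0 hp h =>
    simp only
    constructor
    · intro hf
      refine (hf.union (hf.image (fun u => insert p u))).subset ?_
      intro s hs
      rcases St.cases (s := s) hp ha h with h1 | ⟨u, h1, rfl⟩
      · exact Or.inl ((St.mem_of_not hp ha h h1).1 hs).1
      · have h2 := (St.insert_mem hp ha h h1).1 hs
        exact Or.inr ⟨u, K.down _ h2.1 _ Finset.subset_union_left, rfl⟩
    · intro hf
      obtain ⟨x, hx⟩ := h0
      refine (hf.union (hf.image (fun u => insert x (u.erase p)))).subset ?_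
      intro s hs
      have hps := notMem_of hp hs
      by_cases hat : a ⊆ s
      · right
        have hpu : p ∉ s.erase x := fun h' => hps (Finset.mem_of_mem_erase h')
        refine ⟨insert p (s.erase x), (St.insert_mem hp ha h hpu).2 ⟨?_, ?_⟩, ?_⟩
        · refine K.down _ hs _ ?_
          exact Finset.union_subset (Finset.erase_subset _ _) hat
        · intro h'
          exact Finset.notMem_erase x s (h' hx)
        · simp only
          rw [Finset.erase_insert hpu, Finset.insert_erase (hat hx)]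
      · exact Or.inl ((St.mem_of_not hp ha h hps).2 ⟨hs, hat⟩)

theorem fin_pl {X Y : Poly} (h : PL X Y) : X.2.S.Finite ↔ Y.2.S.Finite := by
  induction h with
  | rel x y h => exact fin_step h
  | refl x => exact Iff.rfl
  | symm x y _ ih => exact ih.symm
  | trans x y z _ _ ih1 ih2 => exact ih1.trans ih2

theorem fin_link {K : Cx V} (h : K.S.Finite) (v : V) : (K.link v).S.Finite := by
  refine ((h.image (fun s => s.erase v)).union (Set.finite_singleton ∅)).subset ?_
  rintro s (rfl | ⟨h1, h2⟩)
  · exact Or.inr rfl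
  · exact Or.inl ⟨_, h2, Finset.erase_insert h1⟩

theorem tyLt_of {One : Poly → Prop} {m n : ℕ} {K : Poly} (h : Ty One m K) (hmn : m < n) :
    TyLt One n K := by
  induction n with
  | zero => omega
  | succ n ih =>
    rcases Nat.lt_succ_iff_lt_or_eq.1 hmn with h1 | rfl
    · exact Or.inl (ih h1)
    · exact Or.inr h

theorem step_iso (K : Cx V) (L : Cx W) (f : V → W) (hf : Set.InjOn f {v | {v} ∈ K.S})
    (h : ∀ t, t ∈ L.S ↔ ∃ s ∈ K.S, ∀ w, w ∈ t ↔ ∃ v ∈ s, f v = w) : Step ⟨V, K⟩ ⟨W, L⟩ := by
  refine Step.iso K L f hf ?_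
  ext t
  rw [h]
  constructor
  · rintro ⟨s, hs, h2⟩
    refine ⟨s, hs, ?_⟩
    ext w
    rw [Finset.mem_image, h2]
  · rintro ⟨s, hs, rfl⟩
    refine ⟨s, hs, fun w => ?_⟩
    simp only
    rw [Finset.mem_image]

theorem ty0_of_Q0 (One : Poly → Prop) {K : Cx V} (h : Q 0 K) : Ty One 0 ⟨V, K⟩ := by
  refine ⟨0, Relation.EqvGen.rel _ _ (step_iso K (bdry 0) (fun _ => 0) ?_ ?_)⟩
  · intro a ha
    have := h.le _ ha
    simp at this
  · intro t
    have h1 : ∀ s, s ∈ K.S ↔ s = ∅ := by
      intro s
      constructor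
      · intro hs
        have := h.le _ hs
        exact Finset.card_eq_zero.1 (by omega)
      · rintro rfl
        exact K.empty_mem
    show t ≠ Finset.univ ↔ _
    constructor
    · intro h2
      refine ⟨∅, K.empty_mem, fun w => ?_⟩
      have : w ∉ t := by
        intro hw
        apply h2
        ext y
        have : y = w := Subsingleton.elim (α := Fin 1) _ _
        simp only [this, hw, Finset.mem_univ]
      simp [this]
    · rintro ⟨s, hs, h2⟩ rfl
      rw [h1] at hs
      subst hs
      have := (h2 0).1 (Finset.mem_univ _)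
      simp at this

theorem ty0_of_Q1 (One : Poly → Prop) {K : Cx V} (h : Q 1 K) : Ty One 0 ⟨V, K⟩ := by
  have h1 := h.ridge ∅ K.empty_mem (by simp)
  rw [Set.encard_eq_two] at h1
  obtain ⟨a, b, hab, h2⟩ := h1
  have hv : ∀ v, {v} ∈ K.S ↔ (v = a ∨ v = b) := by
    intro v
    have : v ∈ K.E ∅ ↔ {v} ∈ K.S := by
      unfold Cx.E
      simp
    rw [← this, h2]
    simp
  have hK : ∀ t, t ∈ K.S ↔ t = ∅ ∨ t = {a} ∨ t = {b} := by
    intro t
    constructor
    · intro ht
      have h3 := h.le _ ht
      rcases Nat.lt_or_ge t.card 1 with h4 | h4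
      · left; exact Finset.card_eq_zero.1 (by omega)
      · right
        obtain ⟨v, rfl⟩ := Finset.card_eq_one.1 (le_antisymm h3 h4)
        rcases (hv v).1 ht with rfl | rfl
        · exact Or.inl rfl
        · exact Or.inr rfl
    · rintro (rfl | rfl | rfl)
      · exact K.empty_mem
      · exact (hv _).2 (Or.inl rfl)
      · exact (hv _).2 (Or.inr rfl)
  refine ⟨1, Relation.EqvGen.rel _ _ (step_iso K (bdry 1) (fun v => if v = a then 0 else 1) ?_ ?_)⟩
  · intro x hx y hy hxy
    have hx' := (hv x).1 hx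
    have hy' := (hv y).1 hy
    rcases hx' with rfl | rfl <;> rcases hy' with rfl | rfl
    · rfl
    · simp [Ne.symm hab] at hxy
    · simp [Ne.symm hab] at hxy
    · rfl
  · intro t
    have h3 : t ∈ (bdry 1).S ↔ (t = ∅ ∨ t = {0} ∨ t = {1}) := by
      show t ≠ Finset.univ ↔ _
      revert t
      decide
    rw [h3]
    constructor
    · rintro (rfl | rfl | rfl)
      · exact ⟨∅, K.empty_mem, by simp⟩
      · refine ⟨{a}, (hK _).2 (Or.inr (Or.inl rfl)), fun w => ?_⟩
        simp [eq_comm]
      · refine ⟨{b}, (hK _).2 (Or.inr (Or.inr rfl)), fun w => ?_⟩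
        simp [hab, eq_comm]
    · rintro ⟨s, hs, h4⟩
      rcases (hK s).1 hs with rfl | rfl | rfl
      · left
        ext w
        rw [h4]; simp
      · right; left
        ext w
        rw [h4]; simp [eq_comm]
      · right; right
        ext w
        rw [h4]; simp [hab, eq_comm]

theorem ty_of_Q (One : Poly → Prop) (n : ℕ) : ∀ (K : Poly), Q (n + 2) K.2 → K.2.S.Finite →
    Ty One (n + 2) K := by
  induction n with
  | zero =>
    intro K hK hf
    refine ⟨hf, fun L hL v hv => Or.inl ?_⟩
    have h1 := ((Q.pl hL).1 hK).link hv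
    refine ⟨⟨_, L.2.link v⟩, tyLt_of (ty0_of_Q1 One h1) (by omega), ?_, 0,
      Relation.EqvGen.refl _⟩
    obtain ⟨t, ht, _, hc⟩ := h1.pure ∅ (Cx.empty_mem _)
    obtain ⟨x, rfl⟩ := Finset.card_eq_one.1 hc
    exact ⟨x, ht⟩
  | succ n ih =>
    intro K hK hf
    refine ⟨hf, fun L hL v hv => Or.inl ?_⟩
    have h1 := ((Q.pl hL).1 hK).link hv
    have h2 := ih ⟨_, L.2.link v⟩ h1 (fin_link ((fin_pl hL).1 hf) v)
    refine ⟨⟨_, L.2.link v⟩, tyLt_of h2 (by omega), ?_, 0, Relation.EqvGen.refl _⟩
    obtain ⟨t, ht, _, hc⟩ := h1.pure ∅ (Cx.empty_mem _)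
    have : t.Nonempty := Finset.card_pos.1 (by omega)
    obtain ⟨x, hx⟩ := this
    exact ⟨x, Cx.down _ _ ht _ (Finset.singleton_subset_iff.2 hx)⟩

theorem exists_ty (One : Poly → Prop) {n : ℕ} {K : Poly} (h : Q n K.2) (hf : K.2.S.Finite) :
    ∃ m, Ty One m K := by
  rcases n with _ | _ | n
  · exact ⟨0, ty0_of_Q0 One h⟩
  · exact ⟨0, ty0_of_Q1 One h⟩
  · exact ⟨n + 2, ty_of_Q One n K h hf⟩

end Pool.Agent.W604.FT
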