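import Mathlib
import Pool.Agent.W604.T.TQ

set_option autoImplicit false
set_option linter.unusedVariables false
set_option linter.unusedSectionVars false

/-!
Order complexes of thin graded partially ordered sets are closed pseudomanifolds.
-/

namespace Pool.Agent.W604.FT

open Classical

section

variable {R P : Type} [PartialOrder R] [BoundedOrder R] [PartialOrder P] {ρ : R → ℕ} {N : ℕ}
  {ι : P ↪o R}

theorem rank_inj (hm : ∀ x y : R, x < y → ρ x < ρ y) {s : Finset P}
    (hs : IsChain (· ≤ ·) (s : Set P)) {a b : P} (ha : a ∈ s) (hb : b ∈ s)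
    (h : ρ (ι a) = ρ (ι b)) : a = b := by
  by_contra hab
  rcases hs ha hb hab with h1 | h1
  · have := hm _ _ (ι.lt_iff_lt.2 (lt_of_le_of_ne h1 hab))
    omega
  · have := hm _ _ (ι.lt_iff_lt.2 (lt_of_le_of_ne h1 (Ne.symm hab)))
    omega

variable (hb : ρ ⊥ = 0) (ht : ρ ⊤ = N + 1) (hm : ∀ x y : R, x < y → ρ x < ρ y)
  (hι : ∀ r, r ∈ Set.range ι ↔ r ≠ ⊥ ∧ r ≠ ⊤)

include hb ht hm hι

theorem rank_pos (a : P) : 1 ≤ ρ (ι a) ∧ ρ (ι a) ≤ N := by
  have h := (hι (ι a)).1 ⟨a, rfl⟩
  have h1 := hm _ _ (bot_lt_iff_ne_bot.2 h.1)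
  have h2 := hm _ _ (lt_top_iff_ne_top.2 h.2)
  omega

theorem rank_image {s : Finset P} (hs : IsChain (· ≤ ·) (s : Set P)) :
    (s.image (fun a => ρ (ι a))).card = s.card ∧
      s.image (fun a => ρ (ι a)) ⊆ Finset.Icc 1 N := by
  constructor
  · apply Finset.card_image_of_injOn
    intro a ha b hb' hab
    exact rank_inj hm hs ha hb' hab
  · intro j hj
    rw [Finset.mem_image] at hj
    obtain ⟨a, _, rfl⟩ := hj
    rw [Finset.mem_Icc]
    exact rank_pos hb ht hm hι a

/-- the gap around a missing rank -/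
theorem gap {s : Finset P} (hs : IsChain (· ≤ ·) (s : Set P)) {j : ℕ} (hj1 : 1 ≤ j) (hjN : j ≤ N)
    (hj : ∀ a ∈ s, ρ (ι a) ≠ j) :
    ∃ x y : R, x < y ∧ ρ x < j ∧ j < ρ y ∧ (x = ⊥ ∨ ∃ a ∈ s, x = ι a) ∧
      (y = ⊤ ∨ ∃ a ∈ s, y = ι a) ∧ (∀ a ∈ s, ρ (ι a) < j → ι a ≤ x) ∧
      (∀ a ∈ s, j < ρ (ι a) → y ≤ ι a) := by
  let T : Finset R := insert ⊥ (insert ⊤ (s.image ι))
  have hTmem : ∀ r, r ∈ T ↔ r = ⊥ ∨ r = ⊤ ∨ ∃ a ∈ s, r = ι a := by
    intro r
    simp only [T, Finset.mem_insert, Finset.mem_image, eq_comm]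
  have hcomp : ∀ r ∈ T, ∀ r' ∈ T, r ≤ r' ∨ r' ≤ r := by
    intro r hr r' hr'
    rw [hTmem] at hr hr'
    rcases hr with rfl | rfl | ⟨a, ha, rfl⟩
    · exact Or.inl bot_le
    · exact Or.inr le_top
    · rcases hr' with rfl | rfl | ⟨b, hb', rfl⟩
      · exact Or.inr bot_le
      · exact Or.inl le_top
      · by_cases hab : a = b
        · subst hab; exact Or.inl le_rfl
        · rcases hs ha hb' hab with h | h
          · exact Or.inl (ι.le_iff_le.2 h)
          · exact Or.inr (ι.le_iff_le.2 h)
  have hlt : ∀ r ∈ T, ∀ r' ∈ T, ρ r < ρ r' → r < r' := by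
    intro r hr r' hr' h
    rcases hcomp r hr r' hr' with h1 | h1
    · refine lt_of_le_of_ne h1 ?_
      rintro rfl
      omega
    · exfalso
      rcases eq_or_lt_of_le h1 with h2 | h2
      · rw [h2] at h; omega
      · have := hm _ _ h2; omega
  obtain ⟨x, hx, hxmax⟩ := Finset.exists_max_image (T.filter (fun r => ρ r < j)) ρ
    ⟨⊥, by rw [Finset.mem_filter, hTmem, hb]; exact ⟨Or.inl rfl, hj1⟩⟩
  obtain ⟨y, hy, hymin⟩ := Finset.exists_min_image (T.filter (fun r => j < ρ r)) ρ
    ⟨⊤, by rw [Finset.mem_filter, hTmem, ht]; exact ⟨Or.inr (Or.inl rfl), by omega⟩⟩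
  rw [Finset.mem_filter] at hx hy
  refine ⟨x, y, hlt x hx.1 y hy.1 (lt_trans hx.2 hy.2), hx.2, hy.2, ?_, ?_, ?_, ?_⟩
  · rcases (hTmem x).1 hx.1 with h | h | h
    · exact Or.inl h
    · exfalso; rw [h, ht] at hx; omega
    · exact Or.inr h
  · rcases (hTmem y).1 hy.1 with h | h | h
    · exfalso; rw [h, hb] at hy; omega
    · exact Or.inl h
    · exact Or.inr h
  · intro a ha h
    have haT : ι a ∈ T := (hTmem _).2 (Or.inr (Or.inr ⟨a, ha, rfl⟩))
    have h1 := hxmax (ι a) (Finset.mem_filter.2 ⟨haT, h⟩)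
    rcases hcomp _ haT x hx.1 with h2 | h2
    · exact h2
    · rcases eq_or_lt_of_le h2 with h3 | h3
      · rw [h3]
      · have := hm _ _ h3; omega
  · intro a ha h
    have haT : ι a ∈ T := (hTmem _).2 (Or.inr (Or.inr ⟨a, ha, rfl⟩))
    have h1 := hymin (ι a) (Finset.mem_filter.2 ⟨haT, h⟩)
    rcases hcomp _ haT y hy.1 with h2 | h2
    · rcases eq_or_lt_of_le h2 with h3 | h3
      · rw [h3]
      · have := hm _ _ h3; omega
    · exact h2

theorem Q_ordCx (h1 : ∀ x y : R, x < y → ρ x + 2 ≤ ρ y → ∃ z, x < z ∧ z < y)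
    (h2 : ∀ x y : R, x < y → ρ x + 2 = ρ y → {z | x < z ∧ z < y}.encard = 2) :
    Q N (ordCx P) := by
  have hle : ∀ s ∈ (ordCx P).S, s.card ≤ N := by
    intro s hs
    obtain ⟨h3, h4⟩ := rank_image hb ht hm hι hs
    rw [← h3]
    calc _ ≤ (Finset.Icc 1 N).card := Finset.card_le_card h4
      _ = N := by simp
  refine ⟨?_, hle, ?_⟩
  · have key : ∀ m : ℕ, ∀ s ∈ (ordCx P).S, N - s.card = m →
        ∃ t ∈ (ordCx P).S, s ⊆ t ∧ t.card = N := by
      intro m
      induction m with
      | zero =>
        intro s hs hc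
        exact ⟨s, hs, Finset.Subset.refl _, by have := hle s hs; omega⟩
      | succ m ih =>
        intro s hs hc
        obtain ⟨h3, h4⟩ := rank_image hb ht hm hι hs
        have h5 : ∃ j ∈ Finset.Icc 1 N, j ∉ s.image (fun a => ρ (ι a)) := by
          by_contra h
          push Not at h
          have := Finset.card_le_card (show Finset.Icc 1 N ⊆ _ from h)
          rw [h3] at this
          simp at this
          omega
        obtain ⟨j, hj1, hj2⟩ := h5
        rw [Finset.mem_Icc] at hj1
        have hj3 : ∀ a ∈ s, ρ (ι a) ≠ j := by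
          intro a ha h
          exact hj2 (Finset.mem_image.2 ⟨a, ha, h⟩)
        obtain ⟨x, y, hxy, hxj, hjy, _, _, hx, hy⟩ := gap hb ht hm hι hs hj1.1 hj1.2 hj3
        obtain ⟨r, hxr, hry⟩ := h1 x y hxy (by omega)
        obtain ⟨z, rfl⟩ := (hι r).2 ⟨(lt_of_le_of_lt bot_le hxr).ne', (lt_of_lt_of_le hry le_top).ne⟩
        have hzs : z ∉ s := by
          intro hz
          rcases lt_or_gt_of_ne (hj3 z hz) with h | h
          · exact absurd (hx z hz h) (not_le_of_gt hxr)
          · exact absurd (hy z hz h) (not_le_of_gt hry)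
        have hch : insert z s ∈ (ordCx P).S := by
          show IsChain _ _
          rw [Finset.coe_insert]
          refine IsChain.insert hs ?_
          intro w hw _
          rcases lt_or_gt_of_ne (hj3 w hw) with h | h
          · right
            exact ι.le_iff_le.1 (le_trans (hx w hw h) hxr.le)
          · left
            exact ι.le_iff_le.1 (le_trans hry.le (hy w hw h))
        obtain ⟨t, ht1, ht2, ht3⟩ := ih _ hch (by rw [Finset.card_insert_of_notMem hzs]; omega)
        exact ⟨t, ht1, (Finset.subset_insert _ _).trans ht2, ht3⟩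
    intro s hs
    exact key _ s hs rfl
  · intro s hs hc
    obtain ⟨h3, h4⟩ := rank_image hb ht hm hι hs
    have h5 : ∃ j ∈ Finset.Icc 1 N, j ∉ s.image (fun a => ρ (ι a)) := by
      by_contra h
      push Not at h
      have := Finset.card_le_card (show Finset.Icc 1 N ⊆ _ from h)
      rw [h3] at this
      simp at this
      omega
    obtain ⟨j, hj1, hj2⟩ := h5
    have hins : insert j (s.image (fun a => ρ (ι a))) = Finset.Icc 1 N := by
      apply Finset.eq_of_subset_of_card_le (Finset.insert_subset hj1 h4)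
      rw [Finset.card_insert_of_notMem hj2, h3]
      simp
      omega
    rw [Finset.mem_Icc] at hj1
    have hj3 : ∀ a ∈ s, ρ (ι a) ≠ j := by
      intro a ha h
      exact hj2 (Finset.mem_image.2 ⟨a, ha, h⟩)
    have hall : ∀ i, 1 ≤ i → i ≤ N → i ≠ j → ∃ a ∈ s, ρ (ι a) = i := by
      intro i hi1 hi2 hij
      have : i ∈ insert j (s.image (fun a => ρ (ι a))) := by
        rw [hins, Finset.mem_Icc]; exact ⟨hi1, hi2⟩
      rw [Finset.mem_insert, Finset.mem_image] at this
      rcases this with h | h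
      · exact absurd h hij
      · exact h
    obtain ⟨x, y, hxy, hxj, hjy, hx0, hy0, hx, hy⟩ := gap hb ht hm hι hs hj1.1 hj1.2 hj3
    have hρx : ρ x + 1 = j := by
      rcases Nat.eq_or_lt_of_le hj1.1 with h | h
      · omega
      · obtain ⟨a, ha, h6⟩ := hall (j - 1) (by omega) (by omega) (by omega)
        have h7 := hx a ha (by omega)
        rcases eq_or_lt_of_le h7 with h8 | h8
        · rw [h8] at h6; omega
        · have := hm _ _ h8; omega
    have hρy : ρ y = j + 1 := by
      rcases Nat.eq_or_lt_of_le hj1.2 with h | h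
      · rcases hy0 with rfl | ⟨a, ha, rfl⟩
        · omega
        · have := (rank_pos hb ht hm hι a).2
          omega
      · obtain ⟨a, ha, h6⟩ := hall (j + 1) (by omega) (by omega) (by omega)
        have h7 := hy a ha (by omega)
        rcases eq_or_lt_of_le h7 with h8 | h8
        · rw [← h8] at h6; omega
        · have := hm _ _ h8; omega
    have h6 := h2 x y hxy (by omega)
    have h7 : ι '' ((ordCx P).E s) = {z | x < z ∧ z < y} := by
      ext r
      constructor
      · rintro ⟨z, ⟨hz1, hz2⟩, rfl⟩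
        have hz2' : IsChain (· ≤ ·) ((insert z s : Finset P) : Set P) := hz2
        have hrank : ρ (ι z) = j := by
          by_contra hne
          obtain ⟨h8, h9⟩ := rank_pos hb ht hm hι z
          obtain ⟨a, ha, h10⟩ := hall _ h8 h9 hne
          have := rank_inj (ι := ι) hm hz2' (Finset.mem_insert_of_mem ha)
            (Finset.mem_insert_self _ _) h10
          rw [this] at ha
          exact hz1 ha
        have hcmp : ∀ a ∈ s, (ρ (ι a) < j → ι a < ι z) ∧ (j < ρ (ι a) → ι z < ι a) := by
          intro a ha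
          have hne : a ≠ z := by rintro rfl; exact hz1 ha
          constructor
          · intro h
            rcases hz2' (Finset.mem_insert_of_mem ha) (Finset.mem_insert_self _ _) hne with h8 | h8
            · exact ι.lt_iff_lt.2 (lt_of_le_of_ne h8 hne)
            · have := hm _ _ (ι.lt_iff_lt.2 (lt_of_le_of_ne h8 (Ne.symm hne)))
              omega
          · intro h
            rcases hz2' (Finset.mem_insert_of_mem ha) (Finset.mem_insert_self _ _) hne with h8 | h8
            · have := hm _ _ (ι.lt_iff_lt.2 (lt_of_le_of_ne h8 hne))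
              omega
            · exact ι.lt_iff_lt.2 (lt_of_le_of_ne h8 (Ne.symm hne))
        constructor
        · rcases hx0 with rfl | ⟨a, ha, rfl⟩
          · exact bot_lt_iff_ne_bot.2 ((hι _).1 ⟨z, rfl⟩).1
          · exact (hcmp a ha).1 hxj
        · rcases hy0 with rfl | ⟨a, ha, rfl⟩
          · exact lt_top_iff_ne_top.2 ((hι _).1 ⟨z, rfl⟩).2
          · exact (hcmp a ha).2 hjy
      · rintro ⟨hxr, hry⟩
        obtain ⟨z, rfl⟩ := (hι r).2 ⟨(lt_of_le_of_lt bot_le hxr).ne',
          (lt_of_lt_of_le hry le_top).ne⟩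
        refine ⟨z, ⟨?_, ?_⟩, rfl⟩
        · intro hz
          rcases lt_or_gt_of_ne (hj3 z hz) with h | h
          · exact absurd (hx z hz h) (not_le_of_gt hxr)
          · exact absurd (hy z hz h) (not_le_of_gt hry)
        · have h8 : IsChain (· ≤ ·) ((insert z s : Finset P) : Set P) := by
            rw [Finset.coe_insert]
            refine IsChain.insert hs ?_
            intro w hw _
            rcases lt_or_gt_of_ne (hj3 w hw) with h | h
            · right
              exact ι.le_iff_le.1 (le_trans (hx w hw h) hxr.le)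
            · left
              exact ι.le_iff_le.1 (le_trans hry.le (hy w hw h))
          exact h8
    rw [← h6, ← h7]
    exact (ι.injective.encard_image _).symm

end

end Pool.Agent.W604.FT
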