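import Mathlib
import Pool.Agent.W604.T.Grad

set_option autoImplicit false
set_option linter.unusedVariables false
set_option linter.unusedSectionVars false

/-!
A criterion for the order complex of a preorder.
-/

namespace Pool.Agent.W604.FT

open Classical

section

variable {A : Type} [Preorder A] {N : ℕ} {cd : A → Finset ℕ}

/-- the quotient -/
abbrev AP (A : Type) [Preorder A] : Type := Antisymmetrization A (· ≤ ·)

/-- the class -/
abbrev mkA (a : A) : AP A := toAntisymmetrization (· ≤ ·) a

/-- with bottom and top -/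
abbrev RR (A : Type) [Preorder A] : Type := WithBot (WithTop (AP A))

/-- an element -/
def ia (a : A) : RR A := ((mkA a : WithTop (AP A)) : WithBot (WithTop (AP A)))

theorem ia_le {a b : A} : ia a ≤ ia b ↔ a ≤ b := by
  unfold ia
  rw [WithBot.coe_le_coe, WithTop.coe_le_coe]
  exact toAntisymmetrization_le_toAntisymmetrization_iff

theorem ia_lt {a b : A} : ia a < ia b ↔ a < b := by
  rw [lt_iff_le_not_ge, ia_le, ia_le, ← lt_iff_le_not_ge]

theorem ia_bot (a : A) : (⊥ : RR A) < ia a := WithBot.bot_lt_coe _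
theorem ia_top (a : A) : ia a < (⊤ : RR A) := by
  unfold ia
  have : (⊤ : RR A) = ((⊤ : WithTop (AP A)) : WithBot (WithTop (AP A))) := rfl
  rw [this, WithBot.coe_lt_coe]
  exact WithTop.coe_lt_top _

theorem RR_cases (r : RR A) : r = ⊥ ∨ r = ⊤ ∨ ∃ a, r = ia a := by
  induction r using WithBot.recBotCoe with
  | bot => exact Or.inl rfl
  | coe r =>
    induction r using WithTop.recTopCoe with
    | top => exact Or.inr (Or.inl rfl)
    | coe p =>
      induction p using Antisymmetrization.ind with
      | _ a => exact Or.inr (Or.inr ⟨a, rfl⟩)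

variable (hcd : ∀ a b : A, a ≤ b → cd a ⊆ cd b)

/-- the rank -/
noncomputable def rk (N : ℕ) (cd : A → Finset ℕ) (hcd : ∀ a b : A, a ≤ b → cd a ⊆ cd b) :
    RR A → ℕ :=
  WithBot.recBotCoe 0 (WithTop.recTopCoe (N + 1) (fun p : AP A => Quotient.liftOn' p
    (fun a => (cd a).card) (fun a b h => by
      have h1 : a ≤ b ∧ b ≤ a := h
      exact congrArg Finset.card (Finset.Subset.antisymm (hcd _ _ h1.1) (hcd _ _ h1.2)))))

theorem rk_bot : rk N cd hcd ⊥ = 0 := rfl
theorem rk_top : rk N cd hcd ⊤ = N + 1 := rfl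
theorem rk_ia (a : A) : rk N cd hcd (ia a) = (cd a).card := rfl

theorem two_of (S : Finset ℕ) {T : Finset ℕ} (hST : S ⊆ T) (h : S.card + 2 = T.card) :
    ∃ i j, i ≠ j ∧ i ∉ S ∧ j ∉ S ∧ i ∈ T ∧ j ∈ T ∧ ∀ U, S ⊂ U → U ⊂ T →
      U = insert i S ∨ U = insert j S := by
  have h1 : (T \ S).card = 2 := by
    rw [Finset.card_sdiff_of_subset hST]
    omega
  obtain ⟨i, j, hij, h2⟩ := Finset.card_eq_two.1 h1
  have hi : i ∈ T \ S := by rw [h2]; simp
  have hj : j ∈ T \ S := by rw [h2]; simp
  rw [Finset.mem_sdiff] at hi hj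
  refine ⟨i, j, hij, hi.2, hj.2, hi.1, hj.1, fun U hU1 hU2 => ?_⟩
  have h3 := Finset.card_lt_card hU1
  have h4 := Finset.card_lt_card hU2
  have h5 : (U \ S).card = 1 := by
    rw [Finset.card_sdiff_of_subset hU1.1]
    omega
  obtain ⟨x, hx⟩ := Finset.card_eq_one.1 h5
  have hU : U = insert x S := by
    ext y
    rw [Finset.mem_insert]
    constructor
    · intro hy
      by_cases hyS : y ∈ S
      · exact Or.inr hyS
      · left
        have : y ∈ U \ S := Finset.mem_sdiff.2 ⟨hy, hyS⟩
        rw [hx] at this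
        exact Finset.mem_singleton.1 this
    · rintro (rfl | hy)
      · have : y ∈ U \ S := by rw [hx]; simp
        exact (Finset.mem_sdiff.1 this).1
      · exact hU1.1 hy
  have hxT : x ∈ T \ S := by
    have : x ∈ U \ S := by rw [hx]; simp
    rw [Finset.mem_sdiff] at this ⊢
    exact ⟨hU2.1 this.1, this.2⟩
  rw [h2, Finset.mem_insert, Finset.mem_singleton] at hxT
  rcases hxT with rfl | rfl
  · exact Or.inl hU
  · exact Or.inr hU

variable (hne : ∀ a, (cd a).Nonempty) (hN : ∀ a, (cd a).card ≤ N)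
  (hinj : ∀ a b c : A, a ≤ c → b ≤ c → cd a ⊆ cd b → a ≤ b)
  (hex : ∀ (c : A) (S : Finset ℕ), S.Nonempty → S ⊆ cd c → ∃ a, a ≤ c ∧ cd a = S)

include hcd hinj in
theorem cd_lt {a b : A} (h : a < b) : cd a ⊂ cd b := by
  refine lt_of_le_of_ne (hcd _ _ h.le) fun he => ?_
  exact not_le_of_gt h (hinj _ _ b le_rfl h.le he.symm.subset)

include hcd hne hN hinj hex in
theorem Q_pre
    (hup : ∀ a, (cd a).card < N → ∃ b, a < b)
    (hup2 : ∀ a, (cd a).card + 1 = N → ∃ b1 b2, a < b1 ∧ a < b2 ∧ ¬ b1 ≤ b2 ∧
      ∀ b, a < b → b ≤ b1 ∨ b ≤ b2)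
    (hbot : 1 ≤ N → Nonempty A)
    (hbot2 : N = 1 → ∃ b1 b2 : A, ¬ b1 ≤ b2 ∧ ∀ b, b ≤ b1 ∨ b ≤ b2) :
    Q N (ordCx (AP A)) := by
  have hlt : ∀ {a b : A}, a < b → (cd a).card < (cd b).card := fun h =>
    Finset.card_lt_card (cd_lt hcd hinj h)
  have hm : ∀ x y : RR A, x < y → rk N cd hcd x < rk N cd hcd y := by
    intro x y hxy
    rcases RR_cases x with rfl | rfl | ⟨a, rfl⟩
    · rcases RR_cases y with rfl | rfl | ⟨b, rfl⟩
      · exact absurd hxy (lt_irrefl _)
      · rw [rk_bot, rk_top]; omega
      · rw [rk_bot, rk_ia]; exact Finset.card_pos.2 (hne b)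
    · exact absurd hxy not_top_lt
    · rcases RR_cases y with rfl | rfl | ⟨b, rfl⟩
      · exact absurd hxy not_lt_bot
      · rw [rk_ia, rk_top]; have := hN a; omega
      · rw [rk_ia, rk_ia]; exact hlt (ia_lt.1 hxy)
  let ι : AP A ↪o RR A := OrderEmbedding.ofMapLEIff
    (fun p : AP A => ((p : WithTop (AP A)) : WithBot (WithTop (AP A)))) (fun a b => by
      rw [WithBot.coe_le_coe, WithTop.coe_le_coe])
  have hι : ∀ r, r ∈ Set.range ι ↔ r ≠ ⊥ ∧ r ≠ ⊤ := by
    intro r
    constructor
    · rintro ⟨p, rfl⟩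
      induction p using Antisymmetrization.ind with
      | _ a => exact ⟨(ia_bot a).ne', (ia_top a).ne⟩
    · rintro ⟨h1, h2⟩
      rcases RR_cases r with rfl | rfl | ⟨a, rfl⟩
      · exact absurd rfl h1
      · exact absurd rfl h2
      · exact ⟨mkA a, rfl⟩
  -- intervals below an element
  have low1 : ∀ (b : A) (S : Finset ℕ), S ⊆ cd b → S.card + 2 ≤ (cd b).card →
      ∃ a, a < b ∧ S ⊂ cd a := by
    intro b S hS hc
    obtain ⟨T, hT1, hT2, hT3⟩ := Finset.exists_subsuperset_card_eq hS
      (n := S.card + 1) (by omega) (by omega)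
    obtain ⟨a, ha1, ha2⟩ := hex b T (Finset.card_pos.1 (by omega)) hT2
    refine ⟨a, lt_of_le_not_ge ha1 (fun h => ?_), ?_⟩
    · have := Finset.card_le_card (hcd _ _ h)
      rw [ha2] at this
      omega
    · rw [ha2]
      refine lt_of_le_of_ne hT1 ?_
      rintro rfl
      omega
  have low2 : ∀ (x : RR A) (b : A) (S : Finset ℕ), S ⊆ cd b → S.card + 2 = (cd b).card →
      (∀ a, a ≤ b → (x < ia a ↔ S ⊂ cd a)) → {z | x < z ∧ z < ia b}.encard = 2 := by
    intro x b S hS hc hx
    obtain ⟨i, j, hij, hi, hj, hiT, hjT, hU⟩ := two_of S hS hc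
    obtain ⟨a1, ha1, ha1'⟩ := hex b (insert i S) (Finset.insert_nonempty _ _)
      (Finset.insert_subset hiT hS)
    obtain ⟨a2, ha2, ha2'⟩ := hex b (insert j S) (Finset.insert_nonempty _ _)
      (Finset.insert_subset hjT hS)
    have hlt' : ∀ (a : A) (i : ℕ), i ∉ S → a ≤ b → cd a = insert i S → a < b := by
      intro a i hi ha ha'
      refine lt_of_le_not_ge ha (fun h => ?_)
      have := Finset.card_le_card (hcd _ _ h)
      rw [ha', Finset.card_insert_of_notMem hi] at this
      omega
    rw [Set.encard_eq_two]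
    refine ⟨ia a1, ia a2, ?_, ?_⟩
    · intro h
      have h3 := Finset.Subset.antisymm (hcd _ _ (ia_le.1 h.le)) (hcd _ _ (ia_le.1 h.ge))
      rw [ha1', ha2'] at h3
      have h4 : i ∈ insert j S := by rw [← h3]; exact Finset.mem_insert_self _ _
      rcases Finset.mem_insert.1 h4 with h5 | h5
      · exact hij h5
      · exact hi h5
    · ext z
      simp only [Set.mem_ofPred_eq, Set.mem_insert_iff, Set.mem_singleton_iff]
      constructor
      · rintro ⟨h1, h2⟩
        rcases RR_cases z with rfl | rfl | ⟨a, rfl⟩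
        · exact absurd h1 not_lt_bot
        · exact absurd h2 not_top_lt
        · have hab := ia_lt.1 h2
          have h3 := (hx a hab.le).1 h1
          rcases hU _ h3 (cd_lt hcd hinj hab) with h4 | h4
          · left
            exact le_antisymm (ia_le.2 (hinj _ _ b hab.le ha1 (by rw [h4, ha1'])))
              (ia_le.2 (hinj _ _ b ha1 hab.le (by rw [h4, ha1'])))
          · right
            exact le_antisymm (ia_le.2 (hinj _ _ b hab.le ha2 (by rw [h4, ha2'])))
              (ia_le.2 (hinj _ _ b ha2 hab.le (by rw [h4, ha2'])))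
      · rintro (rfl | rfl)
        · exact ⟨(hx a1 ha1).2 (by rw [ha1']; exact Finset.ssubset_insert hi),
            ia_lt.2 (hlt' a1 i hi ha1 ha1')⟩
        · exact ⟨(hx a2 ha2).2 (by rw [ha2']; exact Finset.ssubset_insert hj),
            ia_lt.2 (hlt' a2 j hj ha2 ha2')⟩
  have hiff : ∀ a b c : A, a ≤ c → b ≤ c → (ia a < ia b ↔ cd a ⊂ cd b) := by
    intro a b c ha hb
    rw [ia_lt]
    refine ⟨fun h => cd_lt hcd hinj h, fun h => ?_⟩
    exact lt_of_le_not_ge (hinj _ _ c ha hb h.1) (fun h' => h.2 (hcd _ _ h'))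
  refine Q_ordCx (R := RR A) (ρ := rk N cd hcd) (ι := ι) rfl rfl hm hι ?_ ?_
  · intro x y hxy hr
    rcases RR_cases x with rfl | rfl | ⟨a, rfl⟩
    · rcases RR_cases y with rfl | rfl | ⟨b, rfl⟩
      · exact absurd hxy (lt_irrefl _)
      · rw [rk_bot, rk_top] at hr
        obtain ⟨a⟩ := hbot (by omega)
        exact ⟨ia a, ia_bot a, ia_top a⟩
      · rw [rk_bot, rk_ia] at hr
        obtain ⟨a, ha, _⟩ := low1 b ∅ (Finset.empty_subset _) (by rw [Finset.card_empty]; exact hr)
        exact ⟨ia a, ia_bot a, ia_lt.2 ha⟩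
    · exact absurd hxy not_top_lt
    · rcases RR_cases y with rfl | rfl | ⟨b, rfl⟩
      · exact absurd hxy not_lt_bot
      · rw [rk_ia, rk_top] at hr
        obtain ⟨b, hb⟩ := hup a (by omega)
        exact ⟨ia b, ia_lt.2 hb, ia_top b⟩
      · rw [rk_ia, rk_ia] at hr
        have hab := ia_lt.1 hxy
        obtain ⟨c, hc, hc'⟩ := low1 b (cd a) (hcd _ _ hab.le) hr
        exact ⟨ia c, (hiff a c b hab.le hc.le).2 hc', ia_lt.2 hc⟩
  · intro x y hxy hr
    rcases RR_cases x with rfl | rfl | ⟨a, rfl⟩
    · rcases RR_cases y with rfl | rfl | ⟨b, rfl⟩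
      · exact absurd hxy (lt_irrefl _)
      · rw [rk_bot, rk_top] at hr
        obtain ⟨b1, b2, h1, h2⟩ := hbot2 (by omega)
        have h3 : ¬ b2 ≤ b1 := by
          intro h
          have hc := hcd _ _ h
          have hc1 : (cd b1).card = 1 := by
            have := Finset.card_pos.2 (hne b1)
            have := hN b1
            omega
          have hc2 : (cd b2).card = 1 := by
            have := Finset.card_pos.2 (hne b2)
            have := hN b2
            omega
          exact h1 (hinj _ _ b1 le_rfl h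
            (Finset.eq_of_subset_of_card_le hc (by rw [hc1, hc2])).symm.subset)
        have hall : ∀ b b' : A, b ≤ b' → b' ≤ b := by
          intro b b' h
          have hc := hcd _ _ h
          have hc1 : (cd b).card = 1 := by
            have := Finset.card_pos.2 (hne b)
            have := hN b
            omega
          have hc2 : (cd b').card = 1 := by
            have := Finset.card_pos.2 (hne b')
            have := hN b'
            omega
          exact hinj _ _ b' le_rfl h
            (Finset.eq_of_subset_of_card_le hc (by rw [hc1, hc2])).symm.subset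
        rw [Set.encard_eq_two]
        refine ⟨ia b1, ia b2, fun h => h1 (ia_le.1 h.le), ?_⟩
        ext z
        simp only [Set.mem_ofPred_eq, Set.mem_insert_iff, Set.mem_singleton_iff]
        constructor
        · rintro ⟨h4, h5⟩
          rcases RR_cases z with rfl | rfl | ⟨b, rfl⟩
          · exact absurd h4 not_lt_bot
          · exact absurd h5 not_top_lt
          · rcases h2 b with h6 | h6
            · exact Or.inl (le_antisymm (ia_le.2 h6) (ia_le.2 (hall _ _ h6)))
            · exact Or.inr (le_antisymm (ia_le.2 h6) (ia_le.2 (hall _ _ h6)))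
        · rintro (rfl | rfl)
          · exact ⟨ia_bot _, ia_top _⟩
          · exact ⟨ia_bot _, ia_top _⟩
      · rw [rk_bot, rk_ia] at hr
        refine low2 ⊥ b ∅ (Finset.empty_subset _) (by rw [Finset.card_empty]; exact hr) ?_
        intro a _
        exact ⟨fun _ => Finset.empty_ssubset.2 (hne a), fun _ => ia_bot a⟩
    · exact absurd hxy not_top_lt
    · rcases RR_cases y with rfl | rfl | ⟨b, rfl⟩
      · exact absurd hxy not_lt_bot
      · rw [rk_ia, rk_top] at hr
        obtain ⟨b1, b2, h1, h2, h3, h4⟩ := hup2 a (by omega)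
        have hcard : ∀ b, a < b → (cd b).card = N := by
          intro b hb
          have := hlt hb
          have := hN b
          omega
        have hall : ∀ b b' : A, a < b → a < b' → b ≤ b' → b' ≤ b := by
          intro b b' hb hb' h
          exact hinj _ _ b' le_rfl h (Finset.eq_of_subset_of_card_le (hcd _ _ h)
            (by rw [hcard b hb, hcard b' hb'])).symm.subset
        rw [Set.encard_eq_two]
        refine ⟨ia b1, ia b2, fun h => h3 (ia_le.1 h.le), ?_⟩
        ext z
        simp only [Set.mem_ofPred_eq, Set.mem_insert_iff, Set.mem_singleton_iff]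
        constructor
        · rintro ⟨h5, h6⟩
          rcases RR_cases z with rfl | rfl | ⟨b, rfl⟩
          · exact absurd h5 not_lt_bot
          · exact absurd h6 not_top_lt
          · have hb := ia_lt.1 h5
            rcases h4 b hb with h7 | h7
            · exact Or.inl (le_antisymm (ia_le.2 h7) (ia_le.2 (hall _ _ hb h1 h7)))
            · exact Or.inr (le_antisymm (ia_le.2 h7) (ia_le.2 (hall _ _ hb h2 h7)))
        · rintro (rfl | rfl)
          · exact ⟨ia_lt.2 h1, ia_top _⟩
          · exact ⟨ia_lt.2 h2, ia_top _⟩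
      · rw [rk_ia, rk_ia] at hr
        have hab := ia_lt.1 hxy
        refine low2 (ia a) b (cd a) (hcd _ _ hab.le) hr ?_
        intro c hc
        exact hiff a c b hab.le hc

end

end Pool.Agent.W604.FT
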