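import Mathlib
import Pool.Agent.W604.T.Emp
import Pool.Agent.W604.T.Pos

set_option autoImplicit false
set_option linter.unusedSectionVars false
set_option linter.unusedSimpArgs false
set_option linter.unusedVariables false

/-!
The partially ordered set of flags.
-/

namespace Pool.Agent.W604.FT

open Equiv Pool.Agent.W604 Pool.Agent.W604.ArcSS

variable {F : Surf}

/-- cardinalities of the sets of the chain -/
noncomputable def cdF (x : Flag F) : Finset ℕ := x.c.image Finset.card

theorem mem_cdF {x : Flag F} {j : ℕ} : j ∈ cdF x ↔ ∃ A ∈ x.c, A.card = j := by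
  unfold cdF
  rw [Finset.mem_image]

theorem chain_le (x : Flag F) {A B : Finset (Fin (x.k + 1))} (hA : A ∈ x.c) (hB : B ∈ x.c)
    (h : A.card ≤ B.card) : A ⊆ B := by
  by_cases hAB : A = B
  · rw [hAB]
  · rcases x.chain hA hB hAB with h1 | h1
    · exact h1
    · exact (Finset.eq_of_subset_of_card_le h1 h).symm.subset

theorem chain_eq (x : Flag F) {A B : Finset (Fin (x.k + 1))} (hA : A ∈ x.c) (hB : B ∈ x.c)
    (h : A.card = B.card) : A = B :=
  Finset.Subset.antisymm (chain_le x hA hB h.le) (chain_le x hB hA h.ge)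

theorem cdF_sub (x : Flag F) : cdF x ⊆ Finset.Icc 1 (x.k + 1) := by
  intro j hj
  obtain ⟨A, hA, rfl⟩ := mem_cdF.1 hj
  rw [Finset.mem_Icc]
  refine ⟨Finset.card_pos.2 (x.ne A hA), ?_⟩
  have := Finset.card_le_univ A
  rwa [Fintype.card_fin] at this

theorem cdF_top (x : Flag F) : x.k + 1 ∈ cdF x :=
  mem_cdF.2 ⟨Finset.univ, x.top, by rw [Finset.card_univ, Fintype.card_fin]⟩

/-- the number of ranks -/
noncomputable def NN (F : Surf) : ℕ := (NF F).toNat

theorem k_le (x : Flag F) : x.k + 1 ≤ NN F := by
  have := in_le x.isIn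
  unfold NN
  omega

theorem NN_eq (x : Flag F) : (NN F : ℤ) = NF F := by
  have := in_le x.isIn
  unfold NN
  rw [Int.toNat_of_nonneg]
  push_cast at this
  linarith [Int.natCast_nonneg x.k]

theorem card_cdF_le (x : Flag F) : (cdF x).card ≤ x.k + 1 := by
  have := Finset.card_le_card (cdF_sub x)
  rwa [Nat.card_Icc, Nat.add_sub_cancel] at this

theorem F_mono (x y : Flag F) (h : x ≤ y) : cdF x ⊆ cdF y := by
  obtain ⟨f, hf, hc⟩ := h
  intro j hj
  obtain ⟨A, hA, rfl⟩ := mem_cdF.1 hj
  exact mem_cdF.2 ⟨A.image f, hc A hA, Finset.card_image_of_injective A hf.inj⟩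

theorem F_inj (a b c : Flag F) (ha : a ≤ c) (hb : b ≤ c) (h : cdF a ⊆ cdF b) : a ≤ b := by
  obtain ⟨f, hf, hfc⟩ := ha
  obtain ⟨g, hg, hgc⟩ := hb
  have key : ∀ A ∈ a.c, ∃ B ∈ b.c, A.image f = B.image g := by
    intro A hA
    obtain ⟨B, hB, hAB⟩ := mem_cdF.1 (h (mem_cdF.2 ⟨A, hA, rfl⟩))
    refine ⟨B, hB, chain_eq c (hfc A hA) (hgc B hB) ?_⟩
    rw [Finset.card_image_of_injective A hf.inj, Finset.card_image_of_injective B hg.inj, hAB]
  have hr : Set.range f ⊆ Set.range g := by
    obtain ⟨B, _, hB⟩ := key _ a.top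
    rintro _ ⟨x, rfl⟩
    have h1 : f x ∈ Finset.univ.image f := Finset.mem_image_of_mem f (Finset.mem_univ x)
    rw [hB, Finset.mem_image] at h1
    obtain ⟨y, _, hy⟩ := h1
    exact ⟨y, hy⟩
  obtain ⟨q, hq, hgq⟩ := hf.factor hg hr
  refine ⟨q, hq, fun A hA => ?_⟩
  obtain ⟨B, hB, hAB⟩ := key A hA
  have h1 : A.image q = B := by
    apply Finset.image_injective hg.inj
    rw [Finset.image_image, hgq, hAB]
  rw [h1]
  exact hB

theorem F_ex (c : Flag F) (S : Finset ℕ) (hS : S.Nonempty) (hSc : S ⊆ cdF c) :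
    ∃ a : Flag F, a ≤ c ∧ cdF a = S := by
  obtain ⟨M, hM, hMc⟩ := mem_cdF.1 (hSc (S.max'_mem hS))
  have hmax : ∀ s ∈ S, s ≤ M.card := fun s hs => by rw [hMc]; exact S.le_max' s hs
  obtain ⟨j, hj⟩ : ∃ j, M.card = j + 1 :=
    Nat.exists_eq_succ_of_ne_zero (Finset.card_pos.2 (c.ne M hM)).ne'
  obtain ⟨g, hginj, hgM⟩ : ∃ g : Fin (j + 1) → Fin (c.k + 1), Function.Injective g ∧
      Finset.univ.image g = M :=
    ⟨fun x => M.orderEmbOfFin hj x, (M.orderEmbOfFin hj).injective,
      Finset.image_orderEmbOfFin_univ M hj⟩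
  obtain ⟨D', hD'⟩ := Sub.exists_sub _ c.D _ g hginj
  let C' : Finset (Finset (Fin (j + 1))) :=
    Finset.univ.filter (fun A => A.image g ∈ c.c ∧ (A.image g).card ∈ S)
  have hC' : ∀ A, A ∈ C' ↔ A.image g ∈ c.c ∧ A.card ∈ S := by
    intro A
    simp only [C', Finset.mem_filter, Finset.mem_univ, true_and,
      Finset.card_image_of_injective A hginj]
  have htop : Finset.univ ∈ C' := by
    rw [hC', hgM]
    refine ⟨hM, ?_⟩
    have : (Finset.univ : Finset (Fin (j + 1))).card = M.card := by
      rw [← hgM, Finset.card_image_of_injective _ hginj]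
    rw [this, hMc]
    exact S.max'_mem hS
  let a : Flag F :=
    { k := j
      D := D'
      isIn := hD'.isIn c.isIn
      c := C'
      chain := by
        intro A hA B hB hAB
        have hA' := ((hC' A).1 hA).1
        have hB' := ((hC' B).1 hB).1
        rcases c.chain hA' hB' (fun h => hAB (Finset.image_injective hginj h)) with h | h
        · exact Or.inl ((Finset.image_subset_image_iff hginj).1 h)
        · exact Or.inr ((Finset.image_subset_image_iff hginj).1 h)
      ne := by
        intro A hA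
        have h1 := c.ne _ ((hC' A).1 hA).1
        exact Finset.image_nonempty.1 h1
      top := htop }
  refine ⟨a, ⟨g, hD', fun A hA => ?_⟩, ?_⟩
  · exact ((hC' A).1 hA).1
  · ext s
    rw [mem_cdF]
    constructor
    · rintro ⟨A, hA, rfl⟩
      exact ((hC' A).1 hA).2
    · intro hs
      obtain ⟨B, hB, hBs⟩ := mem_cdF.1 (hSc hs)
      have hBM : B ⊆ M := chain_le c hB hM (by rw [hBs]; exact hmax s hs)
      have hB' : (Finset.univ.filter (fun x => g x ∈ B)).image g = B := by
        ext y
        rw [Finset.mem_image]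
        constructor
        · rintro ⟨x, hx, rfl⟩
          exact (Finset.mem_filter.1 hx).2
        · intro hy
          have h1 := hBM hy
          rw [← hgM, Finset.mem_image] at h1
          obtain ⟨x, _, rfl⟩ := h1
          exact ⟨x, Finset.mem_filter.2 ⟨Finset.mem_univ _, hy⟩, rfl⟩
      have hcard : (Finset.univ.filter (fun x => g x ∈ B)).card = s := by
        rw [← Finset.card_image_of_injective _ hginj, hB', hBs]
      exact ⟨Finset.univ.filter (fun x => g x ∈ B), (hC' _).2 ⟨by rw [hB']; exact hB,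
        by rw [hcard]; exact hs⟩, hcard⟩

/-! ### one more arc -/

/-- the flag with one more arc -/
noncomputable def extF (a : Flag F) (D' : Sys F (a.k + 2)) (h : D'.In) : Flag F where
  k := a.k + 1
  D := D'
  isIn := h
  c := insert Finset.univ (a.c.image (fun A => A.image Fin.succ))
  chain := by
    rw [Finset.coe_insert]
    refine IsChain.insert ?_ (fun B _ _ => Or.inr (Finset.subset_univ B))
    intro A hA B hB hAB
    simp only [Finset.coe_image, Set.mem_image, Finset.mem_coe] at hA hB
    obtain ⟨A, hA, rfl⟩ := hA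
    obtain ⟨B, hB, rfl⟩ := hB
    rcases a.chain hA hB (fun h => hAB (by rw [h])) with h | h
    · exact Or.inl (Finset.image_subset_image h)
    · exact Or.inr (Finset.image_subset_image h)
  ne := by
    intro A hA
    rw [Finset.mem_insert, Finset.mem_image] at hA
    rcases hA with rfl | ⟨A, hA, rfl⟩
    · exact Finset.univ_nonempty
    · exact (a.ne A hA).image _
  top := Finset.mem_insert_self _ _

theorem extF_c (a : Flag F) (D' : Sys F (a.k + 2)) (h : D'.In) (A : Finset (Fin (a.k + 2))) :
    A ∈ (extF a D' h).c ↔ A = Finset.univ ∨ ∃ B ∈ a.c, B.image Fin.succ = A := by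
  show A ∈ insert Finset.univ (a.c.image (fun A => A.image Fin.succ)) ↔ _
  rw [Finset.mem_insert, Finset.mem_image]

theorem extF_lt (a : Flag F) (D' : Sys F (a.k + 2)) (h : D'.In) (h0 : D'.drop 0 = a.D) :
    a < extF a D' h := by
  refine lt_of_le_not_ge ⟨Fin.succ, ?_, fun A hA => ?_⟩ ?_
  · rw [← h0]
    exact Sub.drop0 D'
  · exact (extF_c a D' h (A.image Fin.succ)).2 (Or.inr ⟨A, hA, rfl⟩)
  · rintro ⟨f, hf, _⟩
    have h1 := hf.le
    have h2 : (extF a D' h).k = a.k + 1 := rfl
    omega

/-! ### one more set -/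

/-- the flag with one more set -/
noncomputable def addF (a : Flag F) (A : Finset (Fin (a.k + 1)))
    (hc : IsChain (· ⊆ ·) ((insert A a.c : Finset _) : Set (Finset (Fin (a.k + 1)))))
    (hne : A.Nonempty) : Flag F where
  k := a.k
  D := a.D
  isIn := a.isIn
  c := insert A a.c
  chain := hc
  ne := by
    intro B hB
    rcases Finset.mem_insert.1 hB with rfl | hB
    · exact hne
    · exact a.ne B hB
  top := Finset.mem_insert_of_mem a.top

theorem addF_lt (a : Flag F) {A : Finset (Fin (a.k + 1))}
    {hc : IsChain (· ⊆ ·) ((insert A a.c : Finset _) : Set (Finset (Fin (a.k + 1))))}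
    {hne : A.Nonempty} (hA : A.card ∉ cdF a) : a < addF a A hc hne := by
  refine lt_of_le_not_ge ⟨id, Sub.refl, fun B hB => ?_⟩ (fun h => ?_)
  · have h1 : B.image id ∈ insert A a.c := by
      rw [Finset.image_id]
      exact Finset.mem_insert_of_mem hB
    exact h1
  · exact hA (F_mono _ _ h (mem_cdF.2 ⟨A, Finset.mem_insert_self _ _, rfl⟩))

/-- the sets around a missing cardinality -/
theorem gapF (a : Flag F) {j : ℕ} (hj : j ∉ cdF a) (h1 : 1 ≤ j) (h2 : j ≤ a.k + 1) :
    ∃ L U : Finset (Fin (a.k + 1)), L ⊆ U ∧ L.card < j ∧ j < U.card ∧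
      (∀ B ∈ a.c, B.card < j → B ⊆ L) ∧ (∀ B ∈ a.c, j < B.card → U ⊆ B) ∧
      (L = ∅ ∨ L ∈ a.c) ∧ U ∈ a.c := by
  obtain ⟨U, hU, hUmin⟩ := Finset.exists_min_image (a.c.filter (fun B => j < B.card))
    Finset.card ⟨Finset.univ, Finset.mem_filter.2 ⟨a.top, by
      rw [Finset.card_univ, Fintype.card_fin]
      refine lt_of_le_of_ne h2 ?_
      rintro rfl
      exact hj (cdF_top a)⟩⟩
  obtain ⟨L, hL, hLmax⟩ := Finset.exists_max_image
    ((insert ∅ a.c).filter (fun B => B.card < j)) Finset.card
    ⟨∅, Finset.mem_filter.2 ⟨Finset.mem_insert_self _ _, by rw [Finset.card_empty]; omega⟩⟩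
  rw [Finset.mem_filter] at hU hL
  rw [Finset.mem_insert] at hL
  refine ⟨L, U, ?_, hL.2, hU.2, ?_, ?_, hL.1, hU.1⟩
  · rcases hL.1 with h | h
    · rw [h]; exact Finset.empty_subset _
    · exact chain_le a h hU.1 (by have := hL.2; have := hU.2; omega)
  · intro B hB hBj
    have h3 := hLmax B (Finset.mem_filter.2 ⟨Finset.mem_insert_of_mem hB, hBj⟩)
    rcases hL.1 with h | h
    · rw [h, Finset.card_empty] at h3
      rw [Finset.card_eq_zero.1 (Nat.le_zero.1 h3)]
      exact Finset.empty_subset _
    · exact chain_le a hB h h3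
  · intro B hB hBj
    have h3 := hUmin B (Finset.mem_filter.2 ⟨hB, hBj⟩)
    exact chain_le a hU.1 hB h3

theorem chain_insert (a : Flag F) {j : ℕ} (hj : j ∉ cdF a) {L U A : Finset (Fin (a.k + 1))}
    (h1 : ∀ B ∈ a.c, B.card < j → B ⊆ L) (h2 : ∀ B ∈ a.c, j < B.card → U ⊆ B)
    (hL : L ⊆ A) (hU : A ⊆ U) :
    IsChain (· ⊆ ·) ((insert A a.c : Finset _) : Set (Finset (Fin (a.k + 1)))) := by
  rw [Finset.coe_insert]
  refine IsChain.insert a.chain (fun B hB _ => ?_)
  rcases lt_trichotomy B.card j with h | h | h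
  · exact Or.inr ((h1 B hB h).trans hL)
  · exact absurd (mem_cdF.2 ⟨B, hB, h⟩) hj
  · exact Or.inl (hU.trans (h2 B hB h))

theorem F_up (a : Flag F) (h : (cdF a).card < NN F) : ∃ b, a < b := by
  by_cases hk : a.k + 1 < NN F
  · obtain ⟨D', h1, h2⟩ := in_ext a.isIn (by
      rw [← NN_eq a]; exact_mod_cast hk)
    exact ⟨extF a D' h1, extF_lt a D' h1 h2⟩
  · have hk' : a.k + 1 = NN F := by have := k_le a; omega
    obtain ⟨j, hj, hj'⟩ : ∃ j ∈ Finset.Icc 1 (a.k + 1), j ∉ cdF a := by
      by_contra hcon
      push Not at hcon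
      have := Finset.card_le_card (show Finset.Icc 1 (a.k + 1) ⊆ _ from hcon)
      rw [Nat.card_Icc, Nat.add_sub_cancel] at this
      omega
    rw [Finset.mem_Icc] at hj
    obtain ⟨L, U, e1, e2, e3, e4, e5, e6, e7⟩ := gapF a hj' hj.1 hj.2
    obtain ⟨A, hA1, hA2, hA3⟩ := Finset.exists_subsuperset_card_eq e1 e2.le e3.le
    refine ⟨addF a A (chain_insert a hj' e4 e5 hA1 hA2) ?_, addF_lt a ?_⟩
    · rw [← Finset.card_pos, hA3]; omega
    · rw [hA3]; exact hj'

theorem F_card (a b : Flag F) (h : a < b) : (cdF a).card < (cdF b).card :=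
  Finset.card_lt_card (cd_lt F_mono F_inj h)

/-- a flag of maximal rank above another one is equivalent to it -/
theorem F_of_ge {b b' : Flag F} (h : b' ≤ b) (h1 : (cdF b').card = NN F) : b ≤ b' := by
  refine F_inj b b' b le_rfl h ?_
  refine (Finset.eq_of_subset_of_card_le (F_mono _ _ h) ?_).symm.subset
  rw [h1]
  exact (card_cdF_le b).trans (k_le b)

theorem F_up2 (a : Flag F) (h : (cdF a).card + 1 = NN F) : ∃ b1 b2, a < b1 ∧ a < b2 ∧
    ¬ b1 ≤ b2 ∧ ∀ b, a < b → b ≤ b1 ∨ b ≤ b2 := by
  have hcard : ∀ b, a < b → (cdF b).card = NN F := by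
    intro b hb
    have h1 := F_card a b hb
    have h2 := (card_cdF_le b).trans (k_le b)
    omega
  have hbk : ∀ b, a < b → b.k + 1 = NN F := by
    intro b hb
    have h1 := hcard b hb
    have h2 := card_cdF_le b
    have h3 := k_le b
    omega
  have ha1 := card_cdF_le a
  have ha2 := k_le a
  by_cases hk : a.k + 1 = NN F
  · -- one set is missing
    obtain ⟨j, hj, hj'⟩ : ∃ j ∈ Finset.Icc 1 (a.k + 1), j ∉ cdF a := by
      by_contra hcon
      push Not at hcon
      have := Finset.card_le_card (show Finset.Icc 1 (a.k + 1) ⊆ _ from hcon)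
      rw [Nat.card_Icc, Nat.add_sub_cancel] at this
      omega
    have hothers : ∀ i ∈ Finset.Icc 1 (a.k + 1), i ≠ j → i ∈ cdF a := by
      intro i hi hij
      by_contra hcon
      have h3 : cdF a ⊆ ((Finset.Icc 1 (a.k + 1)).erase j).erase i := by
        intro x hx
        rw [Finset.mem_erase, Finset.mem_erase]
        refine ⟨?_, ?_, cdF_sub a hx⟩
        · rintro rfl; exact hcon hx
        · rintro rfl; exact hj' hx
      have h4 := Finset.card_le_card h3
      rw [Finset.card_erase_of_mem (Finset.mem_erase.2 ⟨hij, hi⟩),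
        Finset.card_erase_of_mem hj, Nat.card_Icc] at h4
      have h5 : 0 < (cdF a).card := Finset.card_pos.2 ⟨_, cdF_top a⟩
      omega
    rw [Finset.mem_Icc] at hj
    obtain ⟨L, U, e1, e2, e3, e4, e5, e6, e7⟩ := gapF a hj' hj.1 hj.2
    have hjk : j < a.k + 1 := by
      refine lt_of_le_of_ne hj.2 ?_
      rintro rfl
      exact hj' (cdF_top a)
    have hUc : U.card = j + 1 := by
      obtain ⟨B, hB, hBc⟩ := mem_cdF.1 (hothers (j + 1) (Finset.mem_Icc.2 (by omega)) (by omega))
      have := Finset.card_le_card (e5 B hB (by omega))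
      omega
    have hLc : L.card = j - 1 := by
      rcases Nat.eq_zero_or_pos (j - 1) with h3 | h3
      · omega
      · obtain ⟨B, hB, hBc⟩ := mem_cdF.1 (hothers (j - 1) (Finset.mem_Icc.2 (by omega))
          (by omega))
        have := Finset.card_le_card (e4 B hB (by omega))
        omega
    have hdiff : (U \ L).card = 2 := by
      rw [Finset.card_sdiff_of_subset e1]; omega
    obtain ⟨p, q, hpq, hUL⟩ := Finset.card_eq_two.1 hdiff
    have hmem : ∀ x, x ∈ U \ L ↔ x = p ∨ x = q := by
      intro x; rw [hUL, Finset.mem_insert, Finset.mem_singleton]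
    have hp := Finset.mem_sdiff.1 ((hmem p).2 (Or.inl rfl))
    have hq := Finset.mem_sdiff.1 ((hmem q).2 (Or.inr rfl))
    have hcI : ∀ x, x ∉ L → (insert x L).card = j := by
      intro x hx
      rw [Finset.card_insert_of_notMem hx]
      omega
    have c1 := chain_insert a hj' e4 e5 (Finset.subset_insert p L)
      (Finset.insert_subset hp.1 e1)
    have c2 := chain_insert a hj' e4 e5 (Finset.subset_insert q L)
      (Finset.insert_subset hq.1 e1)
    have l1 : a < addF a (insert p L) c1 (Finset.insert_nonempty _ _) :=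
      addF_lt a (by rw [hcI p hp.2]; exact hj')
    have l2 : a < addF a (insert q L) c2 (Finset.insert_nonempty _ _) :=
      addF_lt a (by rw [hcI q hq.2]; exact hj')
    refine ⟨addF a (insert p L) c1 (Finset.insert_nonempty _ _),
      addF a (insert q L) c2 (Finset.insert_nonempty _ _), l1, l2, ?_, ?_⟩
    · intro hle
      obtain ⟨f, hf, hfc⟩ : ∃ f : Fin (a.k + 1) → Fin (a.k + 1), Sub a.D f a.D ∧
        ∀ A ∈ insert (insert p L) a.c, A.image f ∈ insert (insert q L) a.c := hle
      have hfid : f = id := Sub.auto a.isIn hf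
      have h4 := hfc (insert p L) (Finset.mem_insert_self _ _)
      rw [hfid, Finset.image_id] at h4
      rcases Finset.mem_insert.1 h4 with h5 | h5
      · have h6 : p ∈ insert q L := by rw [← h5]; exact Finset.mem_insert_self _ _
        rcases Finset.mem_insert.1 h6 with h7 | h7
        · exact hpq h7
        · exact hp.2 h7
      · exact hj' (mem_cdF.2 ⟨_, h5, hcI p hp.2⟩)
    · intro b hb
      have hbk' := hbk b hb
      have hbc := hcard b hb
      obtain ⟨f, hf, hfc⟩ := hb.le
      have hbk2 : b.k = a.k := by omega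
      have hsurj : Function.Surjective f := by
        have : Fintype.card (Fin (a.k + 1)) = Fintype.card (Fin (b.k + 1)) := by
          rw [Fintype.card_fin, Fintype.card_fin, hbk2]
        exact ((Fintype.bijective_iff_injective_and_card f).2 ⟨hf.inj, this⟩).2
      have hjb : j ∈ cdF b := by
        have h3 : cdF b = Finset.Icc 1 (b.k + 1) := by
          apply Finset.eq_of_subset_of_card_le (cdF_sub b)
          rw [Nat.card_Icc, hbc]
          omega
        rw [h3, Finset.mem_Icc]
        omega
      obtain ⟨B, hB, hBj⟩ := mem_cdF.1 hjb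
      set A := Finset.univ.filter (fun x => f x ∈ B) with hA
      have hAB : A.image f = B := by
        ext y
        rw [Finset.mem_image]
        constructor
        · rintro ⟨x, hx, rfl⟩
          exact (Finset.mem_filter.1 hx).2
        · intro hy
          obtain ⟨x, rfl⟩ := hsurj y
          exact ⟨x, Finset.mem_filter.2 ⟨Finset.mem_univ _, hy⟩, rfl⟩
      have hAc : A.card = j := by
        rw [← Finset.card_image_of_injective _ hf.inj, hAB, hBj]
      have hLA : L ⊆ A := by
        rcases e6 with h3 | h3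
        · rw [h3]; exact Finset.empty_subset _
        · rw [← Finset.image_subset_image_iff hf.inj, hAB]
          refine chain_le b (hfc _ h3) hB ?_
          rw [Finset.card_image_of_injective _ hf.inj]
          omega
      have hAU : A ⊆ U := by
        rw [← Finset.image_subset_image_iff hf.inj, hAB]
        refine chain_le b hB (hfc _ e7) ?_
        rw [Finset.card_image_of_injective _ hf.inj]
        omega
      have hAcase : A = insert p L ∨ A = insert q L := by
        obtain ⟨x, hx⟩ : (A \ L).Nonempty := by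
          rw [← Finset.card_pos, Finset.card_sdiff_of_subset hLA]
          omega
        rw [Finset.mem_sdiff] at hx
        have hAx : A = insert x L := by
          symm
          apply Finset.eq_of_subset_of_card_le (Finset.insert_subset hx.1 hLA)
          rw [hcI x hx.2, hAc]
        rcases (hmem x).1 (Finset.mem_sdiff.2 ⟨hAU hx.1, hx.2⟩) with rfl | rfl
        · exact Or.inl hAx
        · exact Or.inr hAx
      rcases hAcase with h3 | h3
      · left
        apply F_of_ge _ (hcard _ l1)
        have h5 : ∀ C ∈ insert (insert p L) a.c, C.image f ∈ b.c := by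
          intro C hC
          rcases Finset.mem_insert.1 hC with h4 | h4
          · rw [h4, ← h3, hAB]
            exact hB
          · exact hfc C h4
        exact ⟨f, hf, h5⟩
      · right
        apply F_of_ge _ (hcard _ l2)
        have h5 : ∀ C ∈ insert (insert q L) a.c, C.image f ∈ b.c := by
          intro C hC
          rcases Finset.mem_insert.1 hC with h4 | h4
          · rw [h4, ← h3, hAB]
            exact hB
          · exact hfc C h4
        exact ⟨f, hf, h5⟩
  · -- one arc is missing
    have hk' : a.k + 1 + 1 = NN F := by omega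
    obtain ⟨D1, D2, ⟨h1, h1'⟩, ⟨h2, h2'⟩, hne, hall⟩ := in_two a.isIn (by
      rw [← NN_eq a]; exact_mod_cast hk')
    have l1 := extF_lt a D1 h1 h1'
    have l2 := extF_lt a D2 h2 h2'
    refine ⟨extF a D1 h1, extF a D2 h2, l1, l2, ?_, ?_⟩
    · intro hle
      obtain ⟨f, hf, hfc⟩ : ∃ f : Fin (a.k + 2) → Fin (a.k + 2), Sub D2 f D1 ∧
        ∀ A ∈ (extF a D1 h1).c, A.image f ∈ (extF a D2 h2).c := hle
      obtain ⟨π, τ, h3, h4⟩ := hf.bij
      have hA0 : (Finset.univ.image Fin.succ : Finset (Fin (a.k + 2))).image f =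
          Finset.univ.image Fin.succ := by
        have m1 : (Finset.univ.image Fin.succ : Finset (Fin (a.k + 2))) ∈ (extF a D1 h1).c :=
          (extF_c a D1 h1 _).2 (Or.inr ⟨Finset.univ, a.top, rfl⟩)
        have m2 : (Finset.univ.image Fin.succ : Finset (Fin (a.k + 2))) ∈ (extF a D2 h2).c :=
          (extF_c a D2 h2 _).2 (Or.inr ⟨Finset.univ, a.top, rfl⟩)
        have m3 := hfc _ m1
        refine chain_eq (extF a D2 h2) m3 m2 ?_
        exact Finset.card_image_of_injective _ hf.inj
      have hf0 : f 0 = 0 := by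
        by_contra hne0
        obtain ⟨x, hx⟩ := Fin.exists_succ_eq.2 hne0
        have h5 : f 0 ∈ (Finset.univ.image Fin.succ : Finset (Fin (a.k + 2))) := by
          rw [← hx]; exact Finset.mem_image_of_mem _ (Finset.mem_univ x)
        rw [← hA0, Finset.mem_image] at h5
        obtain ⟨y, hy, hy'⟩ := h5
        have h6 := hf.inj hy'
        rw [h6, Finset.mem_image] at hy
        obtain ⟨w, _, hw⟩ := hy
        exact Fin.succ_ne_zero w hw
      have hπ0 : π 0 = 0 := by
        rw [h4, Equiv.symm_apply_eq] at hf0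
        exact hf0.symm
      obtain ⟨π', rfl⟩ := exists_lp hπ0
      have h5 : D1.drop 0 = (D2.drop 0).relabel π' (fun i => τ i.succ) := by
        apply toC_inj
        rw [toC_drop_zero, toC_relabel, toC_drop_zero, h3, toC_relabel]
        exact (CS F.B (Fin F.s)).d_act π' (fun i => τ i false) (toC D2)
      rw [h1', h2'] at h5
      obtain ⟨h6, _⟩ := in_free a.isIn h5.symm
      subst h6
      have h7 : lp (1 : Perm (Fin (a.k + 1))) = 1 := by
        apply Equiv.ext
        intro i
        refine Fin.cases ?_ (fun i => ?_) i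
        · simp
        · simp
      rw [h7] at h3
      exact hne ⟨τ, h3⟩
    · intro b hb
      have hbk' := hbk b hb
      obtain ⟨f, hf, hfc⟩ := hb.le
      have hbk2 : b.k = a.k + 1 := by omega
      obtain ⟨bk, bD, bIn, bc, bch, bne, bt⟩ := b
      simp only at hbk2
      subst hbk2
      obtain ⟨E, g, g1, g2, g3, g4⟩ := Sub.normal hf
      have hEIn : E.In := g1.isIn bIn
      have key : ∀ (Di : Sys F (a.k + 2)) (hi : Di.In), (∃ τ, E = Di.relabel 1 τ) →
          extF a Di hi ≤ (⟨a.k + 1, bD, bIn, bc, bch, bne, bt⟩ : Flag F) := by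
        rintro Di hi ⟨τ, hτ⟩
        have h5 : Sub E id Di := by
          have h6 : Sub Di id E := by
            rw [hτ]
            exact Sub.relabel id Di 1 τ Sub.refl
          obtain ⟨q, hq1, hq2⟩ := Sub.factor (Sub.refl (D := Di)) h6 (le_refl _)
          rw [Function.id_comp] at hq2
          rw [hq2] at hq1
          exact hq1
        refine ⟨g, g1.trans h5, fun A hA => ?_⟩
        rcases (extF_c a Di hi A).1 hA with rfl | ⟨B, hB, rfl⟩
        · have h6 : (Finset.univ.image g : Finset (Fin (a.k + 2))) = Finset.univ :=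
            Finset.image_univ_of_surjective g4.2
          have h7 : (Finset.univ.image g : Finset (Fin (a.k + 2))) ∈ bc := by
            rw [h6]; exact bt
          exact h7
        · have h6 : (B.image Fin.succ).image g = B.image f := by
            rw [Finset.image_image, g3]
          have h7 : (B.image Fin.succ).image g ∈ bc := by
            rw [h6]; exact hfc B hB
          exact h7
      rcases hall E hEIn g2 with h5 | h5
      · left
        exact F_of_ge (key D1 h1 h5) (hcard _ l1)
      · right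
        exact F_of_ge (key D2 h2 h5) (hcard _ l2)

end Pool.Agent.W604.FT
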