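import Mathlib
import Pool.Agent.W604.T.Flag

set_option autoImplicit false
set_option linter.unusedSectionVars false
set_option linter.unusedSimpArgs false
set_option linter.unusedVariables false

/-!
The arc complex is a closed pseudomanifold, hence of finite type.
-/

namespace Pool.Agent.W604.FT

open Equiv Pool.Agent.W604 Pool.Agent.W604.ArcSS

variable {F : Surf}

/-! ### the lowest rank -/

/-- the flag of an arc -/
def oneF (D : Sys F 1) (h : D.In) : Flag F where
  k := 0
  D := D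
  isIn := h
  c := {Finset.univ}
  chain := by
    intro A hA B hB hAB
    rw [Finset.coe_singleton, Set.mem_singleton_iff] at hA hB
    exact absurd (hA.trans hB.symm) hAB
  ne := by
    intro A hA
    rw [Finset.mem_singleton] at hA
    rw [hA]
    exact Finset.univ_nonempty
  top := Finset.mem_singleton_self _

theorem NF_NN (h : 1 ≤ NN F) : (NN F : ℤ) = NF F := by
  unfold NN at h ⊢
  omega

theorem F_bot (h : 1 ≤ NN F) : Nonempty (Flag F) := by
  have h1 := NF_NN h
  obtain ⟨D, hD⟩ := exists_empty F (by rw [← h1]; exact_mod_cast h)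
  obtain ⟨D', h2, _⟩ := in_ext hD (by rw [← h1]; exact_mod_cast h)
  exact ⟨oneF D' h2⟩

theorem F_bot2 (h : NN F = 1) : ∃ b1 b2 : Flag F, ¬ b1 ≤ b2 ∧ ∀ b, b ≤ b1 ∨ b ≤ b2 := by
  have h1 := NF_NN (F := F) (by omega)
  obtain ⟨D, hD⟩ := exists_empty F (by rw [← h1]; exact_mod_cast (by omega : 1 ≤ NN F))
  obtain ⟨D1, D2, ⟨e1, e1'⟩, ⟨e2, e2'⟩, hne, hall⟩ := in_two hD (by
    rw [← h1, h]; norm_num)
  refine ⟨oneF D1 e1, oneF D2 e2, ?_, ?_⟩
  · intro hle
    obtain ⟨f, hf, _⟩ : ∃ f : Fin 1 → Fin 1, Sub D2 f D1 ∧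
      ∀ A ∈ (oneF D1 e1).c, A.image f ∈ (oneF D2 e2).c := hle
    obtain ⟨π, τ, h3, _⟩ := hf.bij
    have : π = 1 := Subsingleton.elim (α := Perm (Fin 1)) _ _
    rw [this] at h3
    exact hne ⟨τ, h3⟩
  · intro b
    have hb := k_le b
    obtain ⟨bk, bD, bIn, bc, bch, bne, bt⟩ := b
    simp only at hb
    obtain rfl : bk = 0 := by omega
    have key : ∀ (Di : Sys F 1) (hi : Di.In), (∃ τ, bD = Di.relabel 1 τ) →
        (⟨0, bD, bIn, bc, bch, bne, bt⟩ : Flag F) ≤ oneF Di hi := by
      rintro Di hi ⟨τ, hτ⟩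
      have h5 : Sub Di id bD := by
        rw [hτ]
        exact Sub.relabel id Di 1 τ Sub.refl
      have h6 : ∀ A ∈ bc, A.image id ∈ (oneF Di hi).c := by
        intro A hA
        have h7 : A = Finset.univ := by
          obtain ⟨x, hx⟩ := bne A hA
          ext y
          rw [Subsingleton.elim (α := Fin 1) y x]
          exact ⟨fun _ => Finset.mem_univ _, fun _ => hx⟩
        rw [h7, Finset.image_id]
        exact Finset.mem_singleton_self _
      exact ⟨id, h5, h6⟩
    have h0 : bD.drop 0 = D := in_zero_unique (in_drop bIn 0) hD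
    rcases hall bD bIn h0 with h2 | h2
    · exact Or.inl (key D1 e1 h2)
    · exact Or.inr (key D2 e2 h2)

/-- the arc complex is a closed pseudomanifold -/
theorem Q_arc (F : Surf) : Q (NN F) (Arc F) := by
  refine Q_pre (cd := cdF) F_mono (fun a => ⟨_, cdF_top a⟩)
    (fun a => (card_cdF_le a).trans (k_le a)) F_inj F_ex F_up F_up2 F_bot F_bot2

/-! ### finiteness -/

theorem chi_bound {k : ℕ} {D : Sys F k} (hD : D.In) (z : Lt F k ⊕ Fin F.s) :
    D.χ z ∈ Set.Icc (-|NF F|) 1 := by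
  have h := (in_iff D).1 hD
  have h1 := x_le h.val z
  have h2 := Tsm_ge (toC D).X.R (cx_CF (toC D)) (fun z => cx_nonneg h.val h.es z) z
  rw [ic_total h] at h2
  have h3 := nl_nonneg (toC D) z
  have h4 := np_nonneg (toC D) z
  have h5 : cx (toC D) z = (-3) * D.χ z + 2 * np (toC D) z + nl (toC D) z := rfl
  have h6 : (-3) * XF F + 2 * (Nat.card (Fin F.s) : ℤ) + Nat.card F.B - k ≤ NF F := by
    unfold NF
    have : (0 : ℤ) ≤ k := Int.natCast_nonneg k
    linarith
  have h7 := le_abs_self (NF F)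
  have h8 := abs_nonneg (NF F)
  refine ⟨?_, h1⟩
  by_contra hcon
  push Not at hcon
  linarith

theorem finite_sys (k : ℕ) : Finite {D : Sys F k // D.In} := by
  have hf : Finite (Set.Icc (-|NF F|) (1 : ℤ)) := (Set.finite_Icc _ _).to_subtype
  let φ : {D : Sys F k // D.In} → Perm (Lt F k) × ((Lt F k ⊕ Fin F.s) → (Lt F k ⊕ Fin F.s) → Prop) ×
      ((Lt F k ⊕ Fin F.s) → Set.Icc (-|NF F|) (1 : ℤ)) :=
    fun D => (D.1.w, fun a b => D.1.R a b, fun z => ⟨D.1.χ z, chi_bound D.2 z⟩)
  have hφ : Function.Injective φ := by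
    rintro ⟨⟨w, R, χ, hc, hface⟩, hD⟩ ⟨⟨w', R', χ', hc', hface'⟩, hD'⟩ h
    apply Subtype.ext
    have e1 : w = w' := congrArg Prod.fst h
    have e2 : (fun a b => R a b) = (fun a b => R' a b) := congrArg (fun x => x.2.1) h
    have e3 : χ = χ' := by
      funext z
      have := congrFun (congrArg (fun x => x.2.2) h) z
      exact congrArg Subtype.val this
    have e4 : R = R' := Setoid.ext (fun a b => by
      have := congrFun (congrFun e2 a) b
      exact iff_of_eq this)
    subst e1 e3 e4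
    rfl
  exact Finite.of_injective φ hφ

theorem finite_flag : Finite (Flag F) := by
  have h1 : ∀ k : ℕ, Finite {D : Sys F (k + 1) // D.In} := fun k => finite_sys (k + 1)
  let φ : Flag F → Σ k : Fin (NN F), {D : Sys F ((k : ℕ) + 1) // D.In} ×
      Finset (Finset (Fin ((k : ℕ) + 1))) :=
    fun x => ⟨⟨x.k, by have := k_le x; omega⟩, ⟨x.D, x.isIn⟩, x.c⟩
  have hφ : Function.Injective φ := by
    rintro ⟨k, D, isIn, c, h1, h2, h3⟩ ⟨k', D', isIn', c', h1', h2', h3'⟩ h
    simp only [φ, Sigma.mk.injEq, Fin.mk.injEq] at h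
    obtain ⟨rfl, h⟩ := h
    have h4 := eq_of_heq h
    simp only [Prod.mk.injEq, Subtype.mk.injEq] at h4
    obtain ⟨rfl, rfl⟩ := h4
    rfl
  exact Finite.of_injective φ hφ

theorem finite_arc (F : Surf) : (Arc F).S.Finite := by
  have h1 : Finite (Flag F) := finite_flag
  have h2 : Finite (Antisymmetrization (Flag F) (· ≤ ·)) := Quotient.finite _
  exact Set.toFinite _

/-- Every quotient arc complex has finite type. -/
theorem arc_ty (One : Poly → Prop) (F : Surf) : ∃ n, Ty One n ⟨_, Arc F⟩ :=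
  exists_ty One (K := ⟨_, Arc F⟩) (Q_arc F) (finite_arc F)

end Pool.Agent.W604.FT
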